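import Mathlib

set_option autoImplicit false

namespace Pool.Agent.Helper82.TL

open Set

/-! Part 1: finite labelled graphs with memory, and the passage to the next stage. -/

abbrev Lbl := List ℕ

/-- number of letters at level `n`. -/
def ell (n : ℕ) : ℕ := 2 ^ (n + 1) + 1

structure Mem (V E : Type) where
  vs : Set V
  es : Set E
  ts : Set Lbl
  bt : ℕ

structure Mem.Le {V E : Type} (H H' : Mem V E) : Prop where
  vs : H.vs ⊆ H'.vs
  es : H.es ⊆ H'.es
  ts : H.ts ⊆ H'.ts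
  bt : H'.bt ≤ H.bt

def Mem.ob {V E : Type} (H : Mem V E) : Set (V ⊕ E) :=
  {o | Sum.elim (fun v => v ∈ H.vs) (fun e => e ∈ H.es) o}

theorem Mem.Le.ob {V E : Type} {H H' : Mem V E} (h : H.Le H') : H.ob ⊆ H'.ob := by
  rintro (v | e) ho
  · exact h.vs ho
  · exact h.es ho

theorem Mem.Le.trans {V E : Type} {H H' H'' : Mem V E} (h : H.Le H') (h' : H'.Le H'') :
    H.Le H'' :=
  ⟨h.vs.trans h'.vs, h.es.trans h'.es, h.ts.trans h'.ts, h'.bt.trans h.bt⟩

structure Dat where
  V : Type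
  E : Type
  ept : E → Bool → V
  lab : V → Lbl
  mem : E → Bool → Mem V E

def Dat.adj (D : Dat) (u v : D.V) : Prop :=
  u = v ∨ ∃ e b, D.ept e b = u ∧ D.ept e (!b) = v

theorem Dat.adj_refl (D : Dat) (u : D.V) : D.adj u u := Or.inl rfl

theorem Dat.adj_symm (D : Dat) {u v : D.V} (h : D.adj u v) : D.adj v u := by
  rcases h with h | ⟨e, b, h1, h2⟩
  · exact Or.inl h.symm
  · exact Or.inr ⟨e, !b, h2, by simpa using h1⟩

structure SubG (D : Dat) (H : Mem D.V D.E) : Prop where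
  ept_mem : ∀ e ∈ H.es, ∀ b, D.ept e b ∈ H.vs
  mem_le : ∀ e ∈ H.es, ∀ b, (D.mem e b).Le H
  lab_mem : ∀ v ∈ H.vs, D.lab v ∈ H.ts
  conn : ∀ P : D.V → Prop, (∀ e ∈ H.es, (P (D.ept e false) ↔ P (D.ept e true))) →
    ∀ u ∈ H.vs, ∀ v ∈ H.vs, P u → P v

structure Inv (n : ℕ) (D : Dat) : Prop where
  finV : Finite D.V
  finE : Finite D.E
  neV : Nonempty D.V
  sub : ∀ e b, SubG D (D.mem e b)
  ept_mem : ∀ e b, D.ept e b ∈ (D.mem e b).vs
  bt_le : ∀ e b, (D.mem e b).bt ≤ n
  bt_lt : ∀ e b, ∀ e' ∈ (D.mem e b).es, ∀ b', (D.mem e b).bt < (D.mem e' b').bt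
  finT : ∀ e b, (D.mem e b).ts.Finite

structure Fat (n j : ℕ) (τ ρ : Set Lbl) : Prop where
  sub : ∀ x ∈ ρ, ∃ i : Fin (ell n), ∃ t ∈ τ, x = (i : ℕ) :: t
  big : ∀ t ∈ τ, {i : Fin (ell n) | (i : ℕ) :: t ∉ ρ}.ncard ≤ 2 ^ j

theorem ell_eq (n : ℕ) : ell n = 2 * 2 ^ n + 1 := by
  unfold ell; rw [pow_succ]; ring

instance (n : ℕ) : Nonempty (Fin (ell n)) := ⟨⟨0, by simp [ell]⟩⟩

/-- a letter keeping the label inside `ρ`. -/
noncomputable def lt (n : ℕ) (ρ : Set Lbl) (t : Lbl) : Fin (ell n) :=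
  Classical.epsilon (fun i : Fin (ell n) => (i : ℕ) :: t ∈ ρ)

theorem two_fat {n j k : ℕ} {τ ρ τ' ρ' : Set Lbl} (h : Fat n j τ ρ) (h' : Fat n k τ' ρ')
    (hj : j ≤ n) (hk : k ≤ n) {t : Lbl} (ht : t ∈ τ) (ht' : t ∈ τ') :
    ∃ i : Fin (ell n), (i : ℕ) :: t ∈ ρ ∧ (i : ℕ) :: t ∈ ρ' := by
  by_contra hcon
  push Not at hcon
  have h1 : (univ : Set (Fin (ell n))) ⊆
      {i : Fin (ell n) | (i : ℕ) :: t ∉ ρ} ∪ {i : Fin (ell n) | (i : ℕ) :: t ∉ ρ'} := by
    intro i _
    by_cases hi : (i : ℕ) :: t ∈ ρ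
    · exact Or.inr (hcon i hi)
    · exact Or.inl hi
  have h2 := (Set.ncard_le_ncard h1 (Set.toFinite _)).trans (Set.ncard_union_le _ _)
  have h3 := h.big t ht
  have h4 := h'.big t ht'
  have h5 : (2:ℕ) ^ j ≤ 2 ^ n := Nat.pow_le_pow_right (by norm_num) hj
  have h6 : (2:ℕ) ^ k ≤ 2 ^ n := Nat.pow_le_pow_right (by norm_num) hk
  rw [Set.ncard_univ, Nat.card_eq_fintype_card, Fintype.card_fin] at h2
  have h7 := ell_eq n
  omega

theorem lt_spec {n j : ℕ} {τ ρ : Set Lbl} (h : Fat n j τ ρ) (hj : j ≤ n) {t : Lbl} (ht : t ∈ τ) :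
    ((lt n ρ t : Fin (ell n)) : ℕ) :: t ∈ ρ := by
  obtain ⟨i, hi, _⟩ := two_fat h h hj hj ht ht
  exact Classical.epsilon_spec (p := fun i : Fin (ell n) => (i : ℕ) :: t ∈ ρ) ⟨i, hi⟩

/-- A fat set has two different letters. -/
theorem two_letters {n j : ℕ} {τ ρ : Set Lbl} (h : Fat n j τ ρ) (hj : j ≤ n) {t : Lbl}
    (ht : t ∈ τ) :
    ∃ i i' : Fin (ell n), i ≠ i' ∧ (i : ℕ) :: t ∈ ρ ∧ (i' : ℕ) :: t ∈ ρ := by
  by_contra hcon
  push Not at hcon
  have h0 := lt_spec h hj ht
  have h1 : (univ : Set (Fin (ell n))) ⊆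
      {i : Fin (ell n) | (i : ℕ) :: t ∉ ρ} ∪ {lt n ρ t} := by
    intro i _
    by_cases hi : i = lt n ρ t
    · exact Or.inr hi
    · exact Or.inl (fun h' => hcon i _ hi h' h0)
  have h2 := (Set.ncard_le_ncard h1 (Set.toFinite _)).trans (Set.ncard_union_le _ _)
  have h3 := h.big t ht
  have h5 : (2:ℕ) ^ j ≤ 2 ^ n := Nat.pow_le_pow_right (by norm_num) hj
  have h6 : 0 < (2:ℕ) ^ n := by positivity
  rw [Set.ncard_univ, Nat.card_eq_fintype_card, Fintype.card_fin, Set.ncard_singleton] at h2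
  have h7 := ell_eq n
  omega

/-! ### covering walks -/

def Wk {α : Type} (r : α → α → Prop) (s : Set α) (a b : α) : Prop :=
  ∃ (L : ℕ) (w : ℕ → α), w 0 = a ∧ w L = b ∧ (∀ i < L, r (w i) (w (i + 1))) ∧
    ∀ x ∈ s, ∃ i ≤ L, w i = x

theorem Wk.concat {α : Type} {r : α → α → Prop} {s t : Set α} {a b c : α}
    (h1 : Wk r s a b) (h2 : Wk r t b c) : Wk r (s ∪ t) a c := by
  obtain ⟨L1, w1, h10, h1L, h1r, h1s⟩ := h1
  obtain ⟨L2, w2, h20, h2L, h2r, h2s⟩ := h2
  refine ⟨L1 + L2, fun i => if i ≤ L1 then w1 i else w2 (i - L1), by simp [h10], ?_, ?_, ?_⟩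
  · by_cases h : L2 = 0
    · subst h
      simp only [Nat.add_zero, le_refl, if_true]
      rw [h1L, ← h20, h2L]
    · have h3 : ¬ (L1 + L2 ≤ L1) := by omega
      simp only [h3, if_false]
      rw [Nat.add_sub_cancel_left, h2L]
  · intro i hi
    by_cases h : i < L1
    · have h3 : i ≤ L1 := by omega
      have h4 : i + 1 ≤ L1 := by omega
      simp only [h3, h4, if_true]
      exact h1r i h
    · by_cases h' : i = L1
      · subst h'
        have h4 : ¬ (i + 1 ≤ i) := by omega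
        simp only [le_refl, h4, if_true, if_false]
        have h5 := h2r 0 (by omega)
        rw [h1L, ← h20]
        have h6 : i + 1 - i = 0 + 1 := by omega
        rw [h6]
        exact h5
      · have h3 : ¬ (i ≤ L1) := by omega
        have h4 : ¬ (i + 1 ≤ L1) := by omega
        simp only [h3, h4, if_false]
        have h6 : i + 1 - L1 = (i - L1) + 1 := by omega
        rw [h6]
        exact h2r _ (by omega)
  · intro x hx
    rcases hx with hx | hx
    · obtain ⟨i, hi, hx⟩ := h1s x hx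
      exact ⟨i, by omega, by simp [hi, hx]⟩
    · obtain ⟨i, hi, hx⟩ := h2s x hx
      refine ⟨L1 + i, by omega, ?_⟩
      by_cases h : i = 0
      · subst h
        simp only [Nat.add_zero, le_refl, if_true]
        rw [h1L, ← h20, hx]
      · have h3 : ¬ (L1 + i ≤ L1) := by omega
        simp only [h3, if_false]
        rw [Nat.add_sub_cancel_left, hx]

theorem Wk.of_rtg {α : Type} {r : α → α → Prop} {a b : α} (h : Relation.ReflTransGen r a b) :
    Wk r {a, b} a b := by
  induction h with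
  | refl => exact ⟨0, fun _ => a, rfl, rfl, by intro i hi; omega, by
      intro x hx; exact ⟨0, le_refl _, by rcases hx with h | h <;> exact h.symm⟩⟩
  | @tail b c hab hbc ih =>
    have h1 : Wk r {c} b c := ⟨1, fun i => if i = 0 then b else c, by simp, by simp, by
      intro i hi
      have : i = 0 := by omega
      subst this
      simpa using hbc, by
      intro x hx
      exact ⟨1, le_refl _, by simpa using hx.symm⟩⟩
    obtain ⟨L, w, h0, hL, hr, hs⟩ := ih.concat h1
    refine ⟨L, w, h0, hL, hr, ?_⟩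
    intro x hx
    rcases hx with hx | hx
    · exact hs x (Or.inl (Or.inl hx))
    · exact hs x (Or.inr hx)

theorem exists_cover_walk {α : Type} [Finite α] (r : α → α → Prop) (hr : ∀ a, r a a)
    (hc : ∀ a b, Relation.ReflTransGen r a b) (a b : α) :
    ∃ (L : ℕ) (w : ℕ → α), w 0 = a ∧ w L = b ∧ (∀ i, r (w i) (w (i + 1))) ∧
      ∀ x, ∃ i ≤ L, w i = x := by
  have key : ∀ s : Set α, s.Finite → Wk r s a b := by
    intro s hs
    induction s, hs using Set.Finite.induction_on with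
    | empty =>
      obtain ⟨L, w, h0, hL, hr, hs⟩ := Wk.of_rtg (hc a b)
      exact ⟨L, w, h0, hL, hr, by simp⟩
    | @insert x s hx hs ih =>
      obtain ⟨L, w, h0, hL, hr, hs⟩ :=
        (ih.concat (Wk.of_rtg (hc b x))).concat (Wk.of_rtg (hc x b))
      refine ⟨L, w, h0, hL, hr, ?_⟩
      intro z hz
      rcases hz with hz | hz
      · exact hs z (Or.inr (Or.inl hz))
      · exact hs z (Or.inl (Or.inl hz))
  obtain ⟨L, w, h0, hL, hr', hs⟩ := key univ Set.finite_univ
  refine ⟨L, fun i => w (min i L), by simpa using h0, by simpa using hL, ?_, ?_⟩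
  · intro i
    by_cases h : i < L
    · have h3 : min i L = i := by omega
      have h4 : min (i + 1) L = i + 1 := by omega
      simp only [h3, h4]
      exact hr' i h
    · have h3 : min i L = L := by omega
      have h4 : min (i + 1) L = L := by omega
      simp only [h3, h4]
      exact hr _
  · intro x
    obtain ⟨i, hi, hx⟩ := hs x (mem_univ _)
    exact ⟨i, hi, by simpa [hi] using hx⟩

structure GoodWalk (D : Dat) (e : D.E) (p : ℕ × (ℕ → D.V × Bool)) : Prop where
  h0 : p.2 0 = (D.ept e false, false)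
  hL : p.2 p.1 = (D.ept e true, true)
  step : ∀ i, D.adj (p.2 i).1 (p.2 (i + 1)).1
  inMem : ∀ i, (p.2 i).1 ∈ (D.mem e (p.2 i).2).vs
  cover : ∀ b, ∀ v ∈ (D.mem e b).vs, ∃ i ≤ p.1, p.2 i = (v, b)

theorem exists_goodWalk {n : ℕ} {D : Dat} (h : Inv n D) (e : D.E) : ∃ p, GoodWalk D e p := by
  classical
  have := h.finV
  let s : Set (D.V × Bool) := {q | q.1 ∈ (D.mem e q.2).vs}
  let r : s → s → Prop := fun a b => D.adj a.1.1 b.1.1
  have hr : ∀ a, r a a := fun a => D.adj_refl _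
  have hsym : ∀ a b, r a b → r b a := fun a b hab => D.adj_symm hab
  have hm : ∀ b, ((D.ept e b, b) : D.V × Bool) ∈ s := fun b => h.ept_mem e b
  -- inside one tag
  have h1 : ∀ b (v : D.V) (hv : v ∈ (D.mem e b).vs),
      Relation.ReflTransGen r ⟨(D.ept e b, b), hm b⟩ ⟨(v, b), hv⟩ := by
    intro b v hv
    have hP := (h.sub e b).conn
      (fun v => ∀ hv : v ∈ (D.mem e b).vs,
        Relation.ReflTransGen r ⟨(D.ept e b, b), hm b⟩ ⟨(v, b), hv⟩) ?_ (D.ept e b) (hm b) v hv
      (fun _ => Relation.ReflTransGen.refl)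
    · exact hP hv
    · intro e' he'
      have hf := (h.sub e b).ept_mem e' he'
      constructor
      · intro hh _
        refine (hh (hf false)).tail ?_
        exact Or.inr ⟨e', false, rfl, rfl⟩
      · intro hh _
        refine (hh (hf true)).tail ?_
        exact Or.inr ⟨e', true, rfl, rfl⟩
  have hsymR : ∀ a b, Relation.ReflTransGen r a b → Relation.ReflTransGen r b a := by
    intro a b hab
    induction hab with
    | refl => exact Relation.ReflTransGen.refl
    | tail _ hbc ih => exact Relation.ReflTransGen.head (hsym _ _ hbc) ih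
  have h2 : Relation.ReflTransGen r ⟨(D.ept e false, false), hm false⟩
      ⟨(D.ept e true, true), hm true⟩ :=
    Relation.ReflTransGen.single (Or.inr ⟨e, false, rfl, rfl⟩)
  have h3 : ∀ a : s, Relation.ReflTransGen r ⟨(D.ept e false, false), hm false⟩ a := by
    rintro ⟨⟨v, b⟩, hv⟩
    cases b with
    | false => exact h1 false v hv
    | true => exact h2.trans (h1 true v hv)
  have hc : ∀ a b, Relation.ReflTransGen r a b := fun a b => (hsymR _ _ (h3 a)).trans (h3 b)
  obtain ⟨L, w, w0, wL, wr, wc⟩ := exists_cover_walk r hr hc ⟨(D.ept e false, false), hm false⟩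
    ⟨(D.ept e true, true), hm true⟩
  refine ⟨(L, fun i => (w i).1), ⟨?_, ?_, ?_, ?_, ?_⟩⟩
  · simp [w0]
  · simp [wL]
  · intro i
    exact wr i
  · intro i
    exact (w i).2
  · intro b v hv
    obtain ⟨i, hi, hx⟩ := wc ⟨(v, b), hv⟩
    exact ⟨i, hi, by simp [hx]⟩

noncomputable def walk (D : Dat) (e : D.E) : ℕ × (ℕ → D.V × Bool) :=
  @Classical.epsilon _ ⟨(0, fun _ => (D.ept e false, false))⟩ (GoodWalk D e)

theorem walk_spec {n : ℕ} {D : Dat} (h : Inv n D) (e : D.E) : GoodWalk D e (walk D e) :=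
  @Classical.epsilon_spec_aux _ ⟨(0, fun _ => (D.ept e false, false))⟩ (GoodWalk D e)
    (exists_goodWalk h e)

/-- number of interior vertices of a path. -/
noncomputable def NN (D : Dat) (e : D.E) : ℕ := 2 * (walk D e).1 + 2

/-- the vertex (with its tag) over which the `j`-th interior vertex lies. -/
noncomputable def pos (D : Dat) (e : D.E) (j : ℕ) : D.V × Bool := (walk D e).2 (j / 2)

theorem pos_zero {n : ℕ} {D : Dat} (h : Inv n D) (e : D.E) :
    pos D e 0 = (D.ept e false, false) := (walk_spec h e).h0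

theorem pos_last {n : ℕ} {D : Dat} (h : Inv n D) (e : D.E) :
    pos D e (NN D e - 1) = (D.ept e true, true) := by
  have h1 := (walk_spec h e).hL
  have h2 : (NN D e - 1) / 2 = (walk D e).1 := by
    unfold NN; omega
  unfold pos
  rw [h2, h1]

theorem pos_mem {n : ℕ} {D : Dat} (h : Inv n D) (e : D.E) (j : ℕ) :
    (pos D e j).1 ∈ (D.mem e (pos D e j).2).vs := (walk_spec h e).inMem _

theorem pos_adj {n : ℕ} {D : Dat} (h : Inv n D) (e : D.E) (j : ℕ) :
    D.adj (pos D e j).1 (pos D e (j + 1)).1 := by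
  unfold pos
  by_cases hj : j / 2 = (j + 1) / 2
  · rw [hj]; exact D.adj_refl _
  · have : (j + 1) / 2 = j / 2 + 1 := by omega
    rw [this]
    exact (walk_spec h e).step _

theorem pos_cover {n : ℕ} {D : Dat} (h : Inv n D) (e : D.E) (b : Bool) (v : D.V)
    (hv : v ∈ (D.mem e b).vs) : ∃ j < NN D e, pos D e j = (v, b) := by
  obtain ⟨i, hi, hx⟩ := (walk_spec h e).cover b v hv
  refine ⟨2 * i, by unfold NN; omega, ?_⟩
  unfold pos
  rw [Nat.mul_div_cancel_left _ (by norm_num), hx]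

end Pool.Agent.Helper82.TL
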