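import Pool.Agent.Helper82.TL1

set_option autoImplicit false

namespace Pool.Agent.Helper82.TL

open Set

/-! Part 2: the next stage. -/

/-- lanes of an edge: a fat choice of child labels for the memory at each end. -/
def Lane (n : ℕ) (D : Dat) (e : D.E) : Type :=
  {c : Bool → Set Lbl // ∀ b, Fat n (D.mem e b).bt (D.mem e b).ts (c b)}

abbrev VV (n : ℕ) (D : Dat) : Type :=
  (D.V × Fin (ell n)) ⊕ (Σ e : D.E, Lane n D e × Fin (NN D e))

abbrev EE (n : ℕ) (D : Dat) : Type :=
  (D.V × Fin (ell n) × Fin (ell n)) ⊕ (Σ e : D.E, Lane n D e × Fin (NN D e + 1))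

section
variable (n : ℕ) (D : Dat)

noncomputable def endCore (e : D.E) (c : Lane n D e) (b : Bool) : VV n D :=
  Sum.inl (D.ept e b, lt n (c.1 b) (D.lab (D.ept e b)))

noncomputable def pt (e : D.E) (c : Lane n D e) : ℕ → VV n D
  | 0 => endCore n D e c false
  | j + 1 => if h : j < NN D e then Sum.inr ⟨e, c, ⟨j, h⟩⟩ else endCore n D e c true

noncomputable def eptN : EE n D → Bool → VV n D
  | Sum.inl (v, i, _), false => Sum.inl (v, i)
  | Sum.inl (v, _, i'), true => Sum.inl (v, i')
  | Sum.inr ⟨e, c, k⟩, false => pt n D e c k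
  | Sum.inr ⟨e, c, k⟩, true => pt n D e c (k + 1)

noncomputable def labN : VV n D → Lbl
  | Sum.inl (v, i) => (i : ℕ) :: D.lab v
  | Sum.inr ⟨e, c, j⟩ =>
    ((lt n (c.1 (pos D e j).2) (D.lab (pos D e j).1) : Fin (ell n)) : ℕ) :: D.lab (pos D e j).1

noncomputable def fm : VV n D → D.V
  | Sum.inl (v, _) => v
  | Sum.inr ⟨e, _, j⟩ => (pos D e j).1

def plus (H : Mem D.V D.E) (ρ : Set Lbl) : Mem (VV n D) (EE n D) where
  vs := {x | match x with
    | Sum.inl (v, i) => v ∈ H.vs ∧ (i : ℕ) :: D.lab v ∈ ρ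
    | Sum.inr ⟨e, c, _⟩ => e ∈ H.es ∧ ∀ b, c.1 b ⊆ ρ}
  es := {x | match x with
    | Sum.inl (v, i, i') => v ∈ H.vs ∧ (i : ℕ) :: D.lab v ∈ ρ ∧ (i' : ℕ) :: D.lab v ∈ ρ
    | Sum.inr ⟨e, c, _⟩ => e ∈ H.es ∧ ∀ b, c.1 b ⊆ ρ}
  ts := ρ
  bt := H.bt

noncomputable def fresh (x : VV n D) : Mem (VV n D) (EE n D) where
  vs := {x}
  es := ∅
  ts := {labN n D x}
  bt := n + 1

/-- index of the path edge at end `b`. -/
noncomputable def kend (e : D.E) (b : Bool) : ℕ := if b then NN D e else 0

open Classical in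
noncomputable def memN : EE n D → Bool → Mem (VV n D) (EE n D)
  | Sum.inl s, b => fresh n D (eptN n D (Sum.inl s) b)
  | Sum.inr ⟨e, c, k⟩, b =>
    if (k : ℕ) = kend D e b then plus n D (D.mem e b) (c.1 b)
    else fresh n D (eptN n D (Sum.inr ⟨e, c, k⟩) b)

noncomputable def next : Dat where
  V := VV n D
  E := EE n D
  ept := eptN n D
  lab := labN n D
  mem := memN n D

end

section basic
variable {n : ℕ} {D : Dat}

theorem NN_pos (e : D.E) : 2 ≤ NN D e := by unfold NN; omega

theorem pt_int (e : D.E) (c : Lane n D e) {j : ℕ} (h : j < NN D e) :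
    pt n D e c (j + 1) = Sum.inr ⟨e, c, ⟨j, h⟩⟩ := by
  simp [pt, h]

theorem pt_zero (e : D.E) (c : Lane n D e) : pt n D e c 0 = endCore n D e c false := rfl

theorem pt_last (e : D.E) (c : Lane n D e) :
    pt n D e c (NN D e + 1) = endCore n D e c true := by
  simp [pt]

theorem pt_eq_inr {e : D.E} {c : Lane n D e} {k : ℕ} {s : Σ e : D.E, Lane n D e × Fin (NN D e)}
    (h : pt n D e c k = Sum.inr s) : ∃ j, ∃ hj : j < NN D e, k = j + 1 ∧ s = ⟨e, c, ⟨j, hj⟩⟩ := by
  cases k with
  | zero => simp [pt, endCore] at h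
  | succ j =>
    by_cases hj : j < NN D e
    · rw [pt_int e c hj] at h
      exact ⟨j, hj, rfl, (Sum.inr.inj h).symm⟩
    · simp [pt, hj, endCore] at h

theorem pt_eq_inl {e : D.E} {c : Lane n D e} {k : ℕ} {s : D.V × Fin (ell n)}
    (h : pt n D e c k = Sum.inl s) (hk : k ≤ NN D e + 1) :
    ∃ b : Bool, k = (if b then NN D e + 1 else 0) ∧
      s = (D.ept e b, lt n (c.1 b) (D.lab (D.ept e b))) := by
  cases k with
  | zero => exact ⟨false, by simp, by simpa [pt, endCore] using h.symm⟩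
  | succ j =>
    by_cases hj : j < NN D e
    · rw [pt_int e c hj] at h
      simp at h
    · refine ⟨true, ?_, by simpa [pt, endCore, hj] using h.symm⟩
      simp; omega

theorem fm_pt_zero (e : D.E) (c : Lane n D e) : fm n D (pt n D e c 0) = D.ept e false := rfl

theorem fm_pt_last (e : D.E) (c : Lane n D e) :
    fm n D (pt n D e c (NN D e + 1)) = D.ept e true := by
  rw [pt_last]; rfl

theorem fm_pt_int (e : D.E) (c : Lane n D e) {j : ℕ} (h : j < NN D e) :
    fm n D (pt n D e c (j + 1)) = (pos D e j).1 := by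
  rw [pt_int e c h]; rfl

theorem eptN_false (e : D.E) (c : Lane n D e) (k : Fin (NN D e + 1)) :
    eptN n D (Sum.inr ⟨e, c, k⟩) false = pt n D e c k := rfl

theorem eptN_true (e : D.E) (c : Lane n D e) (k : Fin (NN D e + 1)) :
    eptN n D (Sum.inr ⟨e, c, k⟩) true = pt n D e c (k + 1) := rfl

/-- consecutive points of a path lie over adjacent vertices -/
theorem fm_pt_adj (h : Inv n D) (e : D.E) (c : Lane n D e) {k : ℕ} (hk : k ≤ NN D e) :
    D.adj (fm n D (pt n D e c k)) (fm n D (pt n D e c (k + 1))) := by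
  have hN := NN_pos e
  rcases Nat.eq_zero_or_pos k with rfl | hk0
  · rw [fm_pt_zero, fm_pt_int e c (by omega), pos_zero h]
    exact D.adj_refl _
  · obtain ⟨j, rfl⟩ : ∃ j, k = j + 1 := ⟨k - 1, by omega⟩
    rw [fm_pt_int e c (by omega)]
    by_cases hj : j + 1 < NN D e
    · rw [fm_pt_int e c hj]
      exact pos_adj h e j
    · have : j + 1 = NN D e := by omega
      rw [this, fm_pt_last]
      have h2 : j = NN D e - 1 := by omega
      rw [h2, pos_last h]
      exact D.adj_refl _

theorem adj_cases {x y : VV n D} (h : (next n D).adj x y) :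
    x = y ∨ (∃ v i i', x = Sum.inl (v, i) ∧ y = Sum.inl (v, i')) ∨
      ∃ (e : D.E) (c : Lane n D e) (k : ℕ), k ≤ NN D e ∧
        ((x = pt n D e c k ∧ y = pt n D e c (k + 1)) ∨
         (y = pt n D e c k ∧ x = pt n D e c (k + 1))) := by
  rcases h with h | ⟨ε, b, h1, h2⟩
  · exact Or.inl h
  · right
    rcases ε with ⟨v, i, i'⟩ | ⟨e, c, k⟩
    · left
      cases b with
      | false => exact ⟨v, i, i', h1.symm, h2.symm⟩
      | true => exact ⟨v, i', i, h1.symm, h2.symm⟩
    · right
      have hk : (k : ℕ) ≤ NN D e := Nat.lt_succ_iff.mp k.2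
      cases b with
      | false => exact ⟨e, c, k, hk, Or.inl ⟨h1.symm, h2.symm⟩⟩
      | true => exact ⟨e, c, k, hk, Or.inr ⟨h2.symm, h1.symm⟩⟩

theorem adj_fm (h : Inv n D) {x y : VV n D} (hxy : (next n D).adj x y) :
    D.adj (fm n D x) (fm n D y) := by
  rcases adj_cases hxy with rfl | ⟨v, i, i', rfl, rfl⟩ | ⟨e, c, k, hk, ⟨rfl, rfl⟩ | ⟨rfl, rfl⟩⟩
  · exact D.adj_refl _
  · exact D.adj_refl _
  · exact fm_pt_adj h e c hk
  · exact D.adj_symm (fm_pt_adj h e c hk)

theorem adj_int {e : D.E} {c : Lane n D e} {j : ℕ} (hj : j < NN D e) {y : VV n D}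
    (hy : (next n D).adj (pt n D e c (j + 1)) y) :
    y = pt n D e c (j + 1) ∨ y = pt n D e c j ∨ y = pt n D e c (j + 2) := by
  rcases adj_cases hy with h | ⟨v, i, i', h, _⟩ | ⟨e', c', k, hk, ⟨h1, h2⟩ | ⟨h2, h1⟩⟩
  · exact Or.inl h.symm
  · rw [pt_int e c hj] at h; simp at h
  · rw [pt_int e c hj] at h1
    obtain ⟨j', hj', hk', hs⟩ := pt_eq_inr h1.symm
    cases hs
    right; right
    rw [h2, hk']
  · rw [pt_int e c hj] at h1
    obtain ⟨j', hj', hk', hs⟩ := pt_eq_inr h1.symm
    cases hs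
    right; left
    rw [h2]
    congr 1
    omega

theorem adj_core {v v' : D.V} {i i' : Fin (ell n)}
    (h : (next n D).adj (Sum.inl (v, i) : VV n D) (Sum.inl (v', i') : VV n D)) : v = v' := by
  rcases adj_cases h with h | ⟨v1, i1, i2, h1, h2⟩ | ⟨e', c', k, hk, ⟨h1, h2⟩ | ⟨h2, h1⟩⟩
  · simp at h; exact h.1
  · simp at h1 h2
    rw [h1.1, h2.1]
  · obtain ⟨b, hb, _⟩ := pt_eq_inl h1.symm (by omega)
    obtain ⟨b', hb', _⟩ := pt_eq_inl h2.symm (by omega)
    have := NN_pos e'
    cases b <;> cases b' <;> simp at hb hb' <;> omega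
  · obtain ⟨b, hb, _⟩ := pt_eq_inl h1.symm (by omega)
    obtain ⟨b', hb', _⟩ := pt_eq_inl h2.symm (by omega)
    have := NN_pos e'
    cases b <;> cases b' <;> simp at hb hb' <;> omega

theorem adj_core_fm (h : Inv n D) {v : D.V} {i : Fin (ell n)} {y : VV n D}
    (hy : (next n D).adj (Sum.inl (v, i) : VV n D) y) : fm n D y = v := by
  have hN : ∀ e, 2 ≤ NN D e := fun e => NN_pos e
  rcases adj_cases hy with h1 | ⟨v1, i1, i2, h1, h2⟩ | ⟨e', c', k, hk, ⟨h1, h2⟩ | ⟨h2, h1⟩⟩
  · rw [← h1]; rfl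
  · simp at h1
    rw [h2, h1.1]; rfl
  · obtain ⟨b, hb, hs⟩ := pt_eq_inl h1.symm (by omega)
    have := hN e'
    cases b with
    | true => simp at hb; omega
    | false =>
      simp at hb
      subst hb
      rw [h2, fm_pt_int e' c' (by omega), pos_zero h]
      exact (congrArg Prod.fst hs).symm
  · obtain ⟨b, hb, hs⟩ := pt_eq_inl h1.symm (by omega)
    have := hN e'
    cases b with
    | false => simp at hb
    | true =>
      simp at hb
      obtain ⟨j, rfl⟩ : ∃ j, k = j + 1 := ⟨k - 1, by omega⟩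
      rw [h2, fm_pt_int e' c' (by omega)]
      have h2 : j = NN D e' - 1 := by omega
      rw [h2, pos_last h]
      exact (congrArg Prod.fst hs).symm

/-- a vertex has at most one neighbour lying over a different vertex. -/
theorem moving_unique (h : Inv n D) {x y z : VV n D} (hy : (next n D).adj x y)
    (hz : (next n D).adj x z) (hy' : fm n D y ≠ fm n D x) (hz' : fm n D z ≠ fm n D x) :
    y = z := by
  rcases x with ⟨v, i⟩ | ⟨e, c, ⟨j, hj⟩⟩
  · exact absurd (adj_core_fm h hy) hy'
  · have hN := NN_pos e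
    have key : ∀ u : VV n D, (next n D).adj (Sum.inr ⟨e, c, ⟨j, hj⟩⟩) u →
        fm n D u ≠ fm n D (Sum.inr ⟨e, c, ⟨j, hj⟩⟩) →
        u = if Even j then pt n D e c j else pt n D e c (j + 2) := by
      intro u hu hu'
      rw [← pt_int e c hj] at hu hu'
      rcases adj_int hj hu with h1 | h1 | h1
      · exact absurd (by rw [h1]) hu'
      · by_cases hev : Even j
        · rw [if_pos hev]; exact h1
        · exfalso
          apply hu'
          rw [h1]
          obtain ⟨j', rfl⟩ : ∃ j', j = j' + 1 := by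
            rcases j with _ | j'
            · simp at hev
            · exact ⟨j', rfl⟩
          rw [fm_pt_int e c hj, fm_pt_int e c (by omega)]
          unfold pos
          have : j' / 2 = (j' + 1) / 2 := by
            rw [Nat.even_iff] at hev
            omega
          rw [this]
      · by_cases hev : Even j
        · exfalso
          apply hu'
          rw [h1]
          have hj2 : j + 1 < NN D e := by
            rw [Nat.even_iff] at hev
            have : NN D e % 2 = 0 := by unfold NN; omega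
            omega
          rw [fm_pt_int e c hj, fm_pt_int e c hj2]
          unfold pos
          have : (j + 1) / 2 = j / 2 := by
            rw [Nat.even_iff] at hev
            omega
          rw [this]
        · rw [if_neg hev]; exact h1
    rw [key y hy hy', key z hz hz']

end basic

/-! ### memory lemmas -/

section memory
variable {n : ℕ} {D : Dat}

theorem memN_core (s : D.V × Fin (ell n) × Fin (ell n)) (b : Bool) :
    memN n D (Sum.inl s) b = fresh n D (eptN n D (Sum.inl s) b) := by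
  simp [memN]

theorem memN_pers (e : D.E) (c : Lane n D e) (k : Fin (NN D e + 1)) (b : Bool)
    (h : (k : ℕ) = kend D e b) :
    memN n D (Sum.inr ⟨e, c, k⟩) b = plus n D (D.mem e b) (c.1 b) := by
  simp [memN, h]

theorem memN_fresh (e : D.E) (c : Lane n D e) (k : Fin (NN D e + 1)) (b : Bool)
    (h : (k : ℕ) ≠ kend D e b) :
    memN n D (Sum.inr ⟨e, c, k⟩) b = fresh n D (eptN n D (Sum.inr ⟨e, c, k⟩) b) := by
  simp [memN, h]

theorem plus_mono {H H' : Mem D.V D.E} {ρ ρ' : Set Lbl} (h : H.Le H') (hρ : ρ ⊆ ρ') :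
    (plus n D H ρ).Le (plus n D H' ρ') := by
  refine ⟨?_, ?_, hρ, h.bt⟩
  · rintro (⟨v, i⟩ | ⟨e, c, j⟩) hx
    · exact ⟨h.vs hx.1, hρ hx.2⟩
    · exact ⟨h.es hx.1, fun b => (hx.2 b).trans hρ⟩
  · rintro (⟨v, i, i'⟩ | ⟨e, c, j⟩) hx
    · exact ⟨h.vs hx.1, hρ hx.2.1, hρ hx.2.2⟩
    · exact ⟨h.es hx.1, fun b => (hx.2 b).trans hρ⟩

theorem plus_lab (hI : Inv n D) {H : Mem D.V D.E} {ρ : Set Lbl} {x : VV n D}
    (hx : x ∈ (plus n D H ρ).vs) : labN n D x ∈ ρ := by
  rcases x with ⟨v, i⟩ | ⟨e, c, j⟩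
  · exact hx.2
  · have h1 := pos_mem hI e j
    have h2 := (hI.sub e (pos D e j).2).lab_mem _ h1
    exact hx.2 _ (lt_spec (c.2 _) (hI.bt_le _ _) h2)

theorem endCore_mem (hI : Inv n D) {H : Mem D.V D.E} {ρ : Set Lbl} (hH : SubG D H)
    {e : D.E} {c : Lane n D e} (he : e ∈ H.es) (hc : ∀ b, c.1 b ⊆ ρ) (b : Bool) :
    endCore n D e c b ∈ (plus n D H ρ).vs := by
  have h1 := hI.ept_mem e b
  have h2 := (hI.sub e b).lab_mem _ h1
  exact ⟨(hH.mem_le e he b).vs h1, hc b (lt_spec (c.2 b) (hI.bt_le _ _) h2)⟩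

theorem pt_mem (hI : Inv n D) {H : Mem D.V D.E} {ρ : Set Lbl} (hH : SubG D H)
    {e : D.E} {c : Lane n D e} (he : e ∈ H.es) (hc : ∀ b, c.1 b ⊆ ρ) (k : ℕ) :
    pt n D e c k ∈ (plus n D H ρ).vs := by
  cases k with
  | zero => exact endCore_mem hI hH he hc false
  | succ j =>
    by_cases hj : j < NN D e
    · rw [pt_int e c hj]; exact ⟨he, hc⟩
    · have : pt n D e c (j + 1) = endCore n D e c true := by simp [pt, hj]
      rw [this]
      exact endCore_mem hI hH he hc true

theorem eptN_path (e : D.E) (c : Lane n D e) (k : Fin (NN D e + 1)) (b : Bool) :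
    ∃ j, eptN n D (Sum.inr ⟨e, c, k⟩) b = pt n D e c j := by
  cases b with
  | false => exact ⟨k, rfl⟩
  | true => exact ⟨k + 1, rfl⟩

/-- the canonical lane inside a fat set. -/
def restrLane {H : Mem D.V D.E} {ρ : Set Lbl} (hH : SubG D H)
    (hρ : Fat n H.bt H.ts ρ) (e : D.E) (he : e ∈ H.es) : Lane n D e :=
  ⟨fun b => {x | x ∈ ρ ∧ ∃ i : Fin (ell n), ∃ t ∈ (D.mem e b).ts, x = (i : ℕ) :: t}, fun b =>
    { sub := fun _ hx => hx.2
      big := by
        intro t ht
        have h1 := hρ.big t ((hH.mem_le e he b).ts ht)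
        have h2 : {i : Fin (ell n) | (i : ℕ) :: t ∉ {x | x ∈ ρ ∧ ∃ i : Fin (ell n),
            ∃ t ∈ (D.mem e b).ts, x = (i : ℕ) :: t}} ⊆ {i : Fin (ell n) | (i : ℕ) :: t ∉ ρ} := by
          intro i hi hi'
          exact hi ⟨hi', i, t, ht, rfl⟩
        exact (Set.ncard_le_ncard h2 (Set.toFinite _)).trans
          (h1.trans (Nat.pow_le_pow_right (by norm_num) (hH.mem_le e he b).bt)) }⟩

theorem restrLane_sub {H : Mem D.V D.E} {ρ : Set Lbl} (hH : SubG D H)
    (hρ : Fat n H.bt H.ts ρ) (e : D.E) (he : e ∈ H.es) (b : Bool) :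
    (restrLane hH hρ e he).1 b ⊆ ρ := fun _ hx => hx.1

theorem plus_sub (hI : Inv n D) {H : Mem D.V D.E} {ρ : Set Lbl} (hH : SubG D H)
    (hρ : Fat n H.bt H.ts ρ) (hb : H.bt ≤ n) : SubG (next n D) (plus n D H ρ) := by
  have hept : ∀ e ∈ (plus n D H ρ).es, ∀ b, eptN n D e b ∈ (plus n D H ρ).vs := by
    rintro (⟨v, i, i'⟩ | ⟨e, c, k⟩) he b
    · cases b with
      | false => exact ⟨he.1, he.2.1⟩
      | true => exact ⟨he.1, he.2.2⟩
    · obtain ⟨j, hj⟩ := eptN_path e c k b
      rw [hj]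
      exact pt_mem hI hH he.1 he.2 j
  have hfr : ∀ x ∈ (plus n D H ρ).vs, (fresh n D x).Le (plus n D H ρ) := by
    intro x hx
    refine ⟨?_, ?_, ?_, ?_⟩
    · intro y hy
      rw [show y = x from hy]; exact hx
    · intro y hy
      exact absurd hy (by simp [fresh])
    · intro y hy
      rw [show y = labN n D x from hy]
      exact plus_lab hI hx
    · show H.bt ≤ n + 1
      omega
  refine ⟨hept, ?_, ?_, ?_⟩
  · intro ε he b
    rcases ε with s | ⟨e, c, k⟩
    · show (memN n D (Sum.inl s) b).Le _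
      rw [memN_core]
      exact hfr _ (hept _ he b)
    · show (memN n D (Sum.inr ⟨e, c, k⟩) b).Le _
      by_cases hk : (k : ℕ) = kend D e b
      · rw [memN_pers e c k b hk]
        exact plus_mono (hH.mem_le e he.1 b) (he.2 b)
      · rw [memN_fresh e c k b hk]
        exact hfr _ (hept _ he b)
  · intro x hx
    exact plus_lab hI hx
  · intro P hP u hu v hv hPu
    -- all core vertices over one vertex agree
    have h1 : ∀ v ∈ H.vs, ∀ i i' : Fin (ell n), (i : ℕ) :: D.lab v ∈ ρ → (i' : ℕ) :: D.lab v ∈ ρ →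
        (P (Sum.inl (v, i) : VV n D) ↔ P (Sum.inl (v, i') : VV n D)) := by
      intro v hv i i' hi hi'
      exact hP (Sum.inl (v, i, i') : EE n D) ⟨hv, hi, hi'⟩
    -- all points of one path agree
    have h2 : ∀ e ∈ H.es, ∀ c : Lane n D e, (∀ b, c.1 b ⊆ ρ) → ∀ k ≤ NN D e + 1,
        (P (pt n D e c 0) ↔ P (pt n D e c k)) := by
      intro e he c hc k
      induction k with
      | zero => intro _; exact Iff.rfl
      | succ k ih =>
        intro hk
        refine (ih (by omega)).trans ?_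
        exact hP (Sum.inr ⟨e, c, ⟨k, by omega⟩⟩ : EE n D) ⟨he, hc⟩
    let Q : D.V → Prop := fun v => P (Sum.inl (v, lt n ρ (D.lab v)) : VV n D)
    have hQ : ∀ v ∈ H.vs, ∀ i : Fin (ell n), (i : ℕ) :: D.lab v ∈ ρ →
        (P (Sum.inl (v, i) : VV n D) ↔ Q v) := by
      intro v hv i hi
      exact h1 v hv i _ hi (lt_spec hρ hb (hH.lab_mem v hv))
    have h3 : ∀ e ∈ H.es, (Q (D.ept e false) ↔ Q (D.ept e true)) := by
      intro e he
      set c := restrLane hH hρ e he with hcdef
      have hc : ∀ b, c.1 b ⊆ ρ := restrLane_sub hH hρ e he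
      have h4 := h2 e he c hc (NN D e + 1) le_rfl
      rw [pt_last, pt_zero] at h4
      have h5 := endCore_mem hI hH he hc false
      have h6 := endCore_mem hI hH he hc true
      have h7 := hQ (D.ept e false) h5.1 _ h5.2
      have h8 := hQ (D.ept e true) h6.1 _ h6.2
      exact h7.symm.trans (h4.trans h8)
    have h4 := hH.conn Q h3
    -- every vertex agrees with Q of some vertex
    have h5 : ∀ x ∈ (plus n D H ρ).vs, ∃ v ∈ H.vs, (P x ↔ Q v) := by
      rintro (⟨v, i⟩ | ⟨e, c, ⟨j, hj⟩⟩) hx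
      · exact ⟨v, hx.1, hQ v hx.1 i hx.2⟩
      · have h6 := endCore_mem hI hH hx.1 hx.2 false
        refine ⟨D.ept e false, h6.1, ?_⟩
        have h7 := h2 e hx.1 c hx.2 (j + 1) (by omega)
        rw [pt_int e c hj, pt_zero] at h7
        exact h7.symm.trans (hQ (D.ept e false) h6.1 _ h6.2)
    obtain ⟨u', hu', hu''⟩ := h5 u hu
    obtain ⟨v', hv', hv''⟩ := h5 v hv
    exact hv''.mpr (h4 u' hu' v' hv' (hu''.mp hPu))

theorem fm_plus (hI : Inv n D) {H : Mem D.V D.E} {ρ : Set Lbl} (hH : SubG D H) {x : VV n D}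
    (hx : x ∈ (plus n D H ρ).vs) : fm n D x ∈ H.vs := by
  rcases x with ⟨v, i⟩ | ⟨e, c, j⟩
  · exact hx.1
  · exact (hH.mem_le e hx.1 _).vs (pos_mem hI e j)

theorem fm_plus_surj {H : Mem D.V D.E} {ρ : Set Lbl} (hH : SubG D H)
    (hρ : Fat n H.bt H.ts ρ) (hb : H.bt ≤ n) {v : D.V} (hv : v ∈ H.vs) :
    ∃ x ∈ (plus n D H ρ).vs, fm n D x = v :=
  ⟨Sum.inl (v, lt n ρ (D.lab v)), ⟨hv, lt_spec hρ hb (hH.lab_mem v hv)⟩, rfl⟩

theorem fresh_sub (x : VV n D) : SubG (next n D) (fresh n D x) := by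
  refine ⟨?_, ?_, ?_, ?_⟩
  · intro e he; exact False.elim he
  · intro e he; exact False.elim he
  · intro v hv
    rw [show v = x from hv]
    rfl
  · intro P _ u hu v hv hPu
    rw [show v = x from hv, ← show u = x from hu]
    exact hPu

end memory

/-! ### invariants pass to the next stage -/

section inv
variable {n : ℕ} {D : Dat}

theorem finite_lane (hI : Inv n D) (e : D.E) : Finite (Lane n D e) := by
  -- each component lives in the finite set of all child labels
  let U : Set Lbl := {x | ∃ b : Bool, ∃ i : Fin (ell n), ∃ t ∈ (D.mem e b).ts, x = (i : ℕ) :: t}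
  have hU : U.Finite := by
    have h1 : U ⊆ ⋃ b : Bool, ⋃ i : Fin (ell n), (fun t => (i : ℕ) :: t) '' (D.mem e b).ts := by
      rintro x ⟨b, i, t, ht, rfl⟩
      simp only [mem_iUnion]
      exact ⟨b, i, t, ht, rfl⟩
    refine Set.Finite.subset ?_ h1
    refine Set.finite_iUnion (fun b => Set.finite_iUnion (fun i => ?_))
    exact (hI.finT e b).image _
  have h2 : Finite {s : Set Lbl // s ⊆ U} := hU.finite_subsets.to_subtype
  let g : Lane n D e → (Bool → {s : Set Lbl // s ⊆ U}) := fun c b =>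
    ⟨c.1 b, fun x hx => by
      obtain ⟨i, t, ht, rfl⟩ := (c.2 b).sub x hx
      exact ⟨b, i, t, ht, rfl⟩⟩
  refine Finite.of_injective g ?_
  intro c c' hcc
  apply Subtype.ext
  funext b
  have := congrFun hcc b
  exact congrArg Subtype.val this

theorem inv_next (hI : Inv n D) : Inv (n + 1) (next n D) := by
  have h1 := hI.finV
  have h2 := hI.finE
  have h3 := hI.neV
  have h4 := fun e => finite_lane hI e
  refine ⟨?_, ?_, ?_, ?_, ?_, ?_, ?_, ?_⟩
  · show Finite (VV n D)
    infer_instance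
  · show Finite (EE n D)
    infer_instance
  · show Nonempty (VV n D)
    exact ⟨Sum.inl (Classical.arbitrary _, Classical.arbitrary _)⟩
  · intro ε b
    show SubG (next n D) (memN n D ε b)
    rcases ε with s | ⟨e, c, k⟩
    · rw [memN_core]; exact fresh_sub _
    · by_cases hk : (k : ℕ) = kend D e b
      · rw [memN_pers e c k b hk]
        exact plus_sub hI (hI.sub e b) (c.2 b) (hI.bt_le e b)
      · rw [memN_fresh e c k b hk]
        exact fresh_sub _
  · intro ε b
    show eptN n D ε b ∈ (memN n D ε b).vs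
    rcases ε with s | ⟨e, c, k⟩
    · rw [memN_core]; rfl
    · by_cases hk : (k : ℕ) = kend D e b
      · rw [memN_pers e c k b hk]
        have h5 : eptN n D (Sum.inr ⟨e, c, k⟩) b = endCore n D e c b := by
          cases b with
          | false =>
            simp [kend] at hk
            rw [eptN_false, hk]; rfl
          | true =>
            simp [kend] at hk
            rw [eptN_true, hk, pt_last]
        rw [h5]
        exact ⟨hI.ept_mem e b, lt_spec (c.2 b) (hI.bt_le _ _)
          ((hI.sub e b).lab_mem _ (hI.ept_mem e b))⟩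
      · rw [memN_fresh e c k b hk]
        rfl
  · intro ε b
    show (memN n D ε b).bt ≤ n + 1
    rcases ε with s | ⟨e, c, k⟩
    · rw [memN_core]; exact le_rfl
    · by_cases hk : (k : ℕ) = kend D e b
      · rw [memN_pers e c k b hk]
        have := hI.bt_le e b
        show (D.mem e b).bt ≤ n + 1
        omega
      · rw [memN_fresh e c k b hk]
        exact le_rfl
  · intro ε b ε' hε' b'
    show (memN n D ε b).bt < (memN n D ε' b').bt
    rcases ε with s | ⟨e, c, k⟩
    · have h5 : ε' ∈ (memN n D (Sum.inl s) b).es := hε'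
      rw [memN_core] at h5
      exact False.elim h5
    · have h5 : ε' ∈ (memN n D (Sum.inr ⟨e, c, k⟩) b).es := hε'
      by_cases hk : (k : ℕ) = kend D e b
      · rw [memN_pers e c k b hk] at h5 ⊢
        show (D.mem e b).bt < _
        have h6 := hI.bt_le e b
        rcases ε' with s' | ⟨e', c', k'⟩
        · rw [memN_core]
          show _ < n + 1
          omega
        · by_cases hk' : (k' : ℕ) = kend D e' b'
          · rw [memN_pers e' c' k' b' hk']
            exact hI.bt_lt e b e' h5.1 b'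
          · rw [memN_fresh e' c' k' b' hk']
            show _ < n + 1
            omega
      · rw [memN_fresh e c k b hk] at h5
        exact False.elim h5
  · intro ε b
    show (memN n D ε b).ts.Finite
    rcases ε with s | ⟨e, c, k⟩
    · rw [memN_core]; exact Set.finite_singleton _
    · by_cases hk : (k : ℕ) = kend D e b
      · rw [memN_pers e c k b hk]
        show (c.1 b).Finite
        have h5 : c.1 b ⊆ ⋃ i : Fin (ell n), (fun t => (i : ℕ) :: t) '' (D.mem e b).ts := by
          intro x hx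
          obtain ⟨i, t, ht, rfl⟩ := (c.2 b).sub x hx
          simp only [mem_iUnion]
          exact ⟨i, t, ht, rfl⟩
        refine Set.Finite.subset (Set.finite_iUnion (fun i => ?_)) h5
        exact (hI.finT e b).image _
      · rw [memN_fresh e c k b hk]
        exact Set.finite_singleton _

end inv

end Pool.Agent.Helper82.TL
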