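import Pool.Agent.Helper82.TL2

set_option autoImplicit false

namespace Pool.Agent.Helper82.TL

open Set

/-! Part 3: generation maps. -/

abbrev Dat.Ob (D : Dat) : Type := D.V ⊕ D.E

def gen {n : ℕ} {D : Dat} : (VV n D) ⊕ (EE n D) → D.Ob
  | Sum.inl (Sum.inl (v, _)) => Sum.inl v
  | Sum.inl (Sum.inr ⟨e, _⟩) => Sum.inr e
  | Sum.inr (Sum.inl (v, _)) => Sum.inl v
  | Sum.inr (Sum.inr ⟨e, _⟩) => Sum.inr e

def Dat.Rel (D : Dat) (a o : D.Ob) : Prop :=
  a = o ∨ ∃ e b, o = Sum.inr e ∧ a ∈ (D.mem e b).ob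

section gen
variable {n : ℕ} {D : Dat}

theorem gen_plus {H : Mem D.V D.E} {ρ : Set Lbl} {o : (VV n D) ⊕ (EE n D)}
    (ho : o ∈ (plus n D H ρ).ob) : gen o ∈ H.ob := by
  rcases o with (⟨v, i⟩ | ⟨e, c, j⟩) | (⟨v, i, i'⟩ | ⟨e, c, k⟩)
  · exact ho.1
  · exact ho.1
  · exact ho.1
  · exact ho.1

theorem mem_fresh_ob {x : VV n D} {o : (VV n D) ⊕ (EE n D)} (ho : o ∈ (fresh n D x).ob) :
    o = Sum.inl x := by
  rcases o with v | e
  · exact congrArg _ ho
  · exact False.elim ho

theorem kend_lt (e : D.E) (b : Bool) : kend D e b < NN D e + 1 := by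
  unfold kend; split_ifs <;> omega

theorem kend_ne (e : D.E) (b : Bool) : kend D e b ≠ kend D e (!b) := by
  have := NN_pos e
  unfold kend; cases b <;> simp <;> omega

/-- the persistent edge -/
noncomputable def pe (e : D.E) (c : Lane n D e) (b : Bool) : EE n D :=
  Sum.inr ⟨e, c, ⟨kend D e b, kend_lt e b⟩⟩

theorem eptN_end (e : D.E) (c : Lane n D e) (k : Fin (NN D e + 1)) (b : Bool)
    (hk : (k : ℕ) = kend D e b) : eptN n D (Sum.inr ⟨e, c, k⟩) b = endCore n D e c b := by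
  cases b with
  | false =>
    simp [kend] at hk
    rw [eptN_false, hk]; rfl
  | true =>
    simp [kend] at hk
    rw [eptN_true, hk, pt_last]

theorem eptN_int (e : D.E) (c : Lane n D e) (k : Fin (NN D e + 1)) (b : Bool)
    (hk : (k : ℕ) ≠ kend D e b) : ∃ j, eptN n D (Sum.inr ⟨e, c, k⟩) b = Sum.inr ⟨e, c, j⟩ := by
  have hk2 := k.2
  cases b with
  | false =>
    simp only [kend, Bool.false_eq_true, if_false] at hk
    rw [eptN_false]
    obtain ⟨j, hj⟩ : ∃ j, (k : ℕ) = j + 1 := ⟨k - 1, by omega⟩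
    have : j < NN D e := by omega
    exact ⟨⟨j, this⟩, by rw [hj, pt_int e c this]⟩
  | true =>
    simp [kend] at hk
    rw [eptN_true]
    have : (k : ℕ) < NN D e := by omega
    exact ⟨⟨k, this⟩, by rw [pt_int e c this]⟩

theorem gen_rel {a o : (next n D).Ob} (h : (next n D).Rel a o) : D.Rel (gen a) (gen o) := by
  rcases h with rfl | ⟨ε, b, rfl, ha⟩
  · exact Or.inl rfl
  · rcases ε with ⟨v, i, i'⟩ | ⟨e, c, k⟩
    · have h1 : a ∈ (memN n D (Sum.inl (v, i, i')) b).ob := ha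
      rw [memN_core] at h1
      rw [mem_fresh_ob h1]
      left
      cases b <;> rfl
    · have h1 : a ∈ (memN n D (Sum.inr ⟨e, c, k⟩) b).ob := ha
      by_cases hk : (k : ℕ) = kend D e b
      · rw [memN_pers e c k b hk] at h1
        exact Or.inr ⟨e, b, rfl, gen_plus h1⟩
      · rw [memN_fresh e c k b hk] at h1
        rw [mem_fresh_ob h1]
        left
        obtain ⟨j, hj⟩ := eptN_int e c k b hk
        rw [hj]
        rfl

theorem rel_trans (hI : Inv n D) {a b c : D.Ob} (h1 : D.Rel a b) (h2 : D.Rel b c) :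
    D.Rel a c := by
  rcases h1 with rfl | ⟨e, b1, rfl, ha⟩
  · exact h2
  · rcases h2 with rfl | ⟨e', b2, rfl, hb⟩
    · exact Or.inr ⟨e, b1, rfl, ha⟩
    · exact Or.inr ⟨e', b2, rfl, ((hI.sub e' b2).mem_le e hb b1).ob ha⟩

def Dat.beta (D : Dat) (n : ℕ) : D.Ob → ℕ
  | Sum.inl _ => n + 1
  | Sum.inr e => min (D.mem e false).bt (D.mem e true).bt

theorem beta_lt (hI : Inv n D) {a o : D.Ob} (h : D.Rel a o) (hne : a ≠ o) :
    D.beta n o < D.beta n a := by
  rcases h with h | ⟨e, b, rfl, ha⟩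
  · exact absurd h hne
  · have h0 : min (D.mem e false).bt (D.mem e true).bt ≤ (D.mem e b).bt := by
      cases b with
      | false => exact min_le_left _ _
      | true => exact min_le_right _ _
    rcases a with v | e'
    · show min (D.mem e false).bt (D.mem e true).bt < n + 1
      have := hI.bt_le e b
      omega
    · show min (D.mem e false).bt (D.mem e true).bt <
        min (D.mem e' false).bt (D.mem e' true).bt
      have h1 := hI.bt_lt e b e' ha false
      have h2 := hI.bt_lt e b e' ha true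
      exact lt_min (lt_of_le_of_lt h0 h1) (lt_of_le_of_lt h0 h2)

theorem rel_fm (hI : Inv n D) (x : VV n D) :
    D.Rel (Sum.inl (fm n D x)) (gen (Sum.inl x : (VV n D) ⊕ (EE n D))) := by
  rcases x with ⟨v, i⟩ | ⟨e, c, j⟩
  · exact Or.inl rfl
  · exact Or.inr ⟨e, (pos D e j).2, rfl, pos_mem hI e j⟩

theorem eptN_pe (e : D.E) (c : Lane n D e) (b : Bool) :
    eptN n D (pe e c b) b = endCore n D e c b := eptN_end e c _ b rfl

theorem memN_pe (e : D.E) (c : Lane n D e) (b : Bool) :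
    memN n D (pe e c b) b = plus n D (D.mem e b) (c.1 b) := memN_pers e c _ b rfl

theorem memN_pe' (e : D.E) (c : Lane n D e) (b : Bool) :
    memN n D (pe e c b) (!b) = fresh n D (eptN n D (pe e c b) (!b)) :=
  memN_fresh e c _ (!b) (kend_ne e b)

/-- the interior vertex next to end `b`. -/
theorem eptN_pe' (e : D.E) (c : Lane n D e) (b : Bool) :
    ∃ j : Fin (NN D e), (j : ℕ) = (if b then NN D e - 1 else 0) ∧
      eptN n D (pe e c b) (!b) = Sum.inr ⟨e, c, j⟩ := by
  have hN := NN_pos e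
  cases b with
  | false =>
    refine ⟨⟨0, by omega⟩, by simp, ?_⟩
    show eptN n D (Sum.inr ⟨e, c, ⟨kend D e false, _⟩⟩) true = _
    rw [eptN_true]
    simp only [kend, Bool.false_eq_true, if_false]
    exact pt_int e c (by omega)
  | true =>
    refine ⟨⟨NN D e - 1, by omega⟩, by simp, ?_⟩
    show eptN n D (Sum.inr ⟨e, c, ⟨kend D e true, _⟩⟩) false = _
    rw [eptN_false]
    simp only [kend, if_true]
    have : NN D e = (NN D e - 1) + 1 := by omega
    rw [← pt_int e c (by omega : NN D e - 1 < NN D e)]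
    congr 1

theorem pos_end (hI : Inv n D) (e : D.E) (b : Bool) :
    pos D e (if b then NN D e - 1 else 0) = (D.ept e b, b) := by
  cases b with
  | false => exact pos_zero hI e
  | true => exact pos_last hI e

theorem fm_eptN_pe' (hI : Inv n D) (e : D.E) (c : Lane n D e) (b : Bool) :
    fm n D (eptN n D (pe e c b) (!b)) = D.ept e b := by
  obtain ⟨j, hj, he⟩ := eptN_pe' e c b
  rw [he]
  show (pos D e j).1 = _
  rw [hj, pos_end hI]

/-- over the memory of a persistent edge the projection lands in the old memory -/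
theorem fm_mem_pe (hI : Inv n D) (e : D.E) (c : Lane n D e) (b b' : Bool) {x : VV n D}
    (hx : x ∈ (memN n D (pe e c b) b').vs) : fm n D x ∈ (D.mem e b).vs := by
  by_cases hb : b' = b
  · subst hb
    rw [memN_pe] at hx
    exact fm_plus hI (hI.sub e b') hx
  · have hb' : b' = !b := by cases b <;> cases b' <;> simp_all
    subst hb'
    rw [memN_pe'] at hx
    rw [show x = eptN n D (pe e c b) (!b) from hx, fm_eptN_pe' hI]
    exact hI.ept_mem e b

end gen

/-! ### the sequence of stages -/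

def root : Dat where
  V := Unit
  E := Empty
  ept := fun e => e.elim
  lab := fun _ => []
  mem := fun e => e.elim

theorem inv_root : Inv 0 root := by
  refine ⟨?_, ?_, ?_, ?_, ?_, ?_, ?_, ?_⟩
  · show Finite Unit; infer_instance
  · show Finite Empty; infer_instance
  · show Nonempty Unit; infer_instance
  · intro e; exact Empty.elim e
  · intro e; exact Empty.elim e
  · intro e; exact Empty.elim e
  · intro e; exact Empty.elim e
  · intro e; exact Empty.elim e

noncomputable def sq : ℕ → Dat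
  | 0 => root
  | n + 1 => next n (sq n)

theorem inv_sq : ∀ m, Inv m (sq m)
  | 0 => inv_root
  | n + 1 => inv_next (inv_sq n)

instance (m : ℕ) : Finite (sq m).V := (inv_sq m).finV
instance (m : ℕ) : Finite (sq m).E := (inv_sq m).finE
instance (m : ℕ) : Nonempty (sq m).V := (inv_sq m).neV

noncomputable def fs (m : ℕ) (x : (sq (m + 1)).V) : (sq m).V := fm m (sq m) x

noncomputable def gs (m : ℕ) (x : (sq (m + 1)).Ob) : (sq m).Ob := gen (n := m) (D := sq m) x

open Classical in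
noncomputable def dn : ∀ (M m : ℕ), (sq M).Ob → (sq m).Ob
  | 0, m, x => if h : 0 = m then h ▸ x else Sum.inl (Classical.arbitrary _)
  | M + 1, m, x => if h : M + 1 = m then h ▸ x else dn M m (gs M x)

theorem dn_self (M : ℕ) (x : (sq M).Ob) : dn M M x = x := by
  cases M with
  | zero => simp [dn]
  | succ M => simp [dn]

theorem dn_succ {M m : ℕ} (h : m ≤ M) (x : (sq (M + 1)).Ob) :
    dn (M + 1) m x = dn M m (gs M x) := by
  have : ¬ (M + 1 = m) := by omega
  simp [dn, this]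

theorem gs_dn {M m : ℕ} (h : m + 1 ≤ M) (x : (sq M).Ob) :
    gs m (dn M (m + 1) x) = dn M m x := by
  induction M, h using Nat.le_induction with
  | base => rw [dn_self, dn_succ le_rfl, dn_self]
  | succ M hM ih => rw [dn_succ hM, dn_succ (by omega : m ≤ M), ih]

theorem dn_rel {M m : ℕ} (h : m ≤ M) {a o : (sq M).Ob} (hr : (sq M).Rel a o) :
    (sq m).Rel (dn M m a) (dn M m o) := by
  induction M, h using Nat.le_induction with
  | base => rw [dn_self, dn_self]; exact hr
  | succ M hM ih =>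
    rw [dn_succ hM, dn_succ hM]
    exact ih (gen_rel (n := M) (D := sq M) hr)

/-- threads -/
def Lm : Type := {y : ∀ m, (sq m).V // ∀ m, fs m (y (m + 1)) = y m}

def Lim (y : Lm) (m : ℕ) (o : (sq m).Ob) : Prop :=
  ∃ M₀, ∀ M ≥ M₀, dn M m (Sum.inl (y.1 M)) = o

theorem rel_step (y : Lm) {M m : ℕ} (h : m ≤ M) :
    (sq m).Rel (dn M m (Sum.inl (y.1 M))) (dn (M + 1) m (Sum.inl (y.1 (M + 1)))) := by
  rw [dn_succ h]
  apply dn_rel h
  have h1 := rel_fm (inv_sq M) (y.1 (M + 1))
  have h2 : fm M (sq M) (y.1 (M + 1)) = y.1 M := y.2 M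
  rw [h2] at h1
  exact h1

theorem rel_chain (y : Lm) {M m : ℕ} (h : m ≤ M) :
    (sq m).Rel (Sum.inl (y.1 m)) (dn M m (Sum.inl (y.1 M))) := by
  induction M, h using Nat.le_induction with
  | base => rw [dn_self]; exact Or.inl rfl
  | succ M hM ih => exact rel_trans (inv_sq m) ih (rel_step y hM)

theorem lim_exists (y : Lm) (m : ℕ) : ∃ o, Lim y m o := by
  classical
  -- minimise beta
  let S : Set ℕ := {t | ∃ M ≥ m, (sq m).beta m (dn M m (Sum.inl (y.1 M))) = t}
  have hS : S.Nonempty := ⟨_, m, le_rfl, rfl⟩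
  obtain ⟨M₀, hM₀, hmin⟩ := Nat.sInf_mem hS
  refine ⟨dn M₀ m (Sum.inl (y.1 M₀)), M₀, ?_⟩
  intro M hM
  induction M, hM using Nat.le_induction with
  | base => rfl
  | succ M hM ih =>
    have hmM : m ≤ M := le_trans hM₀ hM
    have h1 := rel_step y hmM
    by_contra hne
    have hne' : dn M m (Sum.inl (y.1 M)) ≠ dn (M + 1) m (Sum.inl (y.1 (M + 1))) := by
      intro h; exact hne (h ▸ ih)
    have h2 := beta_lt (inv_sq m) h1 hne'
    have h3 : sInf S ≤ (sq m).beta m (dn (M + 1) m (Sum.inl (y.1 (M + 1)))) :=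
      Nat.sInf_le ⟨M + 1, by omega, rfl⟩
    rw [ih, hmin] at h2
    omega

theorem lim_unique {y : Lm} {m : ℕ} {o o' : (sq m).Ob} (h : Lim y m o) (h' : Lim y m o') :
    o = o' := by
  obtain ⟨M₀, h1⟩ := h
  obtain ⟨M₁, h2⟩ := h'
  rw [← h1 (max M₀ M₁) (le_max_left _ _), h2 (max M₀ M₁) (le_max_right _ _)]

theorem lim_gs {y : Lm} {m : ℕ} {o : (sq (m + 1)).Ob} (h : Lim y (m + 1) o) :
    Lim y m (gs m o) := by
  obtain ⟨M₀, h1⟩ := h
  refine ⟨max M₀ (m + 1), fun M hM => ?_⟩
  rw [← h1 M (le_trans (le_max_left _ _) hM), gs_dn (le_trans (le_max_right _ _) hM)]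

theorem lim_rel {y : Lm} {m : ℕ} {o : (sq m).Ob} (h : Lim y m o) :
    (sq m).Rel (Sum.inl (y.1 m)) o := by
  obtain ⟨M₀, h1⟩ := h
  rw [← h1 (max M₀ m) (le_max_left _ _)]
  exact rel_chain y (le_max_right _ _)

/-! ### boundary edges -/

def Bd (m : ℕ) (e : (sq m).E) (b : Bool) (M : ℕ) (ε : (sq M).E) : Prop :=
  dn M m (Sum.inr ε) = Sum.inr e ∧ dn M m (Sum.inl ((sq M).ept ε b)) ≠ Sum.inr e

theorem bd_self {m : ℕ} {e : (sq m).E} {b : Bool} : Bd m e b m e := by
  unfold Bd
  rw [dn_self, dn_self]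
  exact ⟨rfl, by simp⟩

theorem bd_base {m : ℕ} {e ε : (sq m).E} {b : Bool} (h : Bd m e b m ε) : ε = e := by
  have := h.1
  rw [dn_self] at this
  exact Sum.inr.inj this

theorem bd_step {m M : ℕ} (hM : m ≤ M) {e : (sq m).E} {b : Bool} {ε : (sq (M + 1)).E}
    (h : Bd m e b (M + 1) ε) :
    ∃ (e' : (sq M).E) (c : Lane M (sq M) e'), ε = pe e' c b ∧ Bd m e b M e' := by
  obtain ⟨h1, h2⟩ := h
  rw [dn_succ hM] at h1 h2
  rcases ε with ⟨v, i, i'⟩ | ⟨e', c, k⟩
  · exfalso
    apply h2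
    rw [← h1]
    congr 1
    cases b <;> rfl
  · by_cases hk : (k : ℕ) = kend (sq M) e' b
    · refine ⟨e', c, ?_, h1, ?_⟩
      · show (Sum.inr ⟨e', c, k⟩ : EE M (sq M)) = _
        unfold pe
        congr
        exact Fin.ext hk
      · intro h3
        apply h2
        have h4 : (sq (M + 1)).ept (Sum.inr ⟨e', c, k⟩ : EE M (sq M)) b =
          endCore M (sq M) e' c b := eptN_end e' c k b hk
        rw [h4]
        exact h3
    · exfalso
      obtain ⟨j, hj⟩ := eptN_int e' c k b hk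
      apply h2
      have h4 : (sq (M + 1)).ept (Sum.inr ⟨e', c, k⟩ : EE M (sq M)) b =
        (Sum.inr ⟨e', c, j⟩ : VV M (sq M)) := hj
      rw [h4]
      exact h1

theorem bd_up {m M : ℕ} (hM : m ≤ M) {e : (sq m).E} {b : Bool} {e' : (sq M).E}
    (h : Bd m e b M e') (c : Lane M (sq M) e') : Bd m e b (M + 1) (pe e' c b : EE M (sq M)) := by
  obtain ⟨h1, h2⟩ := h
  refine ⟨?_, ?_⟩
  · rw [dn_succ hM]; exact h1
  · rw [dn_succ hM]
    have h4 : (sq (M + 1)).ept (pe e' c b : EE M (sq M)) b =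
        endCore M (sq M) e' c b := eptN_pe e' c b
    rw [h4]
    exact h2

theorem bd_mem {m M : ℕ} (hM : m ≤ M) {e : (sq m).E} {b : Bool} {ε : (sq M).E}
    (h : Bd m e b M ε) {o : (sq M).Ob} (ho : o ∈ ((sq M).mem ε b).ob) :
    dn M m o ∈ ((sq m).mem e b).ob := by
  induction M, hM using Nat.le_induction with
  | base =>
    rw [dn_self]
    rw [bd_base h] at ho
    exact ho
  | succ M hM ih =>
    obtain ⟨e', c, rfl, h'⟩ := bd_step hM h
    rw [dn_succ hM]
    apply ih h'
    have h1 : o ∈ (memN M (sq M) (pe e' c b) b).ob := ho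
    rw [memN_pe] at h1
    exact gen_plus h1

theorem bd_notin {m M : ℕ} (hM : m ≤ M) {e : (sq m).E} {b : Bool} {ε : (sq M).E}
    (h : Bd m e b M ε) {v : (sq M).V} (hv : v ∈ ((sq M).mem ε b).vs) :
    dn M m (Sum.inl v) ≠ Sum.inr e := by
  intro h1
  have h2 := bd_mem hM h (o := Sum.inl v) hv
  rw [h1] at h2
  exact lt_irrefl _ ((inv_sq m).bt_lt e b e h2 b)

/-- an edge with an end inside the descendants of `e` is a descendant of `e`. -/
theorem end_in {m M : ℕ} (hM : m ≤ M) {e : (sq m).E} {b : Bool} {ε : (sq M).E}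
    (h : dn M m (Sum.inl ((sq M).ept ε b)) = Sum.inr e) : dn M m (Sum.inr ε) = Sum.inr e := by
  induction M, hM using Nat.le_induction with
  | base => rw [dn_self] at h; simp at h
  | succ M hM ih =>
    rw [dn_succ hM] at h ⊢
    rcases ε with ⟨v, i, i'⟩ | ⟨e', c, k⟩
    · rw [← h]
      congr 1
      cases b <;> rfl
    · by_cases hk : (k : ℕ) = kend (sq M) e' b
      · have h4 : (sq (M + 1)).ept (Sum.inr ⟨e', c, k⟩ : EE M (sq M)) b =
          endCore M (sq M) e' c b := eptN_end e' c k b hk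
        rw [h4] at h
        exact ih h
      · obtain ⟨j, hj⟩ := eptN_int e' c k b hk
        have h4 : (sq (M + 1)).ept (Sum.inr ⟨e', c, k⟩ : EE M (sq M)) b =
          (Sum.inr ⟨e', c, j⟩ : VV M (sq M)) := hj
        rw [h4] at h
        exact h

theorem bd_desc {m M : ℕ} {e : (sq m).E} {b : Bool} {M' : ℕ} (hM' : M ≤ M') (hM : m ≤ M)
    {ε : (sq M').E} (h : Bd m e b M' ε) :
    ∃ ε' : (sq M).E, Bd m e b M ε' ∧ dn M' M (Sum.inr ε) = Sum.inr ε' := by
  induction M', hM' using Nat.le_induction with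
  | base => exact ⟨ε, h, dn_self _ _⟩
  | succ M' hM' ih =>
    obtain ⟨e', c, rfl, h'⟩ := bd_step (le_trans hM hM') h
    obtain ⟨ε', h1, h2⟩ := ih h'
    refine ⟨ε', h1, ?_⟩
    rw [dn_succ hM']
    exact h2

end Pool.Agent.Helper82.TL
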