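import Pool.Agent.Helper82.TL3

set_option autoImplicit false

namespace Pool.Agent.Helper82.TL

open Set

/-! Part 4: every large connected family contains the memory tower of some edge end. -/

theorem adj_down {m : ℕ} {x y : (sq (m + 1)).V} (h : (sq (m + 1)).adj x y) :
    (sq m).adj (fs m x) (fs m y) := adj_fm (inv_sq m) h

def RR (y y' : Lm) : Prop := ∀ m, (sq m).adj (y.1 m) (y'.1 m)

theorem adj_le (y y' : Lm) {m M : ℕ} (h : m ≤ M) (ha : (sq M).adj (y.1 M) (y'.1 M)) :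
    (sq m).adj (y.1 m) (y'.1 m) := by
  induction M, h using Nat.le_induction with
  | base => exact ha
  | succ M hM ih =>
    apply ih
    have := adj_down ha
    rwa [y.2, y'.2] at this

theorem lim_edge {y : Lm} {m : ℕ} {e : (sq m).E} (h : Lim y m (Sum.inr e)) :
    ∃ b, y.1 m ∈ ((sq m).mem e b).vs := by
  rcases lim_rel h with h1 | ⟨e', b, h1, h2⟩
  · exact absurd h1 (by simp)
  · rw [← Sum.inr.inj h1] at h2
    exact ⟨b, h2⟩

theorem lim_vertex {y : Lm} {m : ℕ} {v : (sq m).V} (h : Lim y m (Sum.inl v)) : y.1 m = v := by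
  rcases lim_rel h with h1 | ⟨e', b, h1, h2⟩
  · exact Sum.inl.inj h1
  · exact absurd h1 (by simp)

theorem eq_lim (y y' : Lm) (h : ∀ m o, Lim y m o → Lim y' m o) : RR y y' := by
  by_contra hcon
  unfold RR at hcon
  push Not at hcon
  obtain ⟨m₀, hm₀⟩ := hcon
  have hna : ∀ m ≥ m₀, ¬ (sq m).adj (y.1 m) (y'.1 m) := fun m hm ha => hm₀ (adj_le y y' hm ha)
  have hS : ∀ m ≥ m₀, ∃ e, Lim y m (Sum.inr e) := by
    intro m hm
    obtain ⟨o, ho⟩ := lim_exists y m
    rcases o with v | e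
    · exfalso
      apply hna m hm
      rw [lim_vertex ho, lim_vertex (h m _ ho)]
      exact Or.inl rfl
    · exact ⟨e, ho⟩
  -- shape of the next edge
  have hstep : ∀ m ≥ m₀, ∀ e : (sq m).E, Lim y m (Sum.inr e) → ∀ ε : (sq (m + 1)).E,
      Lim y (m + 1) (Sum.inr ε) →
      ∃ (c : Lane m (sq m) e) (b : Bool), ε = (pe e c b : EE m (sq m)) := by
    intro m hm e he ε hε
    have h1 := lim_unique (lim_gs hε) he
    rcases ε with ⟨v, i, i'⟩ | ⟨e', c, k⟩
    · exact absurd h1 (by simp [gs, gen])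
    · have h2 : e' = e := Sum.inr.inj h1
      subst h2
      refine ⟨c, ?_⟩
      by_contra hno
      push Not at hno
      have hk : ∀ b, (k : ℕ) ≠ kend (sq m) e' b := by
        intro b hk
        apply hno b
        show (Sum.inr ⟨e', c, k⟩ : EE m (sq m)) = _
        unfold pe
        congr
        exact Fin.ext hk
      have h3 : ∀ z : Lm, Lim z (m + 1) (Sum.inr (Sum.inr ⟨e', c, k⟩ : EE m (sq m))) →
          ∃ b, z.1 (m + 1) = (sq (m + 1)).ept (Sum.inr ⟨e', c, k⟩ : EE m (sq m)) b := by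
        intro z hz
        obtain ⟨b, hb⟩ := lim_edge hz
        have hb' : z.1 (m + 1) ∈ (memN m (sq m) (Sum.inr ⟨e', c, k⟩) b).vs := hb
        rw [memN_fresh e' c k b (hk b)] at hb'
        exact ⟨b, hb'⟩
      obtain ⟨b1, hb1⟩ := h3 y hε
      obtain ⟨b2, hb2⟩ := h3 y' (h _ _ hε)
      apply hna (m + 1) (by omega)
      rw [hb1, hb2]
      by_cases hb : b2 = b1
      · rw [hb]; exact Or.inl rfl
      · have : b2 = !b1 := by cases b1 <;> cases b2 <;> simp_all
        rw [this]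
        exact Or.inr ⟨_, b1, rfl, rfl⟩
  -- the end never changes
  have hconst : ∀ m ≥ m₀, ∀ (e : (sq m).E) (c : Lane m (sq m) e) (b : Bool)
      (c' : Lane (m + 1) (sq (m + 1)) (pe e c b : EE m (sq m))) (b' : Bool),
      Lim y (m + 2) (Sum.inr (pe (n := m + 1) (D := sq (m + 1)) (pe e c b : EE m (sq m)) c' b'
        : EE (m + 1) (sq (m + 1)))) → b' = b := by
    intro m hm e c b c' b' hl
    by_contra hb
    have hb' : b' = !b := by cases b <;> cases b' <;> simp_all
    subst hb'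
    have h3 : ∀ z : Lm, Lim z (m + 2) (Sum.inr (pe (n := m + 1) (D := sq (m + 1))
        (pe e c b : EE m (sq m)) c' (!b) : EE (m + 1) (sq (m + 1)))) →
          z.1 (m + 1) = (sq (m + 1)).ept (pe e c b : EE m (sq m)) (!b) := by
      intro z hz
      obtain ⟨b2, hb2⟩ := lim_edge hz
      have h4 := fm_mem_pe (inv_sq (m + 1)) (pe e c b : EE m (sq m)) c' (!b) b2 hb2
      have h5 : fm (m + 1) (sq (m + 1)) (z.1 (m + 1 + 1)) = z.1 (m + 1) := z.2 (m + 1)
      rw [h5] at h4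
      have h6 : z.1 (m + 1) ∈ (memN m (sq m) (pe e c b) (!b)).vs := h4
      rw [memN_pe'] at h6
      exact h6
    apply hna (m + 1) (by omega)
    rw [h3 y hl, h3 y' (h _ _ hl)]
    exact Or.inl rfl
  -- start
  obtain ⟨e₀, he₀⟩ := hS m₀ le_rfl
  obtain ⟨ε₀, hε₀⟩ := hS (m₀ + 1) (by omega)
  obtain ⟨c₀, b₀, rfl⟩ := hstep m₀ le_rfl e₀ he₀ ε₀ hε₀
  have hT : ∀ m ≥ m₀, ∃ (e : (sq m).E) (c : Lane m (sq m) e), Lim y m (Sum.inr e) ∧
      Lim y (m + 1) (Sum.inr (pe e c b₀ : EE m (sq m))) ∧ Bd m₀ e₀ b₀ m e := by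
    intro m hm
    induction m, hm using Nat.le_induction with
    | base => exact ⟨e₀, c₀, he₀, hε₀, bd_self⟩
    | succ m hm ih =>
      obtain ⟨e, c, h1, h2, h3⟩ := ih
      obtain ⟨ε, hε⟩ := hS (m + 2) (by omega)
      obtain ⟨c', b', rfl⟩ := hstep (m + 1) (by omega) _ h2 ε hε
      have hb := hconst m hm e c b₀ c' b' hε
      subst hb
      exact ⟨_, c', h2, hε, bd_up hm h3 c⟩
  have hfin : ∀ m ≥ m₀, dn m m₀ (Sum.inl (y.1 m)) ≠ Sum.inr e₀ := by
    intro m hm
    obtain ⟨e, c, h1, h2, h3⟩ := hT m hm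
    obtain ⟨b2, hb2⟩ := lim_edge h2
    have h4 := fm_mem_pe (inv_sq m) e c b₀ b2 hb2
    have h5 : fm m (sq m) (y.1 (m + 1)) = y.1 m := y.2 m
    rw [h5] at h4
    exact bd_notin hm h3 h4
  obtain ⟨M₁, hM₁⟩ := he₀
  exact hfin (max M₁ m₀) (le_max_right _ _) (hM₁ _ (le_max_left _ _))

def pr (F : Set Lm) (m : ℕ) : Set (sq m).V := {v | ∃ y ∈ F, y.1 m = v}

def GConn (D : Dat) (A : Set D.V) : Prop :=
  ∀ P : D.V → Prop, (∃ a ∈ A, P a) → (∃ a ∈ A, ¬ P a) →
    ∃ a ∈ A, ∃ a' ∈ A, D.adj a a' ∧ P a ∧ ¬ P a'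

theorem exists_edge {F : Set Lm} (hF : ∀ m, GConn (sq m) (pr F m)) {y y' : Lm} (hy : y ∈ F)
    (hy' : y' ∈ F) (h : ¬ RR y y') :
    ∃ (m : ℕ) (e : (sq m).E), ∃ y1 ∈ F, ∃ y2 ∈ F, Lim y1 m (Sum.inr e) ∧
      ¬ Lim y2 m (Sum.inr e) := by
  by_contra hcon
  push Not at hcon
  have h1 : ∃ m o, Lim y m o ∧ ¬ Lim y' m o := by
    by_contra h1
    push Not at h1
    exact h (eq_lim y y' h1)
  obtain ⟨m, o, ho, ho'⟩ := h1
  have hne : ∀ z ∈ F, Lim z m (Sum.inl (z.1 m)) := by
    intro z hz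
    obtain ⟨o1, ho1⟩ := lim_exists z m
    rcases o1 with v | e
    · rw [lim_vertex ho1]; exact ho1
    · exfalso
      have h2 := hcon m e z hz y hy ho1
      have h3 := hcon m e z hz y' hy' ho1
      rw [lim_unique ho h2] at ho'
      exact ho' h3
  have hneq : y'.1 m ≠ y.1 m := by
    intro h2
    apply ho'
    rw [lim_unique ho (hne y hy), ← h2]
    exact hne y' hy'
  have hcore : ∀ z ∈ F, ∃ p : (sq m).V × Fin (ell m), z.1 (m + 1) = (Sum.inl p : VV m (sq m)) := by
    intro z hz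
    obtain ⟨o1, ho1⟩ := lim_exists z (m + 1)
    have h2 := lim_unique (lim_gs ho1) (hne z hz)
    rcases o1 with w | ε
    · have h3 := lim_vertex ho1
      rcases w with p | ⟨e, c, j⟩
      · exact ⟨p, h3⟩
      · exact absurd h2 (by simp [gs, gen])
    · rcases ε with ⟨v, i, i'⟩ | ⟨e, c, j⟩
      · obtain ⟨b, hb⟩ := lim_edge ho1
        have hb' : z.1 (m + 1) ∈ (memN m (sq m) (Sum.inl (v, i, i')) b).vs := hb
        rw [memN_core] at hb'
        cases b with
        | false => exact ⟨_, hb'⟩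
        | true => exact ⟨_, hb'⟩
      · exact absurd h2 (by simp [gs, gen])
  obtain ⟨a, ⟨z, hz, rfl⟩, a', ⟨z', hz', rfl⟩, hadj, hPa, hPa'⟩ :=
    hF (m + 1) (fun u => fs m u = y.1 m) ⟨_, ⟨y, hy, rfl⟩, y.2 m⟩
      ⟨_, ⟨y', hy', rfl⟩, by rw [y'.2 m]; exact hneq⟩
  obtain ⟨⟨v, i⟩, hp⟩ := hcore z hz
  obtain ⟨⟨v', i'⟩, hp'⟩ := hcore z' hz'
  rw [hp, hp'] at hadj
  have h2 := adj_core (n := m) (D := sq m) hadj
  apply hPa'
  rw [← hPa, hp, hp']
  exact h2.symm

/-- The exit argument. -/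
theorem exit {F : Set Lm} (hF : ∀ m, GConn (sq m) (pr F m)) {m : ℕ} {e : (sq m).E} {y1 y2 : Lm}
    (hy1 : y1 ∈ F) (hy2 : y2 ∈ F) {N : ℕ} (hN : m ≤ N)
    (h10 : dn N m (Sum.inl (y1.1 N)) = Sum.inr e)
    (h12 : dn (N + 2) m (Sum.inl (y1.1 (N + 2))) = Sum.inr e)
    (h22 : dn (N + 2) m (Sum.inl (y2.1 (N + 2))) ≠ Sum.inr e) :
    ∃ b, ∃ ε : (sq (N + 1)).E, Bd m e b (N + 1) ε ∧ ((sq (N + 1)).mem ε b).vs ⊆ pr F (N + 1) := by
  classical
  let C : (sq (N + 2)).V → Prop := fun u => dn (N + 2) m (Sum.inl u) = Sum.inr e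
  let st : (sq (N + 2)).V → (sq (N + 2)).V → Prop := fun u v =>
    (sq (N + 2)).adj u v ∧ v ∈ pr F (N + 2) ∧ C v
  let P : (sq (N + 2)).V → Prop := fun u => Relation.ReflTransGen st (y1.1 (N + 2)) u
  have hPC : ∀ u, P u → u ∈ pr F (N + 2) ∧ C u := by
    intro u hu
    induction hu with
    | refl => exact ⟨⟨y1, hy1, rfl⟩, h12⟩
    | tail _ hst _ => exact hst.2
  obtain ⟨a, haK, a', haK', hadj, hPa, hPa'⟩ :=
    hF (N + 2) P ⟨_, ⟨y1, hy1, rfl⟩, Relation.ReflTransGen.refl⟩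
      ⟨_, ⟨y2, hy2, rfl⟩, fun hP => h22 (hPC _ hP).2⟩
  have hCa' : ¬ C a' := fun hC => hPa' (hPa.tail ⟨hadj, haK', hC⟩)
  have hCa : C a := (hPC a hPa).2
  have hedge : ∃ (ε : (sq (N + 2)).E) (b : Bool), (sq (N + 2)).ept ε (!b) = a ∧
      (sq (N + 2)).ept ε b = a' := by
    rcases hadj with h | ⟨ε, b, h1, h2⟩
    · exact absurd (h ▸ hCa) hCa'
    · exact ⟨ε, !b, by simpa using h1, h2⟩
  obtain ⟨ε, b, hεa, hεa'⟩ := hedge
  have hBd : Bd m e b (N + 2) ε := by
    refine ⟨end_in (b := !b) (by omega) ?_, ?_⟩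
    · rw [hεa]; exact hCa
    · rw [hεa']; exact hCa'
  obtain ⟨e', c, rfl, hBd'⟩ := bd_step (by omega : m ≤ N + 1) hBd
  refine ⟨b, e', hBd', ?_⟩
  obtain ⟨e'', c'', he'', hBd''⟩ := bd_step hN hBd'
  -- y1 is not in the interior of the path
  have hy1int : ∀ j : ℕ, ∀ hj : j < NN (sq (N + 1)) e',
      y1.1 (N + 2) ≠ (pt (N + 1) (sq (N + 1)) e' c (j + 1)) := by
    intro j hj hj'
    subst he''
    have h1 : y1.1 (N + 1) ∈
        ((sq (N + 1)).mem (pe e'' c'' b : EE N (sq N))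
          (pos (sq (N + 1)) (pe e'' c'' b : EE N (sq N)) j).2).vs := by
      have h2 : fs (N + 1) (y1.1 (N + 2)) = y1.1 (N + 1) := y1.2 (N + 1)
      rw [hj'] at h2
      have h3 : fs (N + 1) (pt (N + 1) (sq (N + 1)) (pe e'' c'' b : EE N (sq N)) c (j + 1)) =
        (pos (sq (N + 1)) (pe e'' c'' b : EE N (sq N)) j).1 := fm_pt_int _ c hj
      rw [← h2, h3]
      exact pos_mem (inv_sq (N + 1)) _ j
    have h4 := fm_mem_pe (inv_sq N) e'' c'' b _ h1
    have h5 : fm N (sq N) (y1.1 (N + 1)) = y1.1 N := y1.2 N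
    rw [h5] at h4
    exact bd_notin hN hBd'' h4 h10
  -- positions counted from end `b`
  have hNN := NN_pos e'
  let ptb : ℕ → (sq (N + 2)).V := fun k =>
    pt (N + 1) (sq (N + 1)) e' c (if b then NN (sq (N + 1)) e' + 1 - k else k)
  have hptb0 : ptb 0 = a' := by
    rw [← hεa']
    show _ = eptN (N + 1) (sq (N + 1)) (pe e' c b) b
    rw [eptN_pe]
    cases b with
    | false => rfl
    | true =>
      show pt (N + 1) (sq (N + 1)) e' c (NN (sq (N + 1)) e' + 1 - 0) = _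
      rw [Nat.sub_zero, pt_last]
  have hptb1 : ptb 1 = a := by
    rw [← hεa]
    show _ = eptN (N + 1) (sq (N + 1)) (pe e' c b) (!b)
    obtain ⟨j, hj, hj'⟩ := eptN_pe' e' c b
    rw [hj']
    cases b with
    | false =>
      simp at hj
      show pt (N + 1) (sq (N + 1)) e' c 1 = _
      rw [pt_int e' c (by omega : 0 < NN (sq (N + 1)) e')]
      have h7 : (⟨0, by omega⟩ : Fin (NN (sq (N + 1)) e')) = j := Fin.ext hj.symm
      exact congrArg (fun z => (Sum.inr ⟨e', (c, z)⟩ : VV (N + 1) (sq (N + 1)))) h7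
    | true =>
      simp at hj
      show pt (N + 1) (sq (N + 1)) e' c (NN (sq (N + 1)) e' + 1 - 1) = _
      have h6 : NN (sq (N + 1)) e' + 1 - 1 = (NN (sq (N + 1)) e' - 1) + 1 := by omega
      rw [h6, pt_int e' c (by omega)]
      have h7 : (⟨NN (sq (N + 1)) e' - 1, by omega⟩ : Fin (NN (sq (N + 1)) e')) = j :=
        Fin.ext hj.symm
      exact congrArg (fun z => (Sum.inr ⟨e', (c, z)⟩ : VV (N + 1) (sq (N + 1)))) h7
  have hnb : ∀ k, 1 ≤ k → k ≤ NN (sq (N + 1)) e' → ∀ u, (sq (N + 2)).adj u (ptb k) →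
      u = ptb k ∨ u = ptb (k - 1) ∨ u = ptb (k + 1) := by
    intro k hk1 hk2 u hu
    have hu' := (sq (N + 2)).adj_symm hu
    cases b with
    | false =>
      have h7 : ptb k = pt (N + 1) (sq (N + 1)) e' c ((k - 1) + 1) := by
        show pt (N + 1) (sq (N + 1)) e' c k = _
        congr 1; omega
      rw [h7] at hu'
      rcases adj_int (n := N + 1) (D := sq (N + 1)) (by omega : k - 1 < _) hu' with h | h | h
      · left; rw [h, h7]
      · right; left; rw [h]; rfl
      · right; right; rw [h]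
        show pt (N + 1) (sq (N + 1)) e' c _ = pt (N + 1) (sq (N + 1)) e' c (k + 1)
        congr 1; omega
    | true =>
      have h7 : ptb k = pt (N + 1) (sq (N + 1)) e' c ((NN (sq (N + 1)) e' - k) + 1) := by
        show pt (N + 1) (sq (N + 1)) e' c (NN (sq (N + 1)) e' + 1 - k) = _
        congr 1; omega
      rw [h7] at hu'
      rcases adj_int (n := N + 1) (D := sq (N + 1)) (by omega : NN (sq (N + 1)) e' - k < _) hu'
        with h | h | h
      · left; rw [h, h7]
      · right; right; rw [h]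
        show pt (N + 1) (sq (N + 1)) e' c _ =
          pt (N + 1) (sq (N + 1)) e' c (NN (sq (N + 1)) e' + 1 - (k + 1))
        congr 1; omega
      · right; left; rw [h]
        show pt (N + 1) (sq (N + 1)) e' c _ =
          pt (N + 1) (sq (N + 1)) e' c (NN (sq (N + 1)) e' + 1 - (k - 1))
        congr 1; omega
  have hy1ptb : ∀ k, 1 ≤ k → k ≤ NN (sq (N + 1)) e' → y1.1 (N + 2) ≠ ptb k := by
    intro k hk1 hk2 h8
    cases b with
    | false =>
      apply hy1int (k - 1) (by omega)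
      rw [h8]
      show pt (N + 1) (sq (N + 1)) e' c k = _
      congr 1; omega
    | true =>
      apply hy1int (NN (sq (N + 1)) e' - k) (by omega)
      rw [h8]
      show pt (N + 1) (sq (N + 1)) e' c (NN (sq (N + 1)) e' + 1 - k) = _
      congr 1; omega
  have hall : ∀ k, 1 ≤ k → k ≤ NN (sq (N + 1)) e' → P (ptb k) := by
    intro k
    induction k using Nat.strong_induction_on with
    | _ k ih =>
      intro hk1 hk2
      by_cases hk : k = 1
      · subst hk; rw [hptb1]; exact hPa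
      · by_contra hPk
        have hcl : ∀ u, P u → ∀ i, 1 ≤ i → i < k → u ≠ ptb i := by
          intro u hu
          induction hu with
          | refl => intro i hi1 hi2; exact hy1ptb i hi1 (by omega)
          | @tail u v hu hst ihu =>
            intro i hi1 hi2 hvi
            have h9 := hst.1
            rw [hvi] at h9
            rcases hnb i hi1 (by omega) u h9 with h | h | h
            · exact ihu i hi1 hi2 h
            · by_cases hi : i = 1
              · subst hi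
                apply hPa'
                have : u = a' := by rw [h]; exact hptb0
                rw [← this]; exact hu
              · exact ihu (i - 1) (by omega) (by omega) h
            · by_cases hi : i + 1 = k
              · apply hPk
                rw [← hi, ← h]; exact hu
              · exact ihu (i + 1) (by omega) (by omega) h
        exact hcl a hPa 1 le_rfl (by omega) hptb1.symm
  -- conclusion
  intro v hv
  obtain ⟨j, hj, hjv⟩ := pos_cover (inv_sq (N + 1)) e' b v hv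
  have hPj : P (pt (N + 1) (sq (N + 1)) e' c (j + 1)) := by
    cases b with
    | false => exact hall (j + 1) (by omega) (by omega)
    | true =>
      have h9 := hall (NN (sq (N + 1)) e' - j) (by omega) (by omega)
      have h10 : ptb (NN (sq (N + 1)) e' - j) = pt (N + 1) (sq (N + 1)) e' c (j + 1) := by
        show pt (N + 1) (sq (N + 1)) e' c (NN (sq (N + 1)) e' + 1 - (NN (sq (N + 1)) e' - j)) = _
        congr 1; omega
      rw [h10] at h9
      exact h9
  obtain ⟨⟨z, hz, hz'⟩, _⟩ := hPC _ hPj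
  refine ⟨z, hz, ?_⟩
  rw [← z.2 (N + 1), hz']
  have h11 : fs (N + 1) (pt (N + 1) (sq (N + 1)) e' c (j + 1)) = (pos (sq (N + 1)) e' j).1 :=
    fm_pt_int e' c hj
  rw [h11, hjv]

end Pool.Agent.Helper82.TL
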