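import Pool.Agent.Helper82.TL4

set_option autoImplicit false

namespace Pool.Agent.Helper82.TL

open Set

/-! Part 5: extraction of a memory tower by compactness. -/

open Classical in
theorem exists_seq_from {X : ℕ → Type} (x0 : ∀ M, X M) (m : ℕ) (P : ∀ M, X M → Prop)
    (R : ∀ M, X M → X (M + 1) → Prop) (h0 : P m (x0 m))
    (hs : ∀ M ≥ m, ∀ x, P M x → ∃ x', P (M + 1) x' ∧ R M x x') :
    ∃ x : ∀ M, X M, (∀ M ≤ m, x M = x0 M) ∧ ∀ M ≥ m, P M (x M) ∧ R M (x M) (x (M + 1)) := by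
  let x : ∀ M, X M := fun M => Nat.rec (x0 0) (fun M xM => if M + 1 ≤ m then x0 (M + 1) else
    if hP : ∃ x', P (M + 1) x' ∧ R M xM x' then Classical.choose hP else x0 (M + 1)) M
  have hx : ∀ M, x (M + 1) = if M + 1 ≤ m then x0 (M + 1) else
    if hP : ∃ x', P (M + 1) x' ∧ R M (x M) x' then Classical.choose hP else x0 (M + 1) :=
    fun M => rfl
  have h1 : ∀ M ≤ m, x M = x0 M := by
    intro M hM
    cases M with
    | zero => rfl
    | succ M => rw [hx, if_pos hM]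
  have h2 : ∀ M ≥ m, P M (x M) := by
    intro M hM
    induction M, hM using Nat.le_induction with
    | base => rw [h1 m le_rfl]; exact h0
    | succ M hM ih =>
      have h3 : ∃ x', P (M + 1) x' ∧ R M (x M) x' := hs M hM _ ih
      rw [hx, if_neg (by omega), dif_pos h3]
      exact (Classical.choose_spec h3).1
  refine ⟨x, h1, fun M hM => ⟨h2 M hM, ?_⟩⟩
  have h3 : ∃ x', P (M + 1) x' ∧ R M (x M) x' := hs M hM _ (h2 M hM)
  rw [hx, if_neg (by omega), dif_pos h3]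
  exact (Classical.choose_spec h3).2

theorem dn_dn {m M M' : ℕ} (h1 : m ≤ M) (h2 : M ≤ M') (x : (sq M').Ob) :
    dn M m (dn M' M x) = dn M' m x := by
  induction M', h2 using Nat.le_induction with
  | base => rw [dn_self]
  | succ M' hM ih => rw [dn_succ hM, dn_succ (le_trans h1 hM), ih]

/-- ancestors of good persistent edges are good. -/
theorem bd_desc' {F : Set Lm} {m M : ℕ} {e : (sq m).E} {b : Bool} {M' : ℕ} (hM' : M ≤ M')
    (hM : m ≤ M) {ε : (sq M').E} (h : Bd m e b M' ε) (hK : ((sq M').mem ε b).vs ⊆ pr F M') :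
    ∃ ε' : (sq M).E, Bd m e b M ε' ∧ dn M' M (Sum.inr ε) = Sum.inr ε' ∧
      ((sq M).mem ε' b).vs ⊆ pr F M := by
  induction M', hM' using Nat.le_induction with
  | base => exact ⟨ε, h, dn_self _ _, hK⟩
  | succ M' hM' ih =>
    obtain ⟨e', c, rfl, h'⟩ := bd_step (le_trans hM hM') h
    have hK' : ((sq M').mem e' b).vs ⊆ pr F M' := by
      intro v hv
      obtain ⟨x, hx, rfl⟩ := fm_plus_surj (n := M') (ρ := c.1 b) ((inv_sq M').sub e' b) (c.2 b)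
        ((inv_sq M').bt_le e' b) hv
      rw [← memN_pe] at hx
      obtain ⟨y, hy, hyx⟩ := hK hx
      refine ⟨y, hy, ?_⟩
      rw [← y.2 M', hyx]
      rfl
    obtain ⟨ε', h1, h2, h3⟩ := ih h' hK'
    refine ⟨ε', h1, ?_, h3⟩
    rw [dn_succ hM']
    exact h2

def Gd (F : Set Lm) (m : ℕ) (e : (sq m).E) (b : Bool) (M : ℕ) (ε : (sq M).E) : Prop :=
  Bd m e b M ε ∧ ∀ M' ≥ M, ∃ ε' : (sq M').E, Bd m e b M' ε' ∧
    dn M' M (Sum.inr ε') = Sum.inr ε ∧ ((sq M').mem ε' b).vs ⊆ pr F M'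

theorem gd_step {F : Set Lm} {m : ℕ} {e : (sq m).E} {b : Bool} {M : ℕ} (hM : m ≤ M)
    {ε : (sq M).E} (h : Gd F m e b M ε) :
    ∃ c : Lane M (sq M) ε, Gd F m e b (M + 1) (pe ε c b : EE M (sq M)) := by
  by_contra hcon
  push Not at hcon
  have h1 : ∀ c : Lane M (sq M) ε, ∃ M' ≥ M + 1, ¬ ∃ ε' : (sq M').E, Bd m e b M' ε' ∧
      dn M' (M + 1) (Sum.inr ε') = Sum.inr (pe ε c b : EE M (sq M)) ∧
      ((sq M').mem ε' b).vs ⊆ pr F M' := by
    intro c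
    by_contra h1
    push Not at h1
    refine hcon c ⟨bd_up hM h.1 c, ?_⟩
    intro M' hM'
    obtain ⟨ε', h2⟩ := h1 M' hM'
    exact ⟨ε', h2⟩
  choose g hg1 hg2 using h1
  have hfin : Finite (Lane M (sq M) ε) := finite_lane (inv_sq M) ε
  obtain ⟨B, hB⟩ := Finite.exists_le g
  obtain ⟨ε', h3, h4, h5⟩ := h.2 (max B (M + 1)) (by omega)
  have hMB : M + 1 ≤ max B (M + 1) := le_max_right _ _
  obtain ⟨ε'', h6, h7, h8⟩ := bd_desc' hMB (by omega) h3 h5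
  obtain ⟨ε1, c, rfl, h9⟩ := bd_step hM h6
  have h10 : ε1 = ε := by
    have h11 := gs_dn hMB (Sum.inr ε')
    rw [h7, h4] at h11
    exact Sum.inr.inj h11
  subst h10
  have hgB : g c ≤ max B (M + 1) := (hB c).trans (le_max_left _ _)
  obtain ⟨ε3, h12, h13, h14⟩ := bd_desc' hgB (by have := hg1 c; omega) h3 h5
  apply hg2 c
  refine ⟨ε3, h12, ?_, h14⟩
  rw [← h13, dn_dn (hg1 c) hgB, h7]
  rfl

theorem main_D {F : Set Lm} (hF : ∀ m, GConn (sq m) (pr F m)) {y y' : Lm} (hy : y ∈ F)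
    (hy' : y' ∈ F) (h : ¬ RR y y') :
    ∃ (m : ℕ) (e : (sq m).E) (b : Bool) (G : ∀ M, Mem (sq M).V (sq M).E),
      G m = (sq m).mem e b ∧ ∀ M ≥ m, (G M).vs ⊆ pr F M ∧
        ∃ ρ, Fat M (G M).bt (G M).ts ρ ∧ G (M + 1) = plus M (sq M) (G M) ρ := by
  classical
  obtain ⟨m, e, y1, hy1, y2, hy2, hl1, hl2⟩ := exists_edge hF hy hy' h
  -- stabilisation
  obtain ⟨o, ho⟩ := lim_exists y2 m
  have hoe : o ≠ Sum.inr e := by
    rintro rfl; exact hl2 ho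
  obtain ⟨A, hA⟩ := hl1
  obtain ⟨B, hB⟩ := ho
  have hstart : ∀ N ≥ max (max A B) m, ∃ b, ∃ ε : (sq (N + 1)).E,
      Bd m e b (N + 1) ε ∧ ((sq (N + 1)).mem ε b).vs ⊆ pr F (N + 1) := by
    intro N hN
    have h1 : A ≤ N := by omega
    have h2 : B ≤ N := by omega
    have h3 : m ≤ N := by omega
    refine exit hF hy1 hy2 h3 (hA N h1) (hA (N + 2) (by omega)) ?_
    rw [hB (N + 2) (by omega)]
    exact hoe
  -- fix the end
  have hb : ∃ b, ∀ M ≥ m, ∃ ε : (sq M).E, Bd m e b M ε ∧ ((sq M).mem ε b).vs ⊆ pr F M := by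
    by_contra hcon
    push Not at hcon
    obtain ⟨M1, hM1, hn1⟩ := hcon false
    obtain ⟨M2, hM2, hn2⟩ := hcon true
    let N := max (max (max A B) m) (max M1 M2)
    obtain ⟨b, ε, h1, h2⟩ := hstart N (le_max_left _ _)
    cases b with
    | false =>
      obtain ⟨ε', h3, _, h4⟩ := bd_desc' (by omega : M1 ≤ N + 1) hM1 h1 h2
      exact hn1 ε' h3 h4
    | true =>
      obtain ⟨ε', h3, _, h4⟩ := bd_desc' (by omega : M2 ≤ N + 1) hM2 h1 h2
      exact hn2 ε' h3 h4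
  obtain ⟨b, hb⟩ := hb
  have hGd0 : Gd F m e b m e := by
    refine ⟨bd_self, fun M' hM' => ?_⟩
    obtain ⟨ε, h1, h2⟩ := hb M' hM'
    exact ⟨ε, h1, h1.1, h2⟩
  obtain ⟨G, hG1, hG2⟩ := exists_seq_from (X := fun M => Mem (sq M).V (sq M).E)
    (Function.update (fun M => (⟨∅, ∅, ∅, 0⟩ : Mem (sq M).V (sq M).E)) m ((sq m).mem e b)) m
    (fun M G => ∃ ε : (sq M).E, Gd F m e b M ε ∧ G = (sq M).mem ε b)
    (fun M G G' => ∃ ρ, Fat M G.bt G.ts ρ ∧ G' = plus M (sq M) G ρ)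
    ⟨e, hGd0, by simp⟩ (by
      rintro M hM G ⟨ε, hε, rfl⟩
      obtain ⟨c, hc⟩ := gd_step hM hε
      exact ⟨(sq (M + 1)).mem (pe ε c b : EE M (sq M)) b, ⟨_, hc, rfl⟩, c.1 b, c.2 b,
        memN_pe ε c b⟩)
  refine ⟨m, e, b, G, ?_, fun M hM => ?_⟩
  · rw [hG1 m le_rfl]; simp
  · obtain ⟨⟨ε, hε, hGε⟩, hR⟩ := hG2 M hM
    refine ⟨?_, hR⟩
    obtain ⟨ε', h1, h2, h3⟩ := hε.2 M le_rfl
    rw [dn_self] at h2
    rw [hGε, ← Sum.inr.inj h2]
    exact h3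

end Pool.Agent.Helper82.TL
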