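import Pool.Agent.Helper82.TL5

set_option autoImplicit false

namespace Pool.Agent.Helper82.TL

open Set

/-! Part 6: towers. -/

def single (D : Dat) (x : D.V) (k : ℕ) : Mem D.V D.E := ⟨{x}, ∅, {D.lab x}, k⟩

theorem single_sub (D : Dat) (x : D.V) (k : ℕ) : SubG D (single D x k) := by
  refine ⟨?_, ?_, ?_, ?_⟩
  · intro e he; exact False.elim he
  · intro e he; exact False.elim he
  · intro v hv
    rw [show v = x from hv]
    rfl
  · intro P _ u hu v hv hPu
    rw [show v = x from hv, ← show u = x from hu]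
    exact hPu

theorem SubG.gconn {D : Dat} {H : Mem D.V D.E} (h : SubG D H) : GConn D H.vs := by
  rintro P ⟨a, ha, hPa⟩ ⟨a', ha', hPa'⟩
  by_contra hcon
  push Not at hcon
  apply hPa'
  refine h.conn P ?_ a ha a' ha' hPa
  intro e he
  constructor
  · intro h1
    exact hcon _ (h.ept_mem e he false) _ (h.ept_mem e he true)
      (Or.inr ⟨e, false, rfl, rfl⟩) h1
  · intro h1
    exact hcon _ (h.ept_mem e he true) _ (h.ept_mem e he false)
      (Or.inr ⟨e, true, rfl, rfl⟩) h1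

theorem exists_down (M : ℕ) (z : (sq M).V) :
    ∃ y : ∀ m, (sq m).V, y M = z ∧ ∀ m < M, fs m (y (m + 1)) = y m := by
  classical
  induction M with
  | zero => exact ⟨Function.update (fun m => Classical.arbitrary _) 0 z, by simp, by
      intro m hm; omega⟩
  | succ M ih =>
    obtain ⟨y, hy1, hy2⟩ := ih (fs M z)
    refine ⟨Function.update y (M + 1) z, by simp, ?_⟩
    intro m hm
    have h1 : m ≠ M + 1 := by omega
    rw [Function.update_of_ne h1]
    by_cases h2 : m = M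
    · subst h2
      rw [Function.update_self, hy1]
    · have h3 : m + 1 ≠ M + 1 := by omega
      rw [Function.update_of_ne h3]
      exact hy2 m (by omega)

section tower
variable (m₁ : ℕ) (y0 : ∀ M, (sq M).V) (A : ℕ → Set Lbl)

def TT : ℕ → Set Lbl
  | 0 => {(sq 0).lab (y0 0)}
  | M + 1 => if M + 1 ≤ m₁ then {(sq (M + 1)).lab (y0 (M + 1))} else
      {x | ∃ i : Fin (ell M), ∃ t ∈ TT M, x = (i : ℕ) :: t ∧ x ∈ A (M + 1)}

noncomputable def HH : ∀ M, Mem (sq M).V (sq M).E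
  | 0 => single (sq 0) (y0 0) m₁
  | M + 1 => if M + 1 ≤ m₁ then single (sq (M + 1)) (y0 (M + 1)) m₁ else
      plus M (sq M) (HH M) (TT m₁ y0 A (M + 1))

variable {m₁ y0 A}

theorem TT_le {M : ℕ} (h : M ≤ m₁) : TT m₁ y0 A M = {(sq M).lab (y0 M)} := by
  cases M with
  | zero => rfl
  | succ M => simp only [TT, if_pos h]

theorem TT_succ {M : ℕ} (h : m₁ ≤ M) : TT m₁ y0 A (M + 1) =
    {x | ∃ i : Fin (ell M), ∃ t ∈ TT m₁ y0 A M, x = (i : ℕ) :: t ∧ x ∈ A (M + 1)} := by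
  have : ¬ (M + 1 ≤ m₁) := by omega
  rw [TT, if_neg this]

theorem HH_le {M : ℕ} (h : M ≤ m₁) : HH m₁ y0 A M = single (sq M) (y0 M) m₁ := by
  cases M with
  | zero => rfl
  | succ M => exact if_pos h

theorem HH_succ {M : ℕ} (h : m₁ ≤ M) : HH m₁ y0 A (M + 1) =
    plus M (sq M) (HH m₁ y0 A M) (TT m₁ y0 A (M + 1)) := by
  have : ¬ (M + 1 ≤ m₁) := by omega
  exact if_neg this

theorem HH_bt {M : ℕ} (h : m₁ ≤ M) : (HH m₁ y0 A M).bt = m₁ := by
  induction M, h using Nat.le_induction with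
  | base => rw [HH_le le_rfl]; rfl
  | succ M hM ih => rw [HH_succ hM]; exact ih

theorem HH_ts {M : ℕ} (h : m₁ ≤ M) : (HH m₁ y0 A M).ts = TT m₁ y0 A M := by
  induction M, h using Nat.le_induction with
  | base => rw [HH_le le_rfl, TT_le le_rfl]; rfl
  | succ M hM ih => rw [HH_succ hM]; rfl

variable (m₁ y0 A) in
def Allow : Prop := ∀ M ≥ m₁, ∀ t ∈ TT m₁ y0 A M,
  {i : Fin (ell M) | (i : ℕ) :: t ∉ A (M + 1)}.ncard ≤ 2 ^ m₁

theorem TT_fat (hA : Allow m₁ y0 A) {M : ℕ} (h : m₁ ≤ M) :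
    Fat M m₁ (TT m₁ y0 A M) (TT m₁ y0 A (M + 1)) := by
  refine ⟨?_, ?_⟩
  · intro x hx
    rw [TT_succ h] at hx
    obtain ⟨i, t, ht, hx, _⟩ := hx
    exact ⟨i, t, ht, hx⟩
  · intro t ht
    refine (Set.ncard_le_ncard ?_ (Set.toFinite _)).trans (hA M h t ht)
    intro i hi hi'
    apply hi
    rw [TT_succ h]
    exact ⟨i, t, ht, rfl, hi'⟩

theorem HH_sub (hA : Allow m₁ y0 A) {M : ℕ} (h : m₁ ≤ M) : SubG (sq M) (HH m₁ y0 A M) := by
  induction M, h using Nat.le_induction with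
  | base => rw [HH_le le_rfl]; exact single_sub _ _ _
  | succ M hM ih =>
    rw [HH_succ hM]
    refine plus_sub (inv_sq M) ih ?_ ?_
    · rw [HH_bt hM, HH_ts hM]; exact TT_fat hA hM
    · rw [HH_bt hM]; exact hM

theorem HH_down (hA : Allow m₁ y0 A) {M : ℕ} (h : m₁ ≤ M) {x : (sq (M + 1)).V}
    (hx : x ∈ (HH m₁ y0 A (M + 1)).vs) : fs M x ∈ (HH m₁ y0 A M).vs := by
  rw [HH_succ h] at hx
  exact fm_plus (inv_sq M) (HH_sub hA h) hx

variable (m₁ y0 A) in
/-- the family of threads running in a tower -/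
def FH : Set Lm := {y | ∀ M ≥ m₁, y.1 M ∈ (HH m₁ y0 A M).vs}

theorem exists_thread (hA : Allow m₁ y0 A) {M : ℕ} (h : m₁ ≤ M) {v : (sq M).V}
    (hv : v ∈ (HH m₁ y0 A M).vs) : ∃ y ∈ FH m₁ y0 A, y.1 M = v := by
  obtain ⟨x0, hx1, hx2⟩ := exists_down M v
  obtain ⟨x, h1, h2⟩ := exists_seq_from (X := fun M => (sq M).V) x0 M
    (fun K x => x ∈ (HH m₁ y0 A K).vs) (fun K x x' => fs K x' = x) (by rw [hx1]; exact hv) (by
      intro K hK x hx
      have hmK : m₁ ≤ K := le_trans h hK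
      obtain ⟨x', hx', hxx⟩ := fm_plus_surj (n := K) (ρ := TT m₁ y0 A (K + 1))
        (HH_sub hA hmK) (by rw [HH_bt hmK, HH_ts hmK]; exact TT_fat hA hmK)
        (by rw [HH_bt hmK]; exact hmK) hx
      refine ⟨x', ?_, hxx⟩
      rw [HH_succ hmK]
      exact hx')
  have hthr : ∀ K, fs K (x (K + 1)) = x K := by
    intro K
    by_cases hK : K < M
    · rw [h1 (K + 1) hK, h1 K hK.le]
      exact hx2 K hK
    · exact (h2 K (by omega)).2
  refine ⟨⟨x, hthr⟩, ?_, ?_⟩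
  · intro K hK
    show x K ∈ _
    by_cases hKM : M ≤ K
    · exact (h2 K hKM).1
    · -- go down from M
      have h3 : ∀ K' ≥ K, x K' ∈ (HH m₁ y0 A K').vs → x K ∈ (HH m₁ y0 A K).vs := by
        intro K' hK'
        induction K', hK' using Nat.le_induction with
        | base => exact id
        | succ K' hK' ih =>
          intro h4
          apply ih
          rw [← hthr K']
          exact HH_down hA (le_trans hK hK') h4
      exact h3 M (by omega) (h2 M le_rfl).1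
  · show x M = v
    rw [h1 M le_rfl, hx1]

theorem pr_FH (hA : Allow m₁ y0 A) {M : ℕ} (h : m₁ ≤ M) :
    pr (FH m₁ y0 A) M = (HH m₁ y0 A M).vs := by
  ext v
  constructor
  · rintro ⟨y, hy, rfl⟩
    exact hy M h
  · intro hv
    exact exists_thread hA h hv

theorem gconn_FH (hA : Allow m₁ y0 A) {M : ℕ} (h : m₁ ≤ M) :
    GConn (sq M) (pr (FH m₁ y0 A) M) := by
  rw [pr_FH hA h]
  exact (HH_sub hA h).gconn

theorem FH_lab (hA : Allow m₁ y0 A) {y : Lm} (hy : y ∈ FH m₁ y0 A) {M : ℕ} (h : m₁ ≤ M) :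
    (sq M).lab (y.1 M) ∈ TT m₁ y0 A M := by
  rw [← HH_ts h]
  exact (HH_sub hA h).lab_mem _ (hy M h)

theorem FH_two (hA : Allow m₁ y0 A) : ∃ y ∈ FH m₁ y0 A, ∃ y' ∈ FH m₁ y0 A, ¬ RR y y' := by
  set u := y0 m₁ with hu
  have hT0 := TT_fat hA (le_refl m₁)
  have hlu : (sq m₁).lab u ∈ TT m₁ y0 A m₁ := by rw [TT_le le_rfl]; rfl
  obtain ⟨i, i', hne, hi, hi'⟩ := two_letters hT0 le_rfl hlu
  have hfat1 := TT_fat hA (Nat.le_succ m₁)
  have huH : u ∈ (HH m₁ y0 A m₁).vs := by rw [HH_le le_rfl]; rfl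
  have key : ∀ i : Fin (ell m₁), (i : ℕ) :: (sq m₁).lab u ∈ TT m₁ y0 A (m₁ + 1) →
      ∃ y ∈ FH m₁ y0 A, ∃ k, y.1 (m₁ + 2) = (Sum.inl ((Sum.inl (u, i) : VV m₁ (sq m₁)), k)
        : VV (m₁ + 1) (sq (m₁ + 1))) := by
    intro i hi
    let w : (sq (m₁ + 1)).V := (Sum.inl (u, i) : VV m₁ (sq m₁))
    have hwH : w ∈ (HH m₁ y0 A (m₁ + 1)).vs := by
      rw [HH_succ le_rfl]
      exact ⟨huH, hi⟩
    have hwT : (sq (m₁ + 1)).lab w ∈ TT m₁ y0 A (m₁ + 1) := hi
    have h3 := lt_spec hfat1 (Nat.le_succ m₁) hwT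
    let z : (sq (m₁ + 2)).V := (Sum.inl (w, lt (m₁ + 1) (TT m₁ y0 A (m₁ + 1 + 1))
      ((sq (m₁ + 1)).lab w)) : VV (m₁ + 1) (sq (m₁ + 1)))
    have hzH : z ∈ (HH m₁ y0 A (m₁ + 2)).vs := by
      rw [HH_succ (Nat.le_succ m₁)]
      exact ⟨hwH, h3⟩
    obtain ⟨y, hy, hyz⟩ := exists_thread hA (by omega : m₁ ≤ m₁ + 2) hzH
    exact ⟨y, hy, _, hyz⟩
  obtain ⟨y, hy, k, hk⟩ := key i hi
  obtain ⟨y', hy', k', hk'⟩ := key i' hi'
  refine ⟨y, hy, y', hy', ?_⟩
  intro hR
  have h1 := hR (m₁ + 2)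
  rw [hk, hk'] at h1
  have h2 := adj_core (n := m₁ + 1) (D := sq (m₁ + 1)) h1
  have h3 := Sum.inl.inj h2
  exact hne (congrArg Prod.snd h3)

end tower

/-! ### common subtower of two memory towers -/

theorem common_tower {m : ℕ} {e : (sq m).E} {b : Bool} {G G' : ∀ M, Mem (sq M).V (sq M).E}
    (hG0 : G m = (sq m).mem e b) (hG0' : G' m = (sq m).mem e b)
    (hG : ∀ M ≥ m, ∃ ρ, Fat M (G M).bt (G M).ts ρ ∧ G (M + 1) = plus M (sq M) (G M) ρ)
    (hG' : ∀ M ≥ m, ∃ ρ, Fat M (G' M).bt (G' M).ts ρ ∧ G' (M + 1) = plus M (sq M) (G' M) ρ) :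
    ∃ (y0 : ∀ M, (sq M).V) (A : ℕ → Set Lbl), Allow (m + 1) y0 A ∧
      ∀ y ∈ FH (m + 1) y0 A, ∀ M ≥ m + 1, y.1 M ∈ (G M).vs ∧ y.1 M ∈ (G' M).vs := by
  obtain ⟨ρ, hρ, hGρ⟩ := hG m le_rfl
  obtain ⟨ρ', hρ', hGρ'⟩ := hG' m le_rfl
  rw [hG0] at hρ hGρ
  rw [hG0'] at hρ' hGρ'
  have hbt := (inv_sq m).bt_le e b
  have hv := (inv_sq m).ept_mem e b
  have hlv := ((inv_sq m).sub e b).lab_mem _ hv
  obtain ⟨i, hi, hi'⟩ := two_fat hρ hρ' hbt hbt hlv hlv
  let u : (sq (m + 1)).V := (Sum.inl ((sq m).ept e b, i) : VV m (sq m))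
  obtain ⟨y0, hy0, _⟩ := exists_down (m + 1) u
  let A : ℕ → Set Lbl := fun M => (G M).ts ∩ (G' M).ts
  have hbG : ∀ M ≥ m, (G M).bt = ((sq m).mem e b).bt := by
    intro M hM
    induction M, hM using Nat.le_induction with
    | base => rw [hG0]
    | succ M hM ih =>
      obtain ⟨σ, hσ, hGσ⟩ := hG M hM
      rw [hGσ]; exact ih
  have hbG' : ∀ M ≥ m, (G' M).bt = ((sq m).mem e b).bt := by
    intro M hM
    induction M, hM using Nat.le_induction with
    | base => rw [hG0']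
    | succ M hM ih =>
      obtain ⟨σ, hσ, hGσ⟩ := hG' M hM
      rw [hGσ]; exact ih
  have hT : ∀ M ≥ m + 1, TT (m + 1) y0 A M ⊆ (G M).ts ∩ (G' M).ts := by
    intro M hM
    induction M, hM using Nat.le_induction with
    | base =>
      rw [TT_le le_rfl, hy0]
      intro x hx
      rw [show x = (sq (m + 1)).lab u from hx, hGρ, hGρ']
      exact ⟨hi, hi'⟩
    | succ M hM ih =>
      rw [TT_succ hM]
      rintro x ⟨k, t, ht, rfl, hx⟩
      exact hx
  refine ⟨y0, A, ?_, ?_⟩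
  · intro M hM t ht
    obtain ⟨σ, hσ, hGσ⟩ := hG M (by omega)
    obtain ⟨σ', hσ', hGσ'⟩ := hG' M (by omega)
    have ht' := hT M hM ht
    have h1 := hσ.big t ht'.1
    have h2 := hσ'.big t ht'.2
    have h3 : {i : Fin (ell M) | (i : ℕ) :: t ∉ A (M + 1)} ⊆
        {i : Fin (ell M) | (i : ℕ) :: t ∉ σ} ∪ {i : Fin (ell M) | (i : ℕ) :: t ∉ σ'} := by
      intro k hk
      by_contra hcon
      simp only [mem_union, mem_ofPred_eq, not_or, not_not] at hcon
      apply hk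
      show _ ∈ (G (M + 1)).ts ∩ (G' (M + 1)).ts
      rw [hGσ, hGσ']
      exact hcon
    have h4 := (Set.ncard_le_ncard h3 (Set.toFinite _)).trans (Set.ncard_union_le _ _)
    rw [hbG M (by omega)] at h1
    rw [hbG' M (by omega)] at h2
    have h5 : (2:ℕ) ^ ((sq m).mem e b).bt ≤ 2 ^ m := Nat.pow_le_pow_right (by norm_num) hbt
    have h6 : (2:ℕ) ^ (m + 1) = 2 ^ m + 2 ^ m := by rw [pow_succ]; ring
    omega
  · have hle : ∀ M ≥ m + 1, (HH (m + 1) y0 A M).Le (G M) ∧ (HH (m + 1) y0 A M).Le (G' M) := by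
      intro M hM
      induction M, hM using Nat.le_induction with
      | base =>
        rw [HH_le le_rfl, hy0, hGρ, hGρ']
        refine ⟨⟨?_, ?_, ?_, ?_⟩, ⟨?_, ?_, ?_, ?_⟩⟩
        · intro x hx
          rw [show x = u from hx]
          exact ⟨hv, hi⟩
        · intro x hx; exact False.elim hx
        · intro x hx
          rw [show x = (sq (m + 1)).lab u from hx]
          exact hi
        · show ((sq m).mem e b).bt ≤ m + 1
          omega
        · intro x hx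
          rw [show x = u from hx]
          exact ⟨hv, hi'⟩
        · intro x hx; exact False.elim hx
        · intro x hx
          rw [show x = (sq (m + 1)).lab u from hx]
          exact hi'
        · show ((sq m).mem e b).bt ≤ m + 1
          omega
      | succ M hM ih =>
        obtain ⟨σ, hσ, hGσ⟩ := hG M (by omega)
        obtain ⟨σ', hσ', hGσ'⟩ := hG' M (by omega)
        have h1 := hT (M + 1) (by omega)
        rw [HH_succ hM]
        constructor
        · have h2 : TT (m + 1) y0 A (M + 1) ⊆ σ := by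
            intro x hx
            have := (h1 hx).1
            rw [hGσ] at this
            exact this
          rw [hGσ]
          exact plus_mono ih.1 h2
        · have h2 : TT (m + 1) y0 A (M + 1) ⊆ σ' := by
            intro x hx
            have := (h1 hx).2
            rw [hGσ'] at this
            exact this
          rw [hGσ']
          exact plus_mono ih.2 h2
    intro y hy M hM
    exact ⟨(hle M hM).1.vs (hy M hM), (hle M hM).2.vs (hy M hM)⟩

/-! ### a tower avoiding countably many threads -/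

theorem avoid_tower (g : ℕ → Lm) : ∃ (y0 : ∀ M, (sq M).V) (A : ℕ → Set Lbl), Allow 0 y0 A ∧
    ∀ k, g k ∉ FH 0 y0 A := by
  let y0 : ∀ M, (sq M).V := (g 0).1
  let A : ℕ → Set Lbl := fun M => {x | x ≠ (sq M).lab ((g (M - 1)).1 M)}
  have hA : Allow 0 y0 A := by
    intro M _ t ht
    have h1 : {i : Fin (ell M) | (i : ℕ) :: t ∉ A (M + 1)}.Subsingleton := by
      intro i hi i' hi'
      have h2 : (i : ℕ) :: t = (sq (M + 1)).lab ((g (M + 1 - 1)).1 (M + 1)) := by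
        by_contra h; exact hi h
      have h3 : (i' : ℕ) :: t = (sq (M + 1)).lab ((g (M + 1 - 1)).1 (M + 1)) := by
        by_contra h; exact hi' h
      have h4 := h2.trans h3.symm
      exact Fin.ext (List.cons.inj h4).1
    have h2 := Set.ncard_le_one_iff_subsingleton.mpr h1
    simpa using h2
  refine ⟨y0, A, hA, ?_⟩
  intro k hk
  have h1 := FH_lab hA hk (Nat.zero_le (k + 1))
  rw [TT_succ (Nat.zero_le k)] at h1
  obtain ⟨i, t, ht, _, h2⟩ := h1
  exact h2 rfl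

end Pool.Agent.Helper82.TL
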