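import Pool.Agent.Helper82.TL6

set_option autoImplicit false

namespace Pool.Agent.Helper82.TL

open Set Topology

/-! Part 7: topology of the limit. -/

instance (D : Dat) : TopologicalSpace D.V := ⊥
instance (D : Dat) : DiscreteTopology D.V := ⟨rfl⟩

instance : TopologicalSpace Lm :=
  inferInstanceAs (TopologicalSpace {y : ∀ m, (sq m).V // ∀ m, fs m (y (m + 1)) = y m})

instance : T2Space Lm :=
  inferInstanceAs (T2Space {y : ∀ m, (sq m).V // ∀ m, fs m (y (m + 1)) = y m})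

theorem continuous_coord (m : ℕ) : Continuous (fun y : Lm => y.1 m) :=
  (continuous_apply m).comp continuous_subtype_val

instance : CompactSpace Lm := by
  have h : IsClosed {y : ∀ m, (sq m).V | ∀ m, fs m (y (m + 1)) = y m} := by
    have h1 : {y : ∀ m, (sq m).V | ∀ m, fs m (y (m + 1)) = y m} =
        ⋂ m, {y : ∀ m, (sq m).V | fs m (y (m + 1)) = y m} := by
      ext y; simp
    rw [h1]
    refine isClosed_iInter (fun m => ?_)
    exact isClosed_eq (continuous_of_discreteTopology.comp (continuous_apply (m + 1)))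
      (continuous_apply m)
  exact isCompact_iff_compactSpace.mp h.isCompact

theorem lm_ext {y z : Lm} (h : ∀ m, y.1 m = z.1 m) : y = z := Subtype.ext (funext h)

theorem eq_le (y z : Lm) {m M : ℕ} (h : m ≤ M) (he : y.1 M = z.1 M) : y.1 m = z.1 m := by
  induction M, h using Nat.le_induction with
  | base => exact he
  | succ M hM ih =>
    apply ih
    rw [← y.2 M, ← z.2 M, he]

theorem RR_refl (y : Lm) : RR y y := fun _ => Or.inl rfl

theorem RR_symm {y z : Lm} (h : RR y z) : RR z y := fun m => (sq m).adj_symm (h m)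

theorem RR_unique {x y z : Lm} (hx : RR y x) (hz : RR y z) (hxy : x ≠ y) (hzy : z ≠ y) :
    x = z := by
  have h1 : ∃ M, x.1 M ≠ y.1 M := by
    by_contra h; push Not at h; exact hxy (lm_ext h)
  have h2 : ∃ M, z.1 M ≠ y.1 M := by
    by_contra h; push Not at h; exact hzy (lm_ext h)
  obtain ⟨M1, h1⟩ := h1
  obtain ⟨M2, h2⟩ := h2
  refine lm_ext (fun m => ?_)
  let M := max m (max M1 M2)
  refine eq_le x z (by omega : m ≤ M + 1) ?_
  refine moving_unique (inv_sq M) (hx (M + 1)) (hz (M + 1)) ?_ ?_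
  · intro h
    have h3 : fs M (x.1 (M + 1)) = fs M (y.1 (M + 1)) := h
    rw [x.2, y.2] at h3
    exact h1 (eq_le x y (by omega : M1 ≤ M) h3)
  · intro h
    have h3 : fs M (z.1 (M + 1)) = fs M (y.1 (M + 1)) := h
    rw [z.2, y.2] at h3
    exact h2 (eq_le z y (by omega : M2 ≤ M) h3)

theorem RR_trans {x y z : Lm} (hxy : RR x y) (hyz : RR y z) : RR x z := by
  by_cases h1 : x = y
  · rw [h1]; exact hyz
  · by_cases h2 : z = y
    · rw [h2]; exact hxy
    · rw [RR_unique (RR_symm hxy) hyz h1 h2]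
      exact RR_refl _

def stL : Setoid Lm where
  r := RR
  iseqv := ⟨RR_refl, RR_symm, RR_trans⟩

/-- the continuum -/
def MM : Type := Quotient stL

instance : TopologicalSpace MM := inferInstanceAs (TopologicalSpace (Quotient stL))

def qq : Lm → MM := Quotient.mk stL

theorem qq_cont : Continuous qq := continuous_quotient_mk'

theorem qq_surj : Function.Surjective qq := Quotient.mk_surjective

theorem qq_eq {y z : Lm} : qq y = qq z ↔ RR y z := by
  unfold qq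
  exact Quotient.eq (r := stL)

instance : CompactSpace MM := inferInstanceAs (CompactSpace (Quotient stL))

theorem isOpen_qq {O : Set MM} : IsOpen O ↔ IsOpen (qq ⁻¹' O) := Iff.rfl

theorem closed_coord2 (m : ℕ) (R : (sq m).V → (sq m).V → Prop) :
    IsClosed {p : Lm × Lm | R (p.1.1 m) (p.2.1 m)} := by
  have h1 : Continuous (fun p : Lm × Lm => (p.1.1 m, p.2.1 m)) :=
    ((continuous_coord m).comp continuous_fst).prodMk ((continuous_coord m).comp continuous_snd)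
  exact (isClosed_discrete {q : (sq m).V × (sq m).V | R q.1 q.2}).preimage h1

theorem closed_coord (m : ℕ) (S : Set (sq m).V) : IsClosed {y : Lm | y.1 m ∈ S} :=
  (isClosed_discrete S).preimage (continuous_coord m)

/-- compactness lemma -/
theorem compact_pair {F1 F2 : Set Lm} (h1 : IsClosed F1) (h2 : IsClosed F2)
    (R : ∀ m, (sq m).V → (sq m).V → Prop)
    (hR : ∀ m x y, R (m + 1) x y → R m (fs m x) (fs m y))
    (h : ∀ m, ∃ y ∈ F1, ∃ z ∈ F2, R m (y.1 m) (z.1 m)) :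
    ∃ y ∈ F1, ∃ z ∈ F2, ∀ m, R m (y.1 m) (z.1 m) := by
  let Z : ℕ → Set (Lm × Lm) := fun m =>
    (F1 ×ˢ F2) ∩ {p : Lm × Lm | R m (p.1.1 m) (p.2.1 m)}
  have hcl : ∀ m, IsClosed (Z m) := fun m => (h1.prod h2).inter (closed_coord2 m (R m))
  have hZ := IsCompact.nonempty_iInter_of_sequence_nonempty_isCompact_isClosed Z
    (by
      intro m p hp
      refine ⟨hp.1, ?_⟩
      have := hR m _ _ hp.2
      rwa [p.1.2, p.2.2] at this)
    (by
      intro m
      obtain ⟨y, hy, z, hz, hyz⟩ := h m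
      exact ⟨(y, z), ⟨hy, hz⟩, hyz⟩)
    (hcl 0).isCompact hcl
  obtain ⟨⟨y, z⟩, hp⟩ := hZ
  rw [mem_iInter] at hp
  exact ⟨y, (hp 0).1.1, z, (hp 0).1.2, fun m => (hp m).2⟩

theorem closed_of_coord {F : Set Lm} (hF : IsClosed F) {y : Lm} {m₁ : ℕ}
    (h : ∀ M ≥ m₁, y.1 M ∈ pr F M) : y ∈ F := by
  obtain ⟨y', hy', z, hz, hyz⟩ := compact_pair (F1 := {y}) isClosed_singleton hF
    (fun m x y => x = y) (by rintro m x y rfl; rfl) (by
      intro m
      obtain ⟨z, hz, hzy⟩ := h (max m m₁) (le_max_right _ _)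
      exact ⟨y, rfl, z, hz, (eq_le z y (le_max_left m m₁) hzy).symm⟩)
  rw [mem_singleton_iff] at hy'
  subst hy'
  rw [lm_ext hyz]; exact hz

theorem closed_sat {F : Set Lm} (hF : IsClosed F) : IsClosed (qq '' F) := by
  rw [← isOpen_compl_iff, isOpen_qq]
  have h1 : IsClosed {p : Lm × Lm | RR p.1 p.2} := by
    have h2 : {p : Lm × Lm | RR p.1 p.2} = ⋂ m, {p : Lm × Lm | (sq m).adj (p.1.1 m) (p.2.1 m)} := by
      ext p; simp [RR]
    rw [h2]
    exact isClosed_iInter (fun m => closed_coord2 m _)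
  have h2 : qq ⁻¹' (qq '' F)ᶜ = (Prod.snd '' ({p : Lm × Lm | RR p.1 p.2} ∩ (F ×ˢ univ)))ᶜ := by
    ext y
    simp only [mem_preimage, mem_compl_iff, not_iff_not]
    constructor
    · rintro ⟨z, hz, hzy⟩
      exact ⟨(z, y), ⟨qq_eq.mp hzy, hz, mem_univ _⟩, rfl⟩
    · rintro ⟨⟨z, y'⟩, ⟨h3, h4, _⟩, rfl⟩
      exact ⟨z, h4, qq_eq.mpr h3⟩
  rw [h2, isOpen_compl_iff]
  exact isClosedMap_snd_of_compactSpace _ (h1.inter (hF.prod isClosed_univ))

def UU (m : ℕ) (A : Set (sq m).V) : Set MM := (qq '' {y | y.1 m ∉ A})ᶜ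

theorem mem_UU {m : ℕ} {A : Set (sq m).V} {x : MM} : x ∈ UU m A ↔ ∀ y, qq y = x → y.1 m ∈ A := by
  unfold UU
  simp only [mem_compl_iff, mem_image, not_exists, not_and]
  constructor
  · intro h y hy
    by_contra hA
    exact h y hA hy
  · intro h y hy hyx
    exact hy (h y hyx)

theorem UU_open (m : ℕ) (A : Set (sq m).V) : IsOpen (UU m A) :=
  (closed_sat (closed_coord m Aᶜ)).isOpen_compl

theorem fiber_closed (x : MM) : IsClosed {y : Lm | qq y = x} := by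
  obtain ⟨y0, rfl⟩ := qq_surj x
  have h2 : {y : Lm | qq y = qq y0} = ⋂ m, {y : Lm | y.1 m ∈ {v | (sq m).adj v (y0.1 m)}} := by
    ext p; simp [qq_eq, RR]
  rw [h2]
  exact isClosed_iInter (fun m => closed_coord m _)

theorem sep_level {F1 F2 : Set Lm} (h1 : IsClosed F1) (h2 : IsClosed F2) (h : Disjoint F1 F2) :
    ∃ m, ∀ y ∈ F1, ∀ z ∈ F2, y.1 m ≠ z.1 m := by
  by_contra hcon
  push Not at hcon
  obtain ⟨y, hy, z, hz, hyz⟩ := compact_pair h1 h2 (fun m x y => x = y)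
    (by rintro m x y rfl; rfl) hcon
  rw [lm_ext hyz] at hy
  exact Set.disjoint_left.mp h hy hz

theorem basis_UU {O : Set MM} (hO : IsOpen O) {x : MM} (hx : x ∈ O) :
    ∃ m A, x ∈ UU m A ∧ UU m A ⊆ O := by
  have h1 := fiber_closed x
  have h2 : IsClosed (qq ⁻¹' O)ᶜ := (isOpen_qq.mp hO).isClosed_compl
  obtain ⟨m, hm⟩ := sep_level h1 h2 (by
    rw [Set.disjoint_left]
    intro y hy hy'
    apply hy'
    show qq y ∈ O
    rw [show qq y = x from hy]
    exact hx)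
  refine ⟨m, {v | ∃ y, qq y = x ∧ y.1 m = v}, ?_, ?_⟩
  · rw [mem_UU]
    intro y hy
    exact ⟨y, hy, rfl⟩
  · intro x' hx'
    obtain ⟨y', rfl⟩ := qq_surj x'
    rw [mem_UU] at hx'
    obtain ⟨y, hy, hyy⟩ := hx' y' rfl
    by_contra hO'
    exact hm y hy y' hO' hyy

instance : SecondCountableTopology MM := by
  have h := TopologicalSpace.isTopologicalBasis_of_isOpen_of_nhds
    (s := range (fun p : Σ m, Set (sq m).V => UU p.1 p.2))
    (by rintro _ ⟨p, rfl⟩; exact UU_open _ _)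
    (by
      intro x O hx hO
      obtain ⟨m, A, h1, h2⟩ := basis_UU hO hx
      exact ⟨_, ⟨⟨m, A⟩, rfl⟩, h1, h2⟩)
  exact h.secondCountableTopology (countable_range _)

instance : T2Space MM := by
  constructor
  intro x x' hne
  obtain ⟨m, hm⟩ := sep_level (fiber_closed x) (fiber_closed x') (by
    rw [Set.disjoint_left]
    intro y hy hy'
    exact hne ((show qq y = x from hy).symm.trans hy'))
  refine ⟨UU m {v | ∃ y, qq y = x ∧ y.1 m = v}, UU m {v | ∃ y, qq y = x' ∧ y.1 m = v},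
    UU_open _ _, UU_open _ _, ?_, ?_, ?_⟩
  · rw [mem_UU]; intro y hy; exact ⟨y, hy, rfl⟩
  · rw [mem_UU]; intro y hy; exact ⟨y, hy, rfl⟩
  · rw [Set.disjoint_left]
    intro z hz hz'
    obtain ⟨w, rfl⟩ := qq_surj z
    rw [mem_UU] at hz hz'
    obtain ⟨y, hy, hyw⟩ := hz w rfl
    obtain ⟨y', hy', hyw'⟩ := hz' w rfl
    exact hm y hy y' hy' (hyw.trans hyw'.symm)

/-- projections of continua are graph-connected. -/
theorem gconn_of_connected {K : Set MM} (hK : IsClosed K) (hc : IsPreconnected K) (m : ℕ) :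
    GConn (sq m) (pr (qq ⁻¹' K) m) := by
  rintro P ⟨_, ⟨y, hy, rfl⟩, hP⟩ ⟨_, ⟨y', hy', rfl⟩, hP'⟩
  have hKc : IsClosed (qq ⁻¹' K) := hK.preimage qq_cont
  have h1 : IsClosed (qq '' ((qq ⁻¹' K) ∩ {y | y.1 m ∈ {v | P v}})) :=
    closed_sat (hKc.inter (closed_coord m _))
  have h2 : IsClosed (qq '' ((qq ⁻¹' K) ∩ {y | y.1 m ∈ {v | ¬ P v}})) :=
    closed_sat (hKc.inter (closed_coord m _))
  rw [isPreconnected_closed_iff] at hc
  obtain ⟨x, hxK, ⟨z, hz, hzx⟩, ⟨z', hz', hzx'⟩⟩ := hc _ _ h1 h2 (by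
    intro x hx
    obtain ⟨z, rfl⟩ := qq_surj x
    by_cases hPz : P (z.1 m)
    · exact Or.inl ⟨z, ⟨hx, hPz⟩, rfl⟩
    · exact Or.inr ⟨z, ⟨hx, hPz⟩, rfl⟩)
    ⟨qq y, hy, y, ⟨hy, hP⟩, rfl⟩ ⟨qq y', hy', y', ⟨hy', hP'⟩, rfl⟩
  have hR : RR z z' := qq_eq.mp (hzx.trans hzx'.symm)
  exact ⟨_, ⟨z, hz.1, rfl⟩, _, ⟨z', hz'.1, rfl⟩, hR m, hz.2, hz'.2⟩

/-- closed families with graph-connected projections have connected image. -/
theorem connected_of_gconn {F : Set Lm} (hF : IsClosed F) (hne : F.Nonempty) {m₁ : ℕ}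
    (h : ∀ M ≥ m₁, GConn (sq M) (pr F M)) : IsConnected (qq '' F) := by
  refine ⟨hne.image _, ?_⟩
  rw [isPreconnected_closed_iff]
  rintro t t' ht ht' hcov ⟨_, ⟨y, hy, rfl⟩, hyt⟩ ⟨_, ⟨y', hy', rfl⟩, hyt'⟩
  have h1 : IsClosed (F ∩ qq ⁻¹' t) := hF.inter (ht.preimage qq_cont)
  have h2 : IsClosed (F ∩ qq ⁻¹' t') := hF.inter (ht'.preimage qq_cont)
  have key : ∀ M ≥ m₁, ∃ y ∈ F ∩ qq ⁻¹' t, ∃ z ∈ F ∩ qq ⁻¹' t', (sq M).adj (y.1 M) (z.1 M) := by
    intro M hM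
    by_cases hall : ∃ z ∈ F ∩ qq ⁻¹' t, z.1 M = y'.1 M
    · obtain ⟨z, hz, hzy⟩ := hall
      exact ⟨z, hz, y', ⟨hy', hyt'⟩, Or.inl hzy⟩
    · obtain ⟨a, ⟨z1, hz1, rfl⟩, a', ⟨z2, hz2, rfl⟩, hadj, ⟨w, hw, hwa⟩, hPa'⟩ :=
        h M hM (fun v => ∃ z ∈ F ∩ qq ⁻¹' t, z.1 M = v)
          ⟨_, ⟨y, hy, rfl⟩, y, ⟨hy, hyt⟩, rfl⟩ ⟨_, ⟨y', hy', rfl⟩, hall⟩
      refine ⟨w, hw, z2, ⟨hz2, ?_⟩, by rw [hwa]; exact hadj⟩
      rcases hcov ⟨z2, hz2, rfl⟩ with h3 | h3
      · exact absurd ⟨z2, ⟨hz2, h3⟩, rfl⟩ hPa'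
      · exact h3
  obtain ⟨u, hu, v, hv, huv⟩ := compact_pair h1 h2 (fun m => (sq m).adj)
    (fun m x y hxy => adj_down hxy) (by
      intro m
      obtain ⟨y, hy, z, hz, hyz⟩ := key (max m m₁) (le_max_right _ _)
      exact ⟨y, hy, z, hz, adj_le y z (le_max_left _ _) hyz⟩)
  refine ⟨qq u, ⟨u, hu.1, rfl⟩, hu.2, ?_⟩
  rw [qq_eq.mpr huv]
  exact hv.2

/-! ### the whole space is connected -/

theorem HH_univ (y0 : ∀ M, (sq M).V) (M : ℕ) :
    (HH 0 y0 (fun _ => univ) M).vs = univ ∧ (HH 0 y0 (fun _ => univ) M).es = univ := by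
  have hA : Allow 0 y0 (fun _ => univ) := by
    intro M _ t ht
    have h1 : {i : Fin (ell M) | (i : ℕ) :: t ∉ (univ : Set Lbl)} = ∅ := by
      ext i; simp
    rw [h1]; simp
  induction M with
  | zero =>
    constructor
    · ext x
      constructor
      · intro _; exact mem_univ _
      · intro _
        show (x : Unit) ∈ ({(y0 0 : Unit)} : Set Unit)
        exact Subsingleton.elim (α := Unit) _ _
    · ext x
      exact Empty.elim x
  | succ M ih =>
    have hS := HH_sub hA (Nat.zero_le M)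
    have hts := HH_ts (y0 := y0) (A := fun _ => univ) (Nat.zero_le M)
    have hlab : ∀ v : (sq M).V, ∀ i : Fin (ell M),
        (i : ℕ) :: (sq M).lab v ∈ TT 0 y0 (fun _ => univ) (M + 1) := by
      intro v i
      rw [TT_succ (Nat.zero_le M)]
      refine ⟨i, _, ?_, rfl, mem_univ _⟩
      rw [← hts]
      exact hS.lab_mem v (by rw [ih.1]; exact mem_univ _)
    have hlane : ∀ (e : (sq M).E) (c : Lane M (sq M) e) (b : Bool),
        c.1 b ⊆ TT 0 y0 (fun _ => univ) (M + 1) := by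
      intro e c b x hx
      obtain ⟨i, t, ht, rfl⟩ := (c.2 b).sub x hx
      rw [TT_succ (Nat.zero_le M)]
      refine ⟨i, t, ?_, rfl, mem_univ _⟩
      rw [← hts]
      exact (hS.mem_le e (by rw [ih.2]; exact mem_univ _) b).ts ht
    rw [HH_succ (Nat.zero_le M)]
    constructor
    · apply Set.eq_univ_of_forall
      rintro (⟨v, i⟩ | ⟨e, c, j⟩)
      · exact ⟨by rw [ih.1]; exact mem_univ _, hlab v i⟩
      · exact ⟨by rw [ih.2]; exact mem_univ _, fun b => hlane e c b⟩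
    · apply Set.eq_univ_of_forall
      rintro (⟨v, i, i'⟩ | ⟨e, c, j⟩)
      · exact ⟨by rw [ih.1]; exact mem_univ _, hlab v i, hlab v i'⟩
      · exact ⟨by rw [ih.2]; exact mem_univ _, fun b => hlane e c b⟩

instance : ConnectedSpace MM := by
  have hA : Allow 0 (fun _ => Classical.arbitrary _) (fun _ => univ) := by
    intro M _ t ht
    have h1 : {i : Fin (ell M) | (i : ℕ) :: t ∉ (univ : Set Lbl)} = ∅ := by
      ext i; simp
    rw [h1]; simp
  have h1 : FH 0 (fun _ => Classical.arbitrary _) (fun _ => univ) = univ := by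
    apply Set.eq_univ_of_forall
    intro y M _
    rw [(HH_univ _ M).1]
    exact mem_univ _
  have h2 : ∀ M ≥ 0, GConn (sq M) (pr univ M) := by
    intro M hM
    have := gconn_FH hA hM
    rwa [h1] at this
  obtain ⟨y, hy, _⟩ := FH_two hA
  have h3 := connected_of_gconn isClosed_univ ⟨y, mem_univ _⟩ h2
  rw [image_univ, qq_surj.range_eq] at h3
  exact connectedSpace_iff_univ.mpr h3

/-! ### the two properties -/

theorem FH_closed (m₁ : ℕ) (y0 : ∀ M, (sq M).V) (A : ℕ → Set Lbl) : IsClosed (FH m₁ y0 A) := by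
  have h2 : FH m₁ y0 A = ⋂ M, ⋂ (_ : M ≥ m₁), {y : Lm | y.1 M ∈ (HH m₁ y0 A M).vs} := by
    ext p; simp [FH]
  rw [h2]
  exact isClosed_iInter (fun m => isClosed_iInter (fun _ => closed_coord m _))

theorem FH_continuum {m₁ : ℕ} {y0 : ∀ M, (sq M).V} {A : ℕ → Set Lbl} (hA : Allow m₁ y0 A) :
    IsCompact (qq '' FH m₁ y0 A) ∧ IsConnected (qq '' FH m₁ y0 A) ∧
      (qq '' FH m₁ y0 A).Nontrivial := by
  obtain ⟨y, hy, y', hy', hyy⟩ := FH_two hA
  refine ⟨(FH_closed m₁ y0 A).isCompact.image qq_cont,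
    connected_of_gconn (FH_closed m₁ y0 A) ⟨y, hy⟩ (fun M hM => gconn_FH hA hM), ?_⟩
  exact ⟨qq y, ⟨y, hy, rfl⟩, qq y', ⟨y', hy', rfl⟩, fun h => hyy (qq_eq.mp h)⟩

theorem prop_U (G : Set (Set MM)) (hG : ¬ G.Countable)
    (hK : ∀ K ∈ G, IsCompact K ∧ IsConnected K ∧ K.Nontrivial) :
    ∃ A ∈ G, ∃ B ∈ G, A ≠ B ∧
      ∃ C : Set MM, C ⊆ A ∩ B ∧ IsCompact C ∧ IsConnected C ∧ C.Nontrivial := by
  have h1 : ∀ K : G, ∃ i : Σ m, (sq m).E × Bool, ∃ H : ∀ M, Mem (sq M).V (sq M).E,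
      H i.1 = (sq i.1).mem i.2.1 i.2.2 ∧ ∀ M ≥ i.1, (H M).vs ⊆ pr (qq ⁻¹' K.1) M ∧
        ∃ ρ, Fat M (H M).bt (H M).ts ρ ∧ H (M + 1) = plus M (sq M) (H M) ρ := by
    intro K
    obtain ⟨hc, hcon, x, hx, x', hx', hne⟩ := hK K.1 K.2
    obtain ⟨y, rfl⟩ := qq_surj x
    obtain ⟨y', rfl⟩ := qq_surj x'
    obtain ⟨m, e, b, H, h2, h3⟩ := main_D (F := qq ⁻¹' K.1)
      (fun m => gconn_of_connected hc.isClosed hcon.isPreconnected m) hx hx'
      (fun h => hne (qq_eq.mpr h))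
    exact ⟨⟨m, e, b⟩, H, h2, h3⟩
  choose idx H hH1 hH2 using h1
  have h2 : ¬ Function.Injective idx := by
    intro hinj
    apply hG
    have : Countable G := hinj.countable
    exact Set.countable_coe_iff.mp this
  unfold Function.Injective at h2
  push Not at h2
  obtain ⟨K, K', heq, hne⟩ := h2
  have hH1' := hH1 K'
  have hH2' := hH2 K'
  rw [← heq] at hH1' hH2'
  obtain ⟨y0, A, hA, hsub⟩ := common_tower (hH1 K) hH1' (fun M hM => (hH2 K M hM).2)
    (fun M hM => (hH2' M hM).2)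
  refine ⟨K.1, K.2, K'.1, K'.2, fun h => hne (Subtype.ext h),
    qq '' FH ((idx K).1 + 1) y0 A, ?_, FH_continuum hA⟩
  rintro _ ⟨y, hy, rfl⟩
  constructor
  · have hcl : IsClosed (qq ⁻¹' K.1) := (hK K.1 K.2).1.isClosed.preimage qq_cont
    exact closed_of_coord hcl (m₁ := (idx K).1 + 1)
      (fun M hM => (hH2 K M (by omega)).1 (hsub y hy M hM).1)
  · have hcl : IsClosed (qq ⁻¹' K'.1) := (hK K'.1 K'.2).1.isClosed.preimage qq_cont
    exact closed_of_coord hcl (m₁ := (idx K).1 + 1)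
      (fun M hM => (hH2' M (by omega)).1 (hsub y hy M hM).2)

theorem fiber_countable (x : MM) : {y : Lm | qq y = x}.Countable := by
  obtain ⟨y0, rfl⟩ := qq_surj x
  have h1 : {y : Lm | qq y = qq y0} ⊆ {y0} ∪ {y | RR y0 y ∧ y ≠ y0} := by
    intro y hy
    by_cases h : y = y0
    · exact Or.inl h
    · exact Or.inr ⟨RR_symm (qq_eq.mp hy), h⟩
  have h2 : {y | RR y0 y ∧ y ≠ y0}.Subsingleton := by
    intro y hy z hz
    exact RR_unique hy.1 hz.1 hy.2 hz.2
  exact ((countable_singleton y0).union h2.countable).mono h1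

theorem prop_H : ¬ ∃ S : Set MM, S.Countable ∧
    ∀ K : Set MM, IsCompact K → IsConnected K → K.Nontrivial → (S ∩ K).Nonempty := by
  rintro ⟨S, hS, h⟩
  have h1 : (qq ⁻¹' S).Countable := by
    have h2 : qq ⁻¹' S = ⋃ x ∈ S, {y : Lm | qq y = x} := by
      ext y; simp
    rw [h2]
    exact hS.biUnion (fun x _ => fiber_countable x)
  have hne : Nonempty Lm := by
    obtain ⟨y, _⟩ := qq_surj (Classical.arbitrary MM)
    exact ⟨y⟩
  obtain ⟨g, hg⟩ := Set.countable_iff_exists_subset_range.mp h1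
  obtain ⟨y0, A, hA, hav⟩ := avoid_tower g
  obtain ⟨hc1, hc2, hc3⟩ := FH_continuum hA
  obtain ⟨x, hxS, ⟨y, hy, rfl⟩⟩ := h _ hc1 hc2 hc3
  obtain ⟨k, hk⟩ := hg (show y ∈ qq ⁻¹' S from hxS)
  exact hav k (hk ▸ hy)

end Pool.Agent.Helper82.TL
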