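import Pool.Agent.Helper82.TauDefs

/-!
`S₁(Ω,T)` implies that every omega-cover contains a gamma-cover, and finite powers.
-/

namespace TauPow

open Set

section positive

variable {X : Type*} [TopologicalSpace X]

/-- `Small U Z`: some infinite subfamily of `U` is eventually-everything on `Z`. -/
def Small (U : ℕ → Set X) (Z : Set X) : Prop :=
  ∃ N₀ : Set ℕ, N₀.Infinite ∧ ∀ z ∈ Z, {i | i ∈ N₀ ∧ z ∉ U i}.Finite

/-- the tau preorder -/
def Le (U : ℕ → Set X) (x y : X) : Prop := {i | x ∈ U i ∧ y ∉ U i}.Finite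

structure Good (U : ℕ → Set X) : Prop where
  inj : Function.Injective U
  opn : ∀ i, IsOpen (U i)
  inf : ∀ x, {i | x ∈ U i}.Infinite
  tot : ∀ x y, Le U x y ∨ Le U y x

omit [TopologicalSpace X] in
lemma Le.trans' {U : ℕ → Set X} {x y z : X} (h : Le U x y) (h' : Le U y z) : Le U x z := by
  refine (Set.Finite.union h h').subset ?_
  rintro i ⟨h1, h2⟩
  by_cases hy : y ∈ U i
  · exact Or.inr ⟨hy, h2⟩
  · exact Or.inl ⟨h1, hy⟩

omit [TopologicalSpace X] in
lemma Le.refl' {U : ℕ → Set X} (x : X) : Le U x x := by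
  unfold Le
  convert Set.finite_empty
  ext i; simp

/-- every finite set is contained in infinitely many members of a tau cover -/
lemma Good.finset_inf [Nonempty X] {U : ℕ → Set X} (hU : Good U) (F : Set X) (hF : F.Finite) :
    {i | F ⊆ U i}.Infinite := by
  have key : ∃ x₀ : X, {i | x₀ ∈ U i ∧ ¬ F ⊆ U i}.Finite := by
    induction F, hF using Set.Finite.induction_on with
    | empty =>
      obtain ⟨x⟩ := ‹Nonempty X›
      refine ⟨x, ?_⟩
      convert Set.finite_empty
      ext i; simp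
    | @insert a s _ _ ih =>
      obtain ⟨x₀, h0⟩ := ih
      rcases hU.tot x₀ a with h | h
      · refine ⟨x₀, (Set.Finite.union h0 h).subset ?_⟩
        rintro i ⟨h1, h2⟩
        by_cases ha : a ∈ U i
        · left
          refine ⟨h1, fun h3 => h2 ?_⟩
          intro z hz
          rcases hz with rfl | hz
          · exact ha
          · exact h3 hz
        · right; exact ⟨h1, ha⟩
      · refine ⟨a, (Set.Finite.union h0 h).subset ?_⟩
        rintro i ⟨h1, h2⟩
        by_cases hx : x₀ ∈ U i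
        · left
          refine ⟨hx, fun h3 => h2 ?_⟩
          intro z hz
          rcases hz with rfl | hz
          · exact h1
          · exact h3 hz
        · right; exact ⟨h1, hx⟩
  obtain ⟨x₀, h0⟩ := key
  have h1 := (hU.inf x₀).sdiff h0
  refine h1.mono ?_
  rintro i ⟨h2, h3⟩
  by_contra h4
  exact h3 ⟨h2, h4⟩

/-- the cover `{U i ∪ A}` enumerated without repetitions -/
lemma enum_cover [Nonempty X] {U : ℕ → Set X} (hU : Good U) (A : Set X) (hA : IsOpen A)
    (hns : ¬ Small U Aᶜ) :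
    ∃ i : ℕ → ℕ, StrictMono i ∧ Function.Injective (fun l => U (i l) ∪ A) ∧
      ∀ n, {W | ∃ l, n ≤ l ∧ W = U (i l) ∪ A} ∈ Omega X := by
  classical
  -- finitely many i with U i ∪ A = univ
  have hfin : {i | U i ∪ A = univ}.Finite := by
    by_contra h
    apply hns
    refine ⟨{i | U i ∪ A = univ}, h, ?_⟩
    intro z hz
    convert Set.finite_empty
    ext i
    simp only [mem_ofPred_eq, mem_empty_iff_false, iff_false, not_and, not_not]
    intro h1
    have : z ∈ U i ∪ A := by rw [h1]; trivial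
    rcases this with h | h
    · exact h
    · exact absurd h hz
  -- infinitely many good indices for each finite set
  have hinf : ∀ F : Set X, F.Finite → ∃ i, F ⊆ U i ∧ U i ∪ A ≠ univ := by
    intro F hF
    obtain ⟨i, h1, h2⟩ := ((hU.finset_inf F hF).sdiff hfin).nonempty
    exact ⟨i, h1, h2⟩
  let I : Set ℕ := {i | U i ∪ A ≠ univ ∧ ∀ j < i, U j ∪ A ≠ U i ∪ A}
  have hmin : ∀ i, U i ∪ A ≠ univ → ∃ j ∈ I, U j ∪ A = U i ∪ A := by
    intro i hi
    have hex : ∃ j, U j ∪ A = U i ∪ A := ⟨i, rfl⟩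
    refine ⟨Nat.find hex, ⟨?_, ?_⟩, Nat.find_spec hex⟩
    · rw [Nat.find_spec hex]; exact hi
    · intro j hj
      rw [Nat.find_spec hex]
      exact Nat.find_min hex hj
  have hIinf : I.Infinite := by
    intro hI
    have hch : ∀ i : ℕ, ∃ x, U i ∪ A ≠ univ → x ∉ U i ∪ A := by
      intro i
      by_cases h : U i ∪ A = univ
      · obtain ⟨x⟩ := ‹Nonempty X›
        exact ⟨x, fun h' => absurd h h'⟩
      · obtain ⟨x, hx⟩ := (Set.ne_univ_iff_exists_notMem _).1 h
        exact ⟨x, fun _ => hx⟩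
    choose x hx using hch
    obtain ⟨i, h1, h2⟩ := hinf (x '' I) (hI.image x)
    obtain ⟨j, hj, hji⟩ := hmin i h2
    apply hx j hj.1
    rw [hji]
    exact Or.inl (h1 ⟨j, hj, rfl⟩)
  haveI : Infinite I := hIinf.to_subtype
  let e := Nat.Subtype.orderIsoOfNat I
  have hinj : Function.Injective (fun l => U (e l : ℕ) ∪ A) := by
    intro l l' h
    by_contra hne
    rcases lt_or_gt_of_ne hne with hlt | hlt
    · have := (e l').2.2 (e l) (by
        have := e.lt_iff_lt.2 hlt
        exact this)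
      exact this h
    · have := (e l).2.2 (e l') (by
        have := e.lt_iff_lt.2 hlt
        exact this)
      exact this h.symm
  refine ⟨fun l => (e l : ℕ), fun a b h => e.lt_iff_lt.2 h, hinj, ?_⟩
  intro n
  have hcov : ∀ F : Set X, F.Finite → ∃ l, n ≤ l ∧ F ⊆ U (e l : ℕ) ∪ A := by
    intro F hF
    have hch : ∀ l : ℕ, ∃ x, x ∉ U (e l : ℕ) ∪ A := by
      intro l
      exact (Set.ne_univ_iff_exists_notMem _).1 (e l).2.1
    choose x hx using hch
    obtain ⟨i, h1, h2⟩ := hinf (F ∪ x '' (Set.Iio n)) (hF.union ((Set.finite_Iio n).image x))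
    obtain ⟨j, hj, hji⟩ := hmin i h2
    obtain ⟨l, hl⟩ := e.surjective ⟨j, hj⟩
    have hlj : (e l : ℕ) = j := by rw [hl]
    refine ⟨l, ?_, ?_⟩
    · by_contra hlt
      push Not at hlt
      apply hx l
      rw [hlj, hji]
      exact Or.inl (h1 (Or.inr ⟨l, hlt, rfl⟩))
    · rw [hlj, hji]
      exact fun z hz => Or.inl (h1 (Or.inl hz))
  refine ⟨⟨?_, ?_, ?_⟩, ?_⟩
  · rintro W ⟨l, _, rfl⟩
    exact (hU.opn _).union hA
  · rw [Set.eq_univ_iff_forall]
    intro z
    obtain ⟨l, hl, hz⟩ := hcov {z} (Set.finite_singleton z)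
    exact ⟨_, ⟨l, hl, rfl⟩, hz rfl⟩
  · rintro ⟨l, _, h⟩
    exact (e l).2.1 h.symm
  · intro F hF
    obtain ⟨l, hl, hz⟩ := hcov F hF
    exact ⟨_, ⟨l, hl, rfl⟩, hz⟩

/-- The main dichotomy: `A ∪ B = X` open, then `X \ A` or `X \ B` is small. -/
lemma dichotomy [Nonempty X] (hS : S1 (Omega X) (Tau X)) {U : ℕ → Set X} (hU : Good U)
    (A B : Set X) (hA : IsOpen A) (hB : IsOpen B) (hAB : A ∪ B = univ) :
    Small U Aᶜ ∨ Small U Bᶜ := by
  by_contra hcon
  push Not at hcon
  obtain ⟨hnA, hnB⟩ := hcon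
  obtain ⟨i, hi, hinj, hcov⟩ := enum_cover hU A hA hnA
  obtain ⟨i', hi', hinj', hcov'⟩ := enum_cover hU B hB hnB
  obtain ⟨u, hu, huT⟩ := hS (fun m => if m % 2 = 0 then {W | ∃ l, m / 2 ≤ l ∧ W = U (i l) ∪ A}
    else {W | ∃ l, m / 2 ≤ l ∧ W = U (i' l) ∪ B}) (by
      intro m
      by_cases hm : m % 2 = 0
      · simp only [hm, if_true]; exact hcov _
      · simp only [hm, if_false]; exact hcov' _)
  have h0 : ∀ n, ∃ l, n ≤ l ∧ u (2 * n) = U (i l) ∪ A := by
    intro n
    have := hu (2 * n)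
    simpa using this
  have h1 : ∀ n, ∃ l, n ≤ l ∧ u (2 * n + 1) = U (i' l) ∪ B := by
    intro n
    have := hu (2 * n + 1)
    have e1 : (2 * n + 1) % 2 = 1 := by omega
    have e2 : (2 * n + 1) / 2 = n := by omega
    simpa [e1, e2] using this
  choose l hl hul using h0
  choose l' hl' hul' using h1
  -- finiteness transfer
  have fin0 : ∀ b, {v | v ∈ range u ∧ b ∉ v}.Finite → {n | b ∉ u (2 * n)}.Finite := by
    intro b hb
    have : {n | b ∉ u (2 * n)} ⊆ ⋃ v ∈ {v | v ∈ range u ∧ b ∉ v}, {n | u (2 * n) = v} := by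
      intro n hn
      simp only [mem_iUnion]
      exact ⟨u (2 * n), ⟨⟨_, rfl⟩, hn⟩, rfl⟩
    refine (Set.Finite.biUnion hb ?_).subset this
    rintro v ⟨_, _⟩
    by_cases hne : ∃ n, u (2 * n) = v
    · obtain ⟨n, rfl⟩ := hne
      refine (Set.finite_Iic (l n)).subset ?_
      intro m hm
      have hm' : u (2 * m) = u (2 * n) := hm
      rw [hul, hul] at hm'
      have : l m = l n := hinj hm'
      exact (this ▸ hl m : m ≤ l n)
    · push Not at hne
      convert Set.finite_empty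
      ext n; simp [hne n]
  have fin1 : ∀ b, {v | v ∈ range u ∧ b ∉ v}.Finite → {n | b ∉ u (2 * n + 1)}.Finite := by
    intro b hb
    have : {n | b ∉ u (2 * n + 1)} ⊆
        ⋃ v ∈ {v | v ∈ range u ∧ b ∉ v}, {n | u (2 * n + 1) = v} := by
      intro n hn
      simp only [mem_iUnion]
      exact ⟨u (2 * n + 1), ⟨⟨_, rfl⟩, hn⟩, rfl⟩
    refine (Set.Finite.biUnion hb ?_).subset this
    rintro v ⟨_, _⟩
    by_cases hne : ∃ n, u (2 * n + 1) = v
    · obtain ⟨n, rfl⟩ := hne
      refine (Set.finite_Iic (l' n)).subset ?_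
      intro m hm
      have hm' : u (2 * m + 1) = u (2 * n + 1) := hm
      rw [hul', hul'] at hm'
      have : l' m = l' n := hinj' hm'
      exact (this ▸ hl' m : m ≤ l' n)
    · push Not at hne
      convert Set.finite_empty
      ext n; simp [hne n]
  have main : ∀ a b, a ∉ B → b ∉ A →
      {n | b ∉ u (2 * n)}.Finite ∨ {n | a ∉ u (2 * n + 1)}.Finite := by
    intro a b ha hb
    have haA : a ∈ A := by
      have : a ∈ A ∪ B := by rw [hAB]; trivial
      exact this.resolve_right ha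
    have hbB : b ∈ B := by
      have : b ∈ A ∪ B := by rw [hAB]; trivial
      exact this.resolve_left hb
    rcases huT.2.2 a b with h | h
    · left
      -- all even members contain a
      have : {n | b ∉ u (2 * n)} ⊆
          ⋃ v ∈ {v | v ∈ range u ∧ a ∈ v ∧ b ∉ v}, {n | u (2 * n) = v} := by
        intro n hn
        simp only [mem_iUnion]
        refine ⟨u (2 * n), ⟨⟨_, rfl⟩, ?_, hn⟩, rfl⟩
        rw [hul]; exact Or.inr haA
      refine (Set.Finite.biUnion h ?_).subset this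
      rintro v ⟨_, _⟩
      by_cases hne : ∃ n, u (2 * n) = v
      · obtain ⟨n, rfl⟩ := hne
        refine (Set.finite_Iic (l n)).subset ?_
        intro m hm
        have hm' : u (2 * m) = u (2 * n) := hm
        rw [hul, hul] at hm'
        have : l m = l n := hinj hm'
        exact (this ▸ hl m : m ≤ l n)
      · push Not at hne
        convert Set.finite_empty
        ext n; simp [hne n]
    · right
      have : {n | a ∉ u (2 * n + 1)} ⊆
          ⋃ v ∈ {v | v ∈ range u ∧ b ∈ v ∧ a ∉ v}, {n | u (2 * n + 1) = v} := by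
        intro n hn
        simp only [mem_iUnion]
        refine ⟨u (2 * n + 1), ⟨⟨_, rfl⟩, ?_, hn⟩, rfl⟩
        rw [hul']; exact Or.inr hbB
      refine (Set.Finite.biUnion h ?_).subset this
      rintro v ⟨_, _⟩
      by_cases hne : ∃ n, u (2 * n + 1) = v
      · obtain ⟨n, rfl⟩ := hne
        refine (Set.finite_Iic (l' n)).subset ?_
        intro m hm
        have hm' : u (2 * m + 1) = u (2 * n + 1) := hm
        rw [hul', hul'] at hm'
        have : l' m = l' n := hinj' hm'
        exact (this ▸ hl' m : m ≤ l' n)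
      · push Not at hne
        convert Set.finite_empty
        ext n; simp [hne n]
  -- conclude
  by_cases hall : ∀ b, b ∉ A → {n | b ∉ u (2 * n)}.Finite
  · apply hnA
    refine ⟨range (fun n => i (l n)), ?_, ?_⟩
    · intro hfin
      have : (range l).Finite := by
        have h2 : i '' (range l) = range (fun n => i (l n)) := by
          ext z; simp
        rw [← h2] at hfin
        exact Set.Finite.of_finite_image hfin hi.injective.injOn
      obtain ⟨M, hM⟩ := this.bddAbove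
      have := hM ⟨M + 1, rfl⟩
      have h3 := hl (M + 1)
      omega
    · intro b hb
      have := (hall b hb).image (fun n => i (l n))
      refine this.subset ?_
      rintro j ⟨⟨n, rfl⟩, hj⟩
      refine ⟨n, ?_, rfl⟩
      simp only [mem_ofPred_eq]
      rw [hul]
      rintro (h | h)
      · exact hj h
      · exact hb h
  · push Not at hall
    obtain ⟨b, hb, hbn⟩ := hall
    apply hnB
    refine ⟨range (fun n => i' (l' n)), ?_, ?_⟩
    · intro hfin
      have : (range l').Finite := by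
        have h2 : i' '' (range l') = range (fun n => i' (l' n)) := by
          ext z; simp
        rw [← h2] at hfin
        exact Set.Finite.of_finite_image hfin hi'.injective.injOn
      obtain ⟨M, hM⟩ := this.bddAbove
      have := hM ⟨M + 1, rfl⟩
      have h3 := hl' (M + 1)
      omega
    · intro a ha
      have hfa := (main a b ha hb).resolve_left hbn
      have := hfa.image (fun n => i' (l' n))
      refine this.subset ?_
      rintro j ⟨⟨n, rfl⟩, hj⟩
      refine ⟨n, ?_, rfl⟩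
      simp only [mem_ofPred_eq]
      rw [hul']
      rintro (h | h)
      · exact hj h
      · exact ha h

/-- pseudo-intersection of a countable chain of infinite sets -/
lemma pseudo {U : ℕ → Set X} (hU : Good U) (x : ℕ → X) :
    ∃ N₀ : Set ℕ, N₀.Infinite ∧ ∀ k, {i | i ∈ N₀ ∧ x k ∉ U i}.Finite := by
  classical
  -- for each n, infinitely many i with x k ∈ U i for all k < n
  have hinf : ∀ n, {i | ∀ k < n + 1, x k ∈ U i}.Infinite := by
    intro n
    haveI : Nonempty X := ⟨x 0⟩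
    have := hU.finset_inf (x '' (Set.Iio (n + 1))) ((Set.finite_Iio _).image x)
    refine this.mono ?_
    intro i hi k hk
    exact hi ⟨k, hk, rfl⟩
  have hex : ∀ n m : ℕ, ∃ i, m < i ∧ ∀ k < n + 1, x k ∈ U i := by
    intro n m
    obtain ⟨i, hi, hm⟩ := (hinf n).exists_gt m
    exact ⟨i, hm, hi⟩
  choose g hg1 hg2 using hex
  let f : ℕ → ℕ := fun n => Nat.rec (g 0 0) (fun n m => g (n + 1) m) n
  have hf0 : f 0 = g 0 0 := rfl
  have hfs : ∀ n, f (n + 1) = g (n + 1) (f n) := fun n => rfl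
  have hmono : StrictMono f := strictMono_nat_of_lt_succ (fun n => by rw [hfs]; exact hg1 _ _)
  have hmem : ∀ n, ∀ k < n + 1, x k ∈ U (f n) := by
    intro n
    cases n with
    | zero => rw [hf0]; exact hg2 0 0
    | succ n => rw [hfs]; exact hg2 _ _
  refine ⟨range f, Set.infinite_range_of_injective hmono.injective, ?_⟩
  intro k
  refine ((Set.finite_Iio k).image f).subset ?_
  rintro i ⟨⟨n, rfl⟩, hn⟩
  refine ⟨n, ?_, rfl⟩
  by_contra h
  exact hn (hmem n k (by simp at h; omega))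

def NotCoin (U : ℕ → Set X) (Z : Set X) : Prop := ∃ x, ∀ z ∈ Z, ¬ Le U z x

lemma notCoin_of_small {U : ℕ → Set X} (hU : Good U) (hns : ¬ Small U univ) {Z : Set X}
    (hZ : Small U Z) : NotCoin U Z := by
  by_contra h
  unfold NotCoin at h
  push Not at h
  obtain ⟨N₀, hN, hz⟩ := hZ
  apply hns
  refine ⟨N₀, hN, fun x _ => ?_⟩
  obtain ⟨z, hzZ, hle⟩ := h x
  refine (Set.Finite.union (hz z hzZ) hle).subset ?_
  rintro i ⟨h1, h2⟩
  by_cases hzi : z ∈ U i
  · exact Or.inr ⟨hzi, h2⟩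
  · exact Or.inl ⟨h1, hzi⟩

lemma exists_below {U : ℕ → Set X} (hU : Good U) (hns : ¬ Small U univ) (x : ℕ → X) :
    ∃ y, ∀ k, ¬ Le U (x k) y := by
  by_contra h
  push Not at h
  obtain ⟨N₀, hN, hx⟩ := pseudo hU x
  apply hns
  refine ⟨N₀, hN, fun y _ => ?_⟩
  obtain ⟨k, hle⟩ := h y
  refine (Set.Finite.union (hx k) hle).subset ?_
  rintro i ⟨h1, h2⟩
  by_cases hzi : x k ∈ U i
  · exact Or.inr ⟨hzi, h2⟩
  · exact Or.inl ⟨h1, hzi⟩

lemma notCoin_iUnion {U : ℕ → Set X} (hU : Good U) (hns : ¬ Small U univ) (Z : ℕ → Set X)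
    (hZ : ∀ n, NotCoin U (Z n)) : NotCoin U (⋃ n, Z n) := by
  choose x hx using hZ
  obtain ⟨y, hy⟩ := exists_below hU hns x
  refine ⟨y, ?_⟩
  intro z hz hle
  obtain ⟨n, hn⟩ := mem_iUnion.1 hz
  rcases hU.tot z (x n) with h | h
  · exact hx n z hn h
  · exact hy n (h.trans' hle)

lemma NotCoin.mono {U : ℕ → Set X} {Z Z' : Set X} (h : NotCoin U Z) (hs : Z' ⊆ Z) :
    NotCoin U Z' := by
  obtain ⟨x, hx⟩ := h
  exact ⟨x, fun z hz => hx z (hs hz)⟩

lemma not_notCoin_univ {U : ℕ → Set X} : ¬ NotCoin U (univ : Set X) := by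
  rintro ⟨x, hx⟩
  exact hx x trivial (Le.refl' x)

lemma small_univ [Nonempty X] [T3Space X] [SecondCountableTopology X]
    (hS : S1 (Omega X) (Tau X)) {U : ℕ → Set X} (hU : Good U) : Small U univ := by
  by_contra hns
  classical
  obtain ⟨b, hbc, _, hb⟩ := TopologicalSpace.exists_countable_basis X
  let b' : Set (Set X) := {s | s ∈ b ∧ NotCoin U s}
  have hb'c : b'.Countable := hbc.mono (fun s hs => hs.1)
  have hsing : ∀ x : X, NotCoin U {x} := by
    intro x
    obtain ⟨y, hy⟩ := exists_below hU hns (fun _ => x)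
    exact ⟨y, by rintro z rfl; exact hy 0⟩
  have hO : ∀ x : X, NotCoin U (⋃₀ b' ∪ {x}) := by
    intro x
    have hc : (insert {x} b').Countable := hb'c.insert _
    obtain ⟨f, hf⟩ := hc.exists_eq_range ⟨_, Set.mem_insert _ _⟩
    have := notCoin_iUnion hU hns f (by
      intro n
      have : f n ∈ insert {x} b' := by rw [hf]; exact ⟨n, rfl⟩
      rcases this with h | h
      · rw [h]; exact hsing x
      · exact h.2)
    refine this.mono ?_
    rintro z (⟨s, hs, hz⟩ | hz)
    · have : s ∈ range f := by rw [← hf]; exact Or.inr hs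
      obtain ⟨n, rfl⟩ := this
      exact mem_iUnion.2 ⟨n, hz⟩
    · have : {x} ∈ range f := by rw [← hf]; exact Or.inl rfl
      obtain ⟨n, hn⟩ := this
      exact mem_iUnion.2 ⟨n, by rw [hn]; exact hz⟩
  obtain ⟨x₀⟩ := ‹Nonempty X›
  have hne1 : ∃ x, x ∉ ⋃₀ b' := by
    by_contra h
    push Not at h
    apply not_notCoin_univ (U := U)
    exact (hO x₀).mono (fun z _ => Or.inl (h z))
  obtain ⟨x, hx⟩ := hne1
  have hne2 : ∃ y, y ∉ ⋃₀ b' ∪ {x} := by
    by_contra h
    push Not at h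
    apply not_notCoin_univ (U := U)
    exact (hO x).mono (fun z _ => h z)
  obtain ⟨y, hy⟩ := hne2
  have hxy : x ≠ y := by
    rintro rfl
    exact hy (Or.inr rfl)
  have hy' : y ∉ ⋃₀ b' := fun h => hy (Or.inl h)
  obtain ⟨Nx, hxN, hNxo, Ny, hyN, hNyo, hdisj⟩ := exists_open_nhds_disjoint_closure hxy
  have hcase := dichotomy hS hU (closure Nx)ᶜ (closure Ny)ᶜ isClosed_closure.isOpen_compl
    isClosed_closure.isOpen_compl (by
      rw [← Set.compl_inter, hdisj.inter_eq, Set.compl_empty])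
  rw [compl_compl, compl_compl] at hcase
  rcases hcase with h | h
  · have h2 := notCoin_of_small hU hns h
    obtain ⟨s, hs, hxs, hsN⟩ := hb.exists_subset_of_mem_open hxN hNxo
    exact hx ⟨s, ⟨hs, h2.mono (hsN.trans subset_closure)⟩, hxs⟩
  · have h2 := notCoin_of_small hU hns h
    obtain ⟨s, hs, hxs, hsN⟩ := hb.exists_subset_of_mem_open hyN hNyo
    exact hy' ⟨s, ⟨hs, h2.mono (hsN.trans subset_closure)⟩, hxs⟩

/-- Under `S₁(Ω,T)` every omega-cover contains a gamma-cover. -/
lemma gamma_sub [T3Space X] [SecondCountableTopology X]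
    (hS : S1 (Omega X) (Tau X)) (V : Set (Set X)) (hV : V ∈ Omega X) :
    ∃ G ⊆ V, G ∈ Gamma X := by
  classical
  haveI : Nonempty X := by
    by_contra h
    rw [not_nonempty_iff] at h
    obtain ⟨u, hu, _⟩ := hV.2 ∅ Set.finite_empty
    apply hV.1.2.2
    convert hu
    exact Subsingleton.elim _ _
  obtain ⟨u, hu, huT⟩ := hS (fun _ => V) (fun _ => hV)
  obtain ⟨x₀⟩ := id ‹Nonempty X›
  have hinf : (range u).Infinite := (huT.2.1 x₀).mono (fun v hv => hv.1)
  haveI : Infinite (range u) := hinf.to_subtype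
  haveI : Countable (range u) := (Set.countable_range u).to_subtype
  obtain ⟨e⟩ : Nonempty (ℕ ≃ range u) := by
    obtain ⟨d⟩ := nonempty_denumerable (range u)
    exact ⟨(Denumerable.eqv (range u)).symm⟩
  let U : ℕ → Set X := fun n => (e n : Set X)
  have hUinj : Function.Injective U := fun a b h => e.injective (Subtype.ext h)
  have hUr : ∀ v, v ∈ range u → ∃ n, U n = v := by
    intro v hv
    obtain ⟨n, hn⟩ := e.surjective ⟨v, hv⟩
    exact ⟨n, by simp [U, hn]⟩
  have hUm : ∀ n, U n ∈ range u := fun n => (e n).2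
  have hpre : ∀ P : Set X → Prop, {v | v ∈ range u ∧ P v}.Finite → {i | P (U i)}.Finite := by
    intro P hP
    refine Set.Finite.of_finite_image (f := U) (hP.subset ?_) hUinj.injOn
    rintro _ ⟨i, hi, rfl⟩
    exact ⟨hUm i, hi⟩
  have hU : Good U := by
    refine ⟨hUinj, fun i => huT.1.1 _ (hUm i), ?_, ?_⟩
    · intro x hfin
      apply huT.2.1 x
      refine (hfin.image U).subset ?_
      rintro v ⟨hv, hx⟩
      obtain ⟨n, rfl⟩ := hUr v hv
      exact ⟨n, hx, rfl⟩
    · intro x y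
      rcases huT.2.2 x y with h | h
      · left; exact hpre (fun v => x ∈ v ∧ y ∉ v) h
      · right; exact hpre (fun v => y ∈ v ∧ x ∉ v) h
  obtain ⟨N₀, hN, hz⟩ := small_univ hS hU
  refine ⟨U '' N₀, ?_, ⟨?_, ?_, ?_⟩, ?_, ?_⟩
  · rintro _ ⟨n, _, rfl⟩
    obtain ⟨m, hm⟩ := hUm n
    rw [← hm]; exact hu m
  · rintro _ ⟨n, _, rfl⟩
    exact hU.opn n
  · rw [Set.eq_univ_iff_forall]
    intro x
    obtain ⟨n, hn, hn'⟩ := (hN.sdiff (hz x trivial)).nonempty
    refine ⟨U n, ⟨n, hn, rfl⟩, ?_⟩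
    by_contra h
    exact hn' ⟨hn, h⟩
  · rintro ⟨n, _, h⟩
    apply huT.1.2.2
    rw [← h]; exact hUm n
  · exact hN.image hUinj.injOn
  · intro x
    refine ((hz x trivial).image U).subset ?_
    rintro _ ⟨⟨n, hn, rfl⟩, hx⟩
    exact ⟨n, ⟨hn, hx⟩, rfl⟩

/-- finite sets in powers -/
lemma tube {k : ℕ} (F : Set X) (hF : F.Finite) (G : Set (Fin k → X)) (hG : IsOpen G)
    (hFG : ∀ p : Fin k → X, (∀ a, p a ∈ F) → p ∈ G) :
    ∃ V : Set X, IsOpen V ∧ F ⊆ V ∧ ∀ q : Fin k → X, (∀ a, q a ∈ V) → q ∈ G := by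
  classical
  have hP : {p : Fin k → X | ∀ a, p a ∈ F}.Finite := by
    have := Set.Finite.pi' (fun _ : Fin k => hF)
    exact this
  have hch : ∀ p : Fin k → X, ∃ u : Fin k → Set X, (∀ a, p a ∈ F) →
      (∀ a, IsOpen (u a) ∧ p a ∈ u a) ∧ Set.univ.pi u ⊆ G := by
    intro p
    by_cases hp : ∀ a, p a ∈ F
    · obtain ⟨u, hu, hu'⟩ := isOpen_pi_iff'.1 hG p (hFG p hp)
      exact ⟨u, fun _ => ⟨hu, hu'⟩⟩
    · exact ⟨fun _ => univ, fun h => absurd h hp⟩
  choose u hu using hch
  let Vf : X → Set X := fun f => ⋂ p ∈ {p : Fin k → X | ∀ a, p a ∈ F}, ⋂ a : Fin k,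
    {z | p a = f → z ∈ u p a}
  have hVfo : ∀ f, IsOpen (Vf f) := by
    intro f
    refine hP.isOpen_biInter ?_
    intro p hp
    refine isOpen_iInter_of_finite ?_
    intro a
    by_cases h : p a = f
    · have : {z | p a = f → z ∈ u p a} = u p a := by ext z; simp [h]
      rw [this]
      exact ((hu p hp).1 a).1
    · have : {z | p a = f → z ∈ u p a} = univ := by ext z; simp [h]
      rw [this]; exact isOpen_univ
  refine ⟨⋃ f ∈ F, Vf f, isOpen_biUnion (fun f _ => hVfo f), ?_, ?_⟩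
  · intro f hf
    refine mem_biUnion hf ?_
    simp only [Vf, mem_iInter, mem_ofPred_eq]
    intro p hp a hpa
    rw [← hpa]
    exact ((hu p hp).1 a).2
  · intro q hq
    have hq' : ∀ a, ∃ f ∈ F, q a ∈ Vf f := by
      intro a
      have := hq a
      simp only [mem_iUnion, exists_prop] at this
      exact this
    choose p hpF hpV using hq'
    apply (hu p hpF).2
    intro a _
    have := hpV a
    simp only [Vf, mem_iInter, mem_ofPred_eq] at this
    exact this p hpF a rfl

/-- Gerlits-Nagy for finite powers. -/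
lemma power [T1Space X]
    (hG : ∀ V : Set (Set X), V ∈ Omega X → ∃ G ⊆ V, G ∈ Gamma X) (k : ℕ) :
    S1 (Omega (Fin k → X)) (Gamma (Fin k → X)) := by
  classical
  intro U hU
  -- X is infinite
  have hXinf : Infinite X := by
    by_contra h
    rw [not_infinite_iff_finite] at h
    obtain ⟨u, hu, huu⟩ := (hU 0).2 univ (Set.toFinite _)
    apply (hU 0).1.2.2
    rwa [Set.univ_subset_iff.1 huu] at hu
  let x : ℕ → X := Infinite.natEmbedding X
  have hx : Function.Injective x := (Infinite.natEmbedding X).injective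
  let V : Set (Set X) := {W | ∃ n : ℕ, ∃ O : Set X, IsOpen O ∧ W = O \ {x n} ∧
    ∀ m ≤ n, ∃ u ∈ U m, ∀ q : Fin k → X, (∀ a, q a ∈ O) → q ∈ u}
  have hcov : ∀ F : Set X, F.Finite → ∃ W ∈ V, F ⊆ W := by
    intro F hF
    obtain ⟨n, hn⟩ : ∃ n, x n ∉ F := by
      by_contra h
      push Not at h
      exact Set.infinite_range_of_injective hx (hF.subset (by rintro _ ⟨n, rfl⟩; exact h n))
    have hP : {p : Fin k → X | ∀ a, p a ∈ F}.Finite := Set.Finite.pi' (fun _ : Fin k => hF)
    have hch : ∀ m, ∃ u ∈ U m, {p : Fin k → X | ∀ a, p a ∈ F} ⊆ u :=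
      fun m => (hU m).2 _ hP
    choose u hu huF using hch
    obtain ⟨O, hO, hFO, hOG⟩ := tube F hF (⋂ m ∈ Set.Iic n, u m)
      ((Set.finite_Iic n).isOpen_biInter (fun m _ => (hU m).1.1 _ (hu m))) (by
        intro p hp
        simp only [mem_iInter]
        intro m _
        exact huF m hp)
    refine ⟨O \ {x n}, ⟨n, O, hO, rfl, ?_⟩, ?_⟩
    · intro m hm
      refine ⟨u m, hu m, fun q hq => ?_⟩
      have := hOG q hq
      simp only [mem_iInter] at this
      exact this m hm
    · intro f hf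
      refine ⟨hFO hf, ?_⟩
      rintro rfl
      exact hn hf
  have hVΩ : V ∈ Omega X := by
    refine ⟨⟨?_, ?_, ?_⟩, hcov⟩
    · rintro W ⟨n, O, hO, rfl, _⟩
      exact hO.sdiff isClosed_singleton
    · rw [Set.eq_univ_iff_forall]
      intro z
      obtain ⟨W, hW, hz⟩ := hcov {z} (Set.finite_singleton z)
      exact ⟨W, hW, hz rfl⟩
    · rintro ⟨n, O, hO, h, _⟩
      have : x n ∈ O \ {x n} := by rw [← h]; trivial
      exact this.2 rfl
  obtain ⟨G, hGV, hGΓ⟩ := hG V hVΩ
  -- indices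
  have hidx : ∀ W : Set X, ∃ n : ℕ, W ∈ G → ∃ O : Set X, IsOpen O ∧ W = O \ {x n} ∧
      ∀ m ≤ n, ∃ u ∈ U m, ∀ q : Fin k → X, (∀ a, q a ∈ O) → q ∈ u := by
    intro W
    by_cases hW : W ∈ G
    · obtain ⟨n, hn⟩ := hGV hW
      exact ⟨n, fun _ => hn⟩
    · exact ⟨0, fun h => absurd h hW⟩
  choose N hN using hidx
  have hfin : ∀ n, {W | W ∈ G ∧ N W = n}.Finite := by
    intro n
    refine (hGΓ.2.2 (x n)).subset ?_
    rintro W ⟨hW, rfl⟩
    refine ⟨hW, ?_⟩
    obtain ⟨O, _, hWO, _⟩ := hN W hW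
    intro h
    have h' := (Set.ext_iff.1 hWO (x (N W))).1 h
    exact h'.2 rfl
  have hbig : ∀ n, ∃ W ∈ G, n < N W := by
    intro n
    have : (⋃ m ∈ Set.Iic n, {W | W ∈ G ∧ N W = m}).Finite :=
      (Set.finite_Iic n).biUnion (fun m _ => hfin m)
    obtain ⟨W, hW, hW'⟩ := (hGΓ.2.1.sdiff this).nonempty
    refine ⟨W, hW, ?_⟩
    by_contra h
    apply hW'
    simp only [mem_iUnion]
    exact ⟨N W, by simpa using h, hW, rfl⟩
  choose w hwG hwN using hbig
  let f : ℕ → ℕ := fun n => Nat.rec 0 (fun _ m => N (w m)) n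
  have hfs : ∀ n, f (n + 1) = N (w (f n)) := fun n => rfl
  have hfm : StrictMono f := strictMono_nat_of_lt_succ (fun n => by rw [hfs]; exact hwN _)
  let W : ℕ → Set X := fun m => w (f m)
  have hWG : ∀ m, W m ∈ G := fun m => hwG _
  have hWinj : Function.Injective W := by
    intro a b h
    have : f (a + 1) = f (b + 1) := by rw [hfs, hfs]; exact congrArg N h
    have := hfm.injective (a₁ := a + 1) (a₂ := b + 1) this
    omega
  have hWN : ∀ m, m ≤ N (W m) := by
    intro m
    have h1 : N (W m) = f (m + 1) := (hfs m).symm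
    have h2 : m + 1 ≤ f (m + 1) := hfm.id_le (m + 1)
    omega
  have hsel : ∀ m, ∃ u ∈ U m, ∀ q : Fin k → X, (∀ a, q a ∈ W m) → q ∈ u := by
    intro m
    obtain ⟨O, hO, hWO, hu⟩ := hN (W m) (hWG m)
    obtain ⟨u, huU, huq⟩ := hu m (hWN m)
    refine ⟨u, huU, fun q hq => huq q (fun a => ?_)⟩
    have := hq a
    rw [hWO] at this
    exact this.1
  choose u hu huq using hsel
  have hev : ∀ q : Fin k → X, {m | q ∉ u m}.Finite := by
    intro q
    have : ∀ a : Fin k, {m | q a ∉ W m}.Finite := by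
      intro a
      refine Set.Finite.of_finite_image (f := W) ((hGΓ.2.2 (q a)).subset ?_) hWinj.injOn
      rintro _ ⟨m, hm, rfl⟩
      exact ⟨hWG m, hm⟩
    refine (Set.finite_iUnion this).subset ?_
    intro m hm
    by_contra h
    simp only [mem_iUnion, mem_ofPred_eq, not_exists, not_not] at h
    exact hm (huq m q h)
  refine ⟨u, hu, ⟨?_, ?_, ?_⟩, ?_, ?_⟩
  · rintro _ ⟨m, rfl⟩
    exact (hU m).1.1 _ (hu m)
  · rw [Set.eq_univ_iff_forall]
    intro q
    obtain ⟨m, hm⟩ := (Set.infinite_univ.sdiff (hev q)).nonempty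
    refine ⟨u m, ⟨m, rfl⟩, ?_⟩
    by_contra h
    exact hm.2 h
  · rintro ⟨m, hm⟩
    apply (hU m).1.2.2
    rw [← hm]; exact hu m
  · intro hfr
    -- some value is taken infinitely often
    haveI := hfr.to_subtype
    obtain ⟨v, hv⟩ := Finite.exists_infinite_fiber (fun m => (⟨u m, ⟨m, rfl⟩⟩ : range u))
    have hv' : {m | u m = v.1}.Infinite := by
      rw [← Set.infinite_coe_iff]
      convert hv using 2
      ext m
      simp [Subtype.ext_iff]
    have huniv : v.1 = univ := by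
      rw [Set.eq_univ_iff_forall]
      intro q
      obtain ⟨m, hm, hm'⟩ := (hv'.sdiff (hev q)).nonempty
      have hm1 : u m = v.1 := hm
      rw [← hm1]
      by_contra h
      exact hm' h
    obtain ⟨m, hm⟩ := hv'.nonempty
    have hm1 : u m = v.1 := hm
    apply (hU m).1.2.2
    rw [← huniv, ← hm1]; exact hu m
  · intro q
    refine ((hev q).image u).subset ?_
    rintro _ ⟨⟨m, rfl⟩, hm⟩
    exact ⟨m, hm, rfl⟩

lemma Gamma_subset_Tau : Gamma X ⊆ Tau X := by
  rintro U ⟨h1, h2, h3⟩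
  refine ⟨h1, ?_, ?_⟩
  · intro x
    refine (h2.sdiff (h3 x)).mono ?_
    rintro v ⟨hv, hv'⟩
    refine ⟨hv, ?_⟩
    by_contra h
    exact hv' ⟨hv, h⟩
  · intro x y
    left
    refine (h3 y).subset ?_
    rintro v ⟨hv, _, hy⟩
    exact ⟨hv, hy⟩

end positive

/-- `S₁(Ω,T)` passes to finite powers; indeed `S₁(Ω,Γ)` holds in all of them. -/
theorem positive_part (X : Set ℝ) (hS : S1 (Omega X) (Tau X)) (k : ℕ) :
    S1 (Omega (Fin k → X)) (Gamma (Fin k → X)) :=
  power (fun V hV => gamma_sub hS V hV) k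

theorem positive_part_tau (X : Set ℝ) (hS : S1 (Omega X) (Tau X)) (k : ℕ) :
    S1 (Omega (Fin k → X)) (Tau (Fin k → X)) := by
  intro U hU
  obtain ⟨u, hu, hΓ⟩ := positive_part X hS k U hU
  exact ⟨u, hu, Gamma_subset_Tau hΓ⟩

end TauPow
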