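import Pool.Agent.Helper82.TauDefs

/-!
Block sequences, conditions, countable closure, first density lemma.
-/

namespace TauPow

open Set

/-- open families of subsets of `ℕ` (Cantor topology), combinatorially -/
def Op (G : Set (Set ℕ)) : Prop :=
  ∀ y ∈ G, ∃ b : ℕ, ∀ y' : Set ℕ, (∀ i < b, (i ∈ y' ↔ i ∈ y)) → y' ∈ G

/-- block sequences -/
structure BS where
  z : ℕ → Finset ℕ
  ne : ∀ j, (z j).Nonempty
  lt : ∀ i j, i < j → ∀ x ∈ z i, ∀ y ∈ z j, x < y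

/-- span -/
def sp (z : ℕ → Finset ℕ) (J : Set ℕ) : Set ℕ := {x | ∃ j ∈ J, x ∈ z j}

lemma BS.le_of_mem (X : BS) : ∀ {j x : ℕ}, x ∈ X.z j → j ≤ x := by
  intro j
  induction j with
  | zero => intro x _; exact Nat.zero_le _
  | succ j ih =>
    intro x hx
    obtain ⟨y, hy⟩ := X.ne j
    have h1 := ih hy
    have h2 := X.lt j (j + 1) (Nat.lt_succ_self j) y hy x hx
    omega

lemma BS.eq_of_mem (X : BS) {i j x : ℕ} (hi : x ∈ X.z i) (hj : x ∈ X.z j) : i = j := by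
  rcases lt_trichotomy i j with h | h | h
  · exact absurd (X.lt i j h x hi x hj) (lt_irrefl _)
  · exact h
  · exact absurd (X.lt j i h x hj x hi) (lt_irrefl _)

/-- allowed sets -/
def Al (X : BS) (y : Set ℕ) : Prop :=
  ∃ (t : Finset ℕ) (J : Set ℕ), J.Infinite ∧ y = ↑t ∪ sp X.z J

/-- almost refinement -/
def Rf (X' X : BS) : Prop :=
  ∃ j₀, ∀ j ≥ j₀, ∃ K : Finset ℕ, X'.z j = K.biUnion X.z

lemma Rf.refl (X : BS) : Rf X X := ⟨0, fun j _ => ⟨{j}, by simp⟩⟩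

lemma Rf.strong {X' X : BS} (h : Rf X' X) (j₁ : ℕ) :
    ∃ j₂, ∀ j ≥ j₂, ∃ K : Finset ℕ, (∀ i ∈ K, j₁ ≤ i) ∧ X'.z j = K.biUnion X.z := by
  obtain ⟨j₀, h⟩ := h
  -- bound on elements of the first j₁ blocks
  obtain ⟨M, hM⟩ := (((Finset.range j₁).biUnion X.z).finite_toSet).bddAbove
  refine ⟨max j₀ (M + 1), fun j hj => ?_⟩
  obtain ⟨K, hK⟩ := h j (le_trans (le_max_left _ _) hj)
  refine ⟨K, ?_, hK⟩
  intro i hi
  by_contra hlt
  push Not at hlt
  obtain ⟨x, hx⟩ := X.ne i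
  have h1 : x ∈ X'.z j := by
    rw [hK]; exact Finset.mem_biUnion.2 ⟨i, hi, hx⟩
  have h2 := X'.le_of_mem h1
  have h3 : x ≤ M := hM (by
    rw [Finset.mem_coe, Finset.mem_biUnion]
    exact ⟨i, Finset.mem_range.2 hlt, hx⟩)
  have h4 := le_trans (le_max_right j₀ (M + 1)) hj
  omega

lemma Rf.trans {X'' X' X : BS} (h : Rf X'' X') (h' : Rf X' X) : Rf X'' X := by
  obtain ⟨j₀, h'⟩ := h'
  obtain ⟨j₂, h2⟩ := h.strong j₀
  refine ⟨j₂, fun j hj => ?_⟩
  obtain ⟨K, hK1, hK2⟩ := h2 j hj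
  have hch : ∀ i, ∃ L : Finset ℕ, j₀ ≤ i → X'.z i = L.biUnion X.z := by
    intro i
    by_cases hi : j₀ ≤ i
    · obtain ⟨L, hL⟩ := h' i hi
      exact ⟨L, fun _ => hL⟩
    · exact ⟨∅, fun h => absurd h hi⟩
  choose L hL using hch
  refine ⟨K.biUnion L, ?_⟩
  rw [hK2]
  ext x
  simp only [Finset.mem_biUnion]
  constructor
  · rintro ⟨i, hi, hx⟩
    rw [hL i (hK1 i hi), Finset.mem_biUnion] at hx
    obtain ⟨l, hl, hxl⟩ := hx
    exact ⟨l, ⟨i, hi, hl⟩, hxl⟩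
  · rintro ⟨l, ⟨i, hi, hl⟩, hxl⟩
    refine ⟨i, hi, ?_⟩
    rw [hL i (hK1 i hi), Finset.mem_biUnion]
    exact ⟨l, hl, hxl⟩

lemma Al.mono {X' X : BS} (h : Rf X' X) {y : Set ℕ} (hy : Al X' y) : Al X y := by
  classical
  obtain ⟨t, J, hJ, rfl⟩ := hy
  obtain ⟨j₀, h⟩ := h
  have hch : ∀ i, ∃ L : Finset ℕ, j₀ ≤ i → X'.z i = L.biUnion X.z := by
    intro i
    by_cases hi : j₀ ≤ i
    · obtain ⟨L, hL⟩ := h i hi
      exact ⟨L, fun _ => hL⟩
    · exact ⟨∅, fun h => absurd h hi⟩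
  choose L hL using hch
  let J' : Set ℕ := {l | ∃ j ∈ J, j₀ ≤ j ∧ l ∈ L j}
  let t' : Finset ℕ := t ∪ ((Finset.range j₀).filter (· ∈ J)).biUnion X'.z
  have hsp : ∀ j ∈ J, j₀ ≤ j → ∀ x ∈ X'.z j, ∃ l ∈ J', x ∈ X.z l := by
    intro j hj hj0 x hx
    rw [hL j hj0, Finset.mem_biUnion] at hx
    obtain ⟨l, hl, hxl⟩ := hx
    exact ⟨l, ⟨j, hj, hj0, hl⟩, hxl⟩
  refine ⟨t', J', ?_, ?_⟩
  · intro hfin
    have hfin2 : (⋃ l ∈ J', (X.z l : Set ℕ)).Finite :=
      hfin.biUnion (fun l _ => (X.z l).finite_toSet)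
    obtain ⟨M, hM⟩ := hfin2.bddAbove
    obtain ⟨j, hj, hj'⟩ := hJ.exists_gt (max j₀ M)
    obtain ⟨x, hx⟩ := X'.ne j
    obtain ⟨l, hl, hxl⟩ := hsp j hj (le_trans (le_max_left _ _) hj'.le) x hx
    have h1 : x ≤ M := hM (by simp only [mem_iUnion]; exact ⟨l, hl, hxl⟩)
    have h2 := X'.le_of_mem hx
    have h3 := le_max_right j₀ M
    omega
  · ext x
    simp only [sp, mem_union, Finset.mem_coe, mem_ofPred_eq, t', Finset.mem_union,
      Finset.mem_biUnion, Finset.mem_filter, Finset.mem_range]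
    constructor
    · rintro (h1 | ⟨j, hj, hx⟩)
      · exact Or.inl (Or.inl h1)
      · by_cases hj0 : j₀ ≤ j
        · exact Or.inr (hsp j hj hj0 x hx)
        · exact Or.inl (Or.inr ⟨j, ⟨not_le.1 hj0, hj⟩, hx⟩)
    · rintro ((h1 | ⟨j, ⟨_, hj⟩, hx⟩) | ⟨l, ⟨j, hj, hj0, hl⟩, hx⟩)
      · exact Or.inl h1
      · exact Or.inr ⟨j, hj, hx⟩
      · refine Or.inr ⟨j, hj, ?_⟩
        rw [hL j hj0]; exact Finset.mem_biUnion.2 ⟨l, hl, hx⟩

/-- conditions -/
structure Cond where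
  S : Set (Set ℕ)
  X : BS
  cS : S.Countable
  ch : ∀ x ∈ S, ∀ y ∈ S, (x \ y).Finite ∨ (y \ x).Finite
  bl : ∀ y ∈ S, ∃ j₀, ∀ j ≥ j₀, (X.z j : Set ℕ) ⊆ y

/-- extension of conditions -/
def Ext (q p : Cond) : Prop :=
  p.S ⊆ q.S ∧ Rf q.X p.X ∧ ∀ y ∈ q.S, y ∉ p.S → Al p.X y

lemma Ext.refl (p : Cond) : Ext p p := ⟨subset_rfl, Rf.refl _, fun _ h h' => absurd h h'⟩

lemma Ext.trans {r q p : Cond} (h : Ext r q) (h' : Ext q p) : Ext r p := by
  refine ⟨h'.1.trans h.1, h.2.1.trans h'.2.1, ?_⟩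
  intro y hy hyp
  by_cases hq : y ∈ q.S
  · exact h'.2.2 y hq hyp
  · exact (h.2.2 y hy hq).mono h'.2.1

/-- the poset is countably closed -/
lemma sigma_closed (p : ℕ → Cond) (hp : ∀ m n, m ≤ n → Ext (p n) (p m)) :
    ∃ q : Cond, ∀ n, Ext q (p n) := by
  classical
  have hch : ∀ n b : ℕ, ∃ m, b < m ∧ ∀ k ≤ n, ∃ K : Finset ℕ,
      (p n).X.z m = K.biUnion (p k).X.z := by
    intro n b
    have h1 : ∀ k, ∃ j₀, k ≤ n → ∀ j ≥ j₀, ∃ K : Finset ℕ,
        (p n).X.z j = K.biUnion (p k).X.z := by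
      intro k
      by_cases hk : k ≤ n
      · obtain ⟨j₀, h⟩ := (hp k n hk).2.1
        exact ⟨j₀, fun _ => h⟩
      · exact ⟨0, fun h => absurd h hk⟩
    choose j₀ hj₀ using h1
    refine ⟨max (b + 1) ((Finset.range (n + 1)).sup j₀), ?_, ?_⟩
    · exact lt_of_lt_of_le (Nat.lt_succ_self b) (le_max_left _ _)
    · intro k hk
      refine hj₀ k hk _ (le_trans ?_ (le_max_right _ _))
      exact Finset.le_sup (f := j₀) (Finset.mem_range.2 (by omega))
  choose g hg1 hg2 using hch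
  -- m n : index of the chosen block
  let bd : ℕ → ℕ → ℕ := fun n m => (((p n).X.z m)).sup id
  let m : ℕ → ℕ := fun n => Nat.rec (g 0 0) (fun n mm => g (n + 1) (bd n mm)) n
  have hm0 : m 0 = g 0 0 := rfl
  have hms : ∀ n, m (n + 1) = g (n + 1) (bd n (m n)) := fun n => rfl
  have hm2 : ∀ n, ∀ k ≤ n, ∃ K : Finset ℕ, (p n).X.z (m n) = K.biUnion (p k).X.z := by
    intro n
    cases n with
    | zero => rw [hm0]; exact hg2 0 0
    | succ n => rw [hms]; exact hg2 _ _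
  have hstep : ∀ n, ∀ x ∈ (p n).X.z (m n), ∀ y ∈ (p (n + 1)).X.z (m (n + 1)), x < y := by
    intro n x hx y hy
    have h1 : x ≤ bd n (m n) := Finset.le_sup (f := id) hx
    have h2 := (p (n + 1)).X.le_of_mem hy
    have h3 : bd n (m n) < m (n + 1) := by rw [hms]; exact hg1 _ _
    omega
  have hne : ∀ n, ((p n).X.z (m n)).Nonempty := fun n => (p n).X.ne _
  have hlt : ∀ i j, i < j → ∀ x ∈ (p i).X.z (m i), ∀ y ∈ (p j).X.z (m j), x < y := by
    intro i j hij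
    induction j, hij using Nat.le_induction with
    | base => exact hstep i
    | succ j hj ih =>
      intro x hx y hy
      obtain ⟨w, hw⟩ := hne j
      exact (ih x hx w hw).trans (hstep j w hw y hy)
  let X : BS := ⟨fun n => (p n).X.z (m n), hne, hlt⟩
  have hRf : ∀ k, Rf X (p k).X := fun k => ⟨k, fun j hj => hm2 j k hj⟩
  refine ⟨⟨⋃ n, (p n).S, X, Set.countable_iUnion (fun n => (p n).cS), ?_, ?_⟩, ?_⟩
  · intro x hx y hy
    obtain ⟨a, ha⟩ := mem_iUnion.1 hx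
    obtain ⟨b, hb⟩ := mem_iUnion.1 hy
    have h1 := (hp a (max a b) (le_max_left _ _)).1 ha
    have h2 := (hp b (max a b) (le_max_right _ _)).1 hb
    exact (p (max a b)).ch x h1 y h2
  · intro y hy
    obtain ⟨a, ha⟩ := mem_iUnion.1 hy
    obtain ⟨j₁, hj₁⟩ := (p a).bl y ha
    obtain ⟨j₂, hj₂⟩ := (hRf a).strong j₁
    refine ⟨j₂, fun j hj => ?_⟩
    obtain ⟨K, hK1, hK2⟩ := hj₂ j hj
    intro x hx
    have hx' : x ∈ X.z j := hx
    rw [hK2, Finset.mem_biUnion] at hx'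
    obtain ⟨i, hi, hxi⟩ := hx'
    exact hj₁ i (hK1 i hi) hxi
  · intro n
    refine ⟨fun y hy => mem_iUnion.2 ⟨n, hy⟩, hRf n, ?_⟩
    intro y hy hyn
    obtain ⟨k, hk⟩ := mem_iUnion.1 hy
    rcases le_total k n with h | h
    · exact absurd ((hp k n h).1 hk) hyn
    · exact (hp n k h).2.2 y hk hyn

/-- the sets `W i` : the last element of `x ∪ y` at or before `i` belongs to both. -/
def Wm (i : ℕ) (x y : Set ℕ) : Prop :=
  ∃ m ≤ i, m ∈ x ∧ m ∈ y ∧ ∀ m' ≤ i, m < m' → m' ∉ x ∧ m' ∉ y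

/-- passing to a subsequence of blocks and adding finitely many sets -/
lemma add_sets (p : Cond) (J : ℕ → ℕ) (hJ : StrictMono J) (F : Set (Set ℕ)) (hF : F.Finite)
    (hFc : ∀ x ∈ F, ∀ y ∈ F, (x \ y).Finite ∨ (y \ x).Finite)
    (hFal : ∀ y ∈ F, ∃ (t : Finset ℕ) (K : Set ℕ), K.Infinite ∧ y = ↑t ∪ sp p.X.z K ∧ 
      ∀ n, J n ∈ K) :
    ∃ q : Cond, Ext q p ∧ q.S = p.S ∪ F := by
  classical
  let X : BS := ⟨fun n => p.X.z (J n), fun n => p.X.ne _, fun i j h => p.X.lt _ _ (hJ h)⟩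
  have hal : ∀ y ∈ F, ∀ x ∈ p.S, (y \ x).Finite := by
    intro y hy x hx
    obtain ⟨t, K, hK, rfl, _⟩ := hFal y hy
    obtain ⟨j₀, hj₀⟩ := p.bl x hx
    refine Set.Finite.subset (s := ↑t ∪ ↑((Finset.range j₀).biUnion p.X.z)) ?_ ?_
    · exact t.finite_toSet.union (Finset.finite_toSet _)
    · rintro w ⟨hw | ⟨j, hj, hw⟩, hwx⟩
      · exact Or.inl hw
      · right
        rw [Finset.mem_coe, Finset.mem_biUnion]
        refine ⟨j, ?_, hw⟩
        rw [Finset.mem_range]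
        by_contra h
        push Not at h
        exact hwx (hj₀ j h hw)
  refine ⟨⟨p.S ∪ F, X, p.cS.union hF.countable, ?_, ?_⟩, ⟨subset_union_left, ?_, ?_⟩, rfl⟩
  · rintro x (hx | hx) y (hy | hy)
    · exact p.ch x hx y hy
    · exact Or.inr (hal y hy x hx)
    · exact Or.inl (hal x hx y hy)
    · exact hFc x hx y hy
  · rintro y (hy | hy)
    · obtain ⟨j₀, hj₀⟩ := p.bl y hy
      exact ⟨j₀, fun j hj => hj₀ _ (le_trans hj (hJ.id_le j))⟩
    · obtain ⟨t, K, hK, rfl, hJK⟩ := hFal y hy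
      exact ⟨0, fun j _ x hx => Or.inr ⟨J j, hJK j, hx⟩⟩
  · exact ⟨0, fun j _ => ⟨{J j}, by simp [X]⟩⟩
  · rintro y (hy | hy) hyp
    · exact absurd hy hyp
    · obtain ⟨t, K, hK, rfl, _⟩ := hFal y hy
      exact ⟨t, K, hK, rfl⟩

/-- First density lemma. -/
lemma dense_split (A : Set ℕ) (hA : A.Infinite) (p : Cond) :
    ∃ q : Cond, Ext q p ∧ ∃ x ∈ q.S, ∃ y ∈ q.S, ∃ z ∈ q.S,
      {i | i ∈ A ∧ Wm i x y ∧ ¬ Wm i y z}.Infinite ∧
      {i | i ∈ A ∧ Wm i y z ∧ ¬ Wm i x y}.Infinite := by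
  classical
  have hex : ∀ b : ℕ, ∃ i ∈ A, b ≤ i := fun b => by
    obtain ⟨i, hi, hb⟩ := hA.exists_gt b
    exact ⟨i, hi, hb.le⟩
  choose a haA hab using hex
  -- i k := a (max of block j k), j (k+1) := i k + 1 + j k
  let mx : ℕ → ℕ := fun j => (p.X.z j).sup id
  let J : ℕ → ℕ := fun k => Nat.rec 0 (fun _ j => max (a (mx j)) j + 1) k
  have hJs : ∀ k, J (k + 1) = max (a (mx (J k))) (J k) + 1 := fun k => rfl
  let I : ℕ → ℕ := fun k => a (mx (J k))
  have hJm : StrictMono J := strictMono_nat_of_lt_succ (fun k => by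
    rw [hJs]; have := le_max_right (a (mx (J k))) (J k); omega)
  have hIJ : ∀ k, I k < J (k + 1) := fun k => by
    rw [hJs]; have := le_max_left (a (mx (J k))) (J k)
    show a (mx (J k)) < _
    omega
  have hmx : ∀ k, ∀ x ∈ p.X.z (J k), x ≤ I k := fun k x hx =>
    le_trans (Finset.le_sup (f := id) hx) (hab _)
  have hIA : ∀ k, I k ∈ A := fun k => haA _
  -- the last element of block k
  have hmxmem : ∀ k, mx (J k) ∈ p.X.z (J k) := by
    intro k
    have := Finset.exists_mem_eq_sup (p.X.z (J k)) (p.X.ne _) id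
    obtain ⟨w, hw, hw'⟩ := this
    show (p.X.z (J k)).sup id ∈ p.X.z (J k)
    rw [hw']; exact hw
  have hmxle : ∀ k, mx (J k) ≤ I k := fun k => hmx k _ (hmxmem k)
  -- element of blocks ≤ I k that are > mx (J k)
  have hno : ∀ k l x, x ∈ p.X.z (J l) → x ≤ I k → l ≤ k := by
    intro k l x hx hxk
    by_contra h
    push Not at h
    have h1 : J (k + 1) ≤ J l := hJm.monotone h
    have h2 := p.X.le_of_mem hx
    have h3 := hIJ k
    omega
  have hle : ∀ k l x, x ∈ p.X.z (J l) → l < k → x < mx (J k) := by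
    intro k l x hx hlk
    exact p.X.lt _ _ (hJm hlk) x hx _ (hmxmem k)
  have hlast : ∀ k x, x ∈ p.X.z (J k) → x ≤ mx (J k) := fun k x hx =>
    Finset.le_sup (f := id) hx
  let P1 : Set ℕ := {j | ∃ k, j = J k}
  let P2 : Set ℕ := {j | ∃ k, k % 3 ≠ 1 ∧ j = J k}
  let P3 : Set ℕ := {j | ∃ k, k % 3 = 0 ∧ j = J k}
  let y1 := sp p.X.z P1
  let y2 := sp p.X.z P2
  let y3 := sp p.X.z P3
  have h32 : y3 ⊆ y2 := by
    rintro x ⟨j, ⟨k, hk, rfl⟩, hx⟩
    exact ⟨J k, ⟨k, by omega, rfl⟩, hx⟩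
  have h21 : y2 ⊆ y1 := by
    rintro x ⟨j, ⟨k, hk, rfl⟩, hx⟩
    exact ⟨J k, ⟨k, rfl⟩, hx⟩
  have hinf3 : P3.Infinite := by
    refine Set.infinite_of_injective_forall_mem (f := fun n => J (3 * n)) ?_ ?_
    · intro a b h
      have := hJm.injective h
      omega
    · intro n
      exact ⟨3 * n, by omega, rfl⟩
  have hinf2 : P2.Infinite := hinf3.mono (by
    rintro j ⟨k, hk, rfl⟩; exact ⟨k, by omega, rfl⟩)
  have hinf1 : P1.Infinite := hinf3.mono (by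
    rintro j ⟨k, hk, rfl⟩; exact ⟨k, rfl⟩)
  obtain ⟨q, hq, hqS⟩ := add_sets p (fun n => J (3 * n)) (by
      intro a b h; exact hJm (by omega)) {y1, y2, y3} (by simp) (by
      have e : ∀ u v : Set ℕ, u ⊆ v → (u \ v).Finite := by
        intro u v h
        rw [Set.sdiff_eq_empty.2 h]; exact Set.finite_empty
      rintro x (rfl | rfl | rfl) y (rfl | rfl | rfl)
      · exact Or.inl (e _ _ subset_rfl)
      · exact Or.inr (e _ _ h21)
      · exact Or.inr (e _ _ (h32.trans h21))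
      · exact Or.inl (e _ _ h21)
      · exact Or.inl (e _ _ subset_rfl)
      · exact Or.inr (e _ _ h32)
      · exact Or.inl (e _ _ (h32.trans h21))
      · exact Or.inl (e _ _ h32)
      · exact Or.inl (e _ _ subset_rfl)) (by
      rintro y (rfl | rfl | rfl)
      · exact ⟨∅, P1, hinf1, by simp [y1], fun n => ⟨3 * n, rfl⟩⟩
      · exact ⟨∅, P2, hinf2, by simp [y2], fun n => ⟨3 * n, by omega, rfl⟩⟩
      · exact ⟨∅, P3, hinf3, by simp [y3], fun n => ⟨3 * n, by omega, rfl⟩⟩)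
  have m1 : ∀ k, mx (J k) ∈ y1 := fun k => ⟨J k, ⟨k, rfl⟩, hmxmem k⟩
  have m2 : ∀ k, mx (J k) ∈ y2 ↔ k % 3 ≠ 1 := by
    intro k
    constructor
    · rintro ⟨j, ⟨l, hl, rfl⟩, hx⟩
      have := hJm.injective (p.X.eq_of_mem (hmxmem k) hx)
      rw [this]; exact hl
    · intro h; exact ⟨J k, ⟨k, h, rfl⟩, hmxmem k⟩
  have m3 : ∀ k, mx (J k) ∈ y3 ↔ k % 3 = 0 := by
    intro k
    constructor
    · rintro ⟨j, ⟨l, hl, rfl⟩, hx⟩
      have := hJm.injective (p.X.eq_of_mem (hmxmem k) hx)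
      rw [this]; exact hl
    · intro h; exact ⟨J k, ⟨k, h, rfl⟩, hmxmem k⟩
  -- nothing in y1 in (mx (J k), I k]
  have gap1 : ∀ k, ∀ m' ≤ I k, mx (J k) < m' → m' ∉ y1 := by
    rintro k m' h1 h2 ⟨j, ⟨l, rfl⟩, hx⟩
    have h3 := hno k l m' hx h1
    rcases h3.lt_or_eq with h4 | h4
    · have := hle k l m' hx h4; omega
    · subst h4
      have := hlast l m' hx; omega
  -- nothing in y2 in (mx (J (k-1)), I k] if k % 3 = 1
  have gap2 : ∀ k, (k + 1) % 3 = 1 → ∀ m' ≤ I (k + 1), mx (J k) < m' → m' ∉ y2 := by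
    rintro k hk m' h1 h2 ⟨j, ⟨l, hl, rfl⟩, hx⟩
    have h3 := hno (k + 1) l m' hx h1
    have h4 : l ≤ k := by
      rcases h3.lt_or_eq with h5 | h5
      · omega
      · subst h5; exact absurd hk hl
    rcases h4.lt_or_eq with h5 | h5
    · have := hle k l m' hx h5; omega
    · subst h5
      have := hlast l m' hx; omega
  have hIm : StrictMono I := strictMono_nat_of_lt_succ (fun k => by
    have h1 := hIJ k
    have h2 := hmxle (k + 1)
    have h3 := p.X.le_of_mem (hmxmem (k + 1))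
    omega)
  refine ⟨q, hq, y1, ?_, y2, ?_, y3, ?_, ?_, ?_⟩
  · rw [hqS]; right; simp
  · rw [hqS]; right; simp
  · rw [hqS]; right; simp
  · refine Set.infinite_of_injective_forall_mem (f := fun n => I (3 * n + 2)) ?_ ?_
    · intro a b h
      have := hIm.injective (a₁ := 3 * a + 2) (a₂ := 3 * b + 2) h
      omega
    · intro n
      refine ⟨hIA (3 * n + 2), ⟨mx (J (3 * n + 2)), hmxle (3 * n + 2), m1 (3 * n + 2),
        (m2 (3 * n + 2)).2 (by omega), ?_⟩, ?_⟩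
      · intro m' h1 h2
        exact ⟨gap1 (3 * n + 2) m' h1 h2, fun h => gap1 (3 * n + 2) m' h1 h2 (h21 h)⟩
      · rintro ⟨m, hm1, hm2, hm3, hm4⟩
        have hmm : m ∈ y1 := h21 hm2
        have hle1 : m ≤ mx (J (3 * n + 2)) := by
          by_contra h
          push Not at h
          exact gap1 (3 * n + 2) m hm1 h hmm
        rcases hle1.lt_or_eq with h | h
        · exact (hm4 _ (hmxle (3 * n + 2)) h).1 ((m2 (3 * n + 2)).2 (by omega))
        · rw [h] at hm3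
          have := (m3 (3 * n + 2)).1 hm3
          omega
  · refine Set.infinite_of_injective_forall_mem (f := fun n => I (3 * n + 1)) ?_ ?_
    · intro a b h
      have := hIm.injective (a₁ := 3 * a + 1) (a₂ := 3 * b + 1) h
      omega
    · intro n
      refine ⟨hIA (3 * n + 1), ⟨mx (J (3 * n)), ?_, (m2 (3 * n)).2 (by omega),
        (m3 (3 * n)).2 (by omega), ?_⟩, ?_⟩
      · exact (hmxle (3 * n)).trans (hIm (show 3 * n < 3 * n + 1 by omega)).le
      · intro m' h1 h2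
        have := gap2 (3 * n) (by omega) m' h1 h2
        exact ⟨this, fun h => this (h32 h)⟩
      · rintro ⟨m, hm1, hm2, hm3, hm4⟩
        have hle1 : m ≤ mx (J (3 * n + 1)) := by
          by_contra h
          push Not at h
          exact gap1 (3 * n + 1) m hm1 h hm2
        rcases hle1.lt_or_eq with h | h
        · exact (hm4 _ (hmxle (3 * n + 1)) h).1 (m1 (3 * n + 1))
        · rw [h] at hm3
          have := (m2 (3 * n + 1)).1 hm3
          omega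

end TauPow
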