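import Pool.Agent.Helper82.Tau2

/-!
Idempotent ultrafilters on finite sets, second density lemma.
-/

namespace TauPow

open Set Filter

/-- the semigroup of finite sets under union -/
@[instance_reducible]
def unionSemigroup : Semigroup (Finset ℕ) where
  mul a b := a ∪ b
  mul_assoc a b c := Finset.union_assoc a b c

attribute [local instance] unionSemigroup

def Blk (X : BS) (b : ℕ) (s : Finset ℕ) : Prop :=
  s.Nonempty ∧ (∀ x ∈ s, b ≤ x) ∧ ∃ K : Finset ℕ, s = K.biUnion X.z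

attribute [local instance] Ultrafilter.mul Ultrafilter.semigroup

lemma exists_idem (X : BS) : ∃ 𝓅 : Ultrafilter (Finset ℕ),
    (∀ b, ∀ᶠ s in (𝓅 : Filter (Finset ℕ)), Blk X b s) ∧
    ∀ P : Finset ℕ → Prop, (∀ᶠ s in (𝓅 : Filter (Finset ℕ)), P s) ↔
      ∀ᶠ s in (𝓅 : Filter (Finset ℕ)), ∀ᶠ s' in (𝓅 : Filter (Finset ℕ)), P (s ∪ s') := by
  let C : Set (Ultrafilter (Finset ℕ)) := {U | ∀ b : ℕ, {s : Finset ℕ | Blk X b s} ∈ U}
  have hC : IsClosed C := by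
    have : C = ⋂ b : ℕ, {U : Ultrafilter (Finset ℕ) | {s : (Finset ℕ) | Blk X b s} ∈ U} := by
      ext U; simp [C]
    rw [this]
    exact isClosed_iInter (fun b => ultrafilter_isClosed_basic _)
  have hne : C.Nonempty := by
    refine ⟨(hyperfilter ℕ).map (fun j => X.z j), ?_⟩
    intro b
    rw [Ultrafilter.mem_map]
    apply mem_hyperfilter_of_finite_compl
    refine (Set.finite_Iio b).subset ?_
    intro j hj
    by_contra h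
    apply hj
    refine ⟨X.ne j, ?_, ⟨{j}, by simp⟩⟩
    intro x hx
    have := X.le_of_mem hx
    simp at h
    omega
  have hmul : ∀ᵉ (U ∈ C) (V ∈ C), U * V ∈ C := by
    intro U hU V hV b
    have : ∀ᶠ m in (↑(U * V) : Filter (Finset ℕ)), Blk X b m := by
      rw [Ultrafilter.eventually_mul]
      filter_upwards [hU b] with s hs
      filter_upwards [hV b] with s' hs'
      obtain ⟨h1, h2, K, hK⟩ := hs
      obtain ⟨h1', h2', K', hK'⟩ := hs'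
      refine ⟨?_, ?_, K ∪ K', ?_⟩
      · exact Finset.Nonempty.mono (Finset.subset_union_left (s₁ := s) (s₂ := s')) h1
      · intro x hx
        rcases (Finset.mem_union (s := s) (t := s')).1 hx with h | h
        · exact h2 x h
        · exact h2' x h
      · show (s ∪ s' : Finset ℕ) = _
        rw [Finset.union_biUnion, ← hK, ← hK']
    exact this
  obtain ⟨U, hUC, hUU⟩ := exists_idempotent_in_compact_subsemigroup
    (M := Ultrafilter (Finset ℕ)) Ultrafilter.continuous_mul_left C hne hC.isCompact hmul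
  refine ⟨U, fun b => hUC b, ?_⟩
  intro P
  have := Ultrafilter.eventually_mul U U (fun s : (Finset ℕ) => P s)
  rw [hUU] at this
  exact this

/-- star sets -/
def IsStar (𝓅 : Ultrafilter (Finset ℕ)) (R : Set (Finset ℕ)) : Prop :=
  (∀ᶠ s in (𝓅 : Filter (Finset ℕ)), s ∈ R) ∧
    ∀ s ∈ R, ∀ᶠ s' in (𝓅 : Filter (Finset ℕ)), s ∪ s' ∈ R

section

variable {𝓅 : Ultrafilter (Finset ℕ)}

lemma star_sub (hid : ∀ P : Finset ℕ → Prop, (∀ᶠ s in (𝓅 : Filter (Finset ℕ)), P s) ↔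
      ∀ᶠ s in (𝓅 : Filter (Finset ℕ)), ∀ᶠ s' in (𝓅 : Filter (Finset ℕ)), P (s ∪ s'))
    (A : Set (Finset ℕ)) (hA : ∀ᶠ s in (𝓅 : Filter (Finset ℕ)), s ∈ A) :
    ∃ R ⊆ A, IsStar 𝓅 R := by
  refine ⟨{s | s ∈ A ∧ ∀ᶠ s' in (𝓅 : Filter (Finset ℕ)), s ∪ s' ∈ A}, fun s hs => hs.1, ?_, ?_⟩
  · exact hA.and ((hid _).1 hA)
  · rintro s ⟨_, hs⟩
    have h2 := (hid (fun u => s ∪ u ∈ A)).1 hs
    filter_upwards [hs, h2] with s' h3 h4
    refine ⟨h3, ?_⟩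
    filter_upwards [h4] with s'' h5
    rw [Finset.union_assoc]; exact h5

lemma IsStar.inter {R R' : Set (Finset ℕ)} (h : IsStar 𝓅 R) (h' : IsStar 𝓅 R') :
    IsStar 𝓅 (R ∩ R') :=
  ⟨h.1.and h'.1, fun s hs => (h.2 s hs.1).and (h'.2 s hs.2)⟩

lemma IsStar.shift {R : Set (Finset ℕ)} (h : IsStar 𝓅 R) {s₀ : Finset ℕ} (hs : s₀ ∈ R) :
    IsStar 𝓅 {s | s ∈ R ∧ s₀ ∪ s ∈ R} := by
  refine ⟨h.1.and (h.2 s₀ hs), ?_⟩
  rintro s ⟨h1, h2⟩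
  filter_upwards [h.2 s h1, h.2 _ h2] with s' h3 h4
  refine ⟨h3, ?_⟩
  rw [← Finset.union_assoc]; exact h4

lemma key (X : BS) (hblk : ∀ b, ∀ᶠ s in (𝓅 : Filter (Finset ℕ)), Blk X b s)
    (hid : ∀ P : Finset ℕ → Prop, (∀ᶠ s in (𝓅 : Filter (Finset ℕ)), P s) ↔
      ∀ᶠ s in (𝓅 : Filter (Finset ℕ)), ∀ᶠ s' in (𝓅 : Filter (Finset ℕ)), P (s ∪ s'))
    (f : ℕ → ℕ → Set (Set ℕ)) (hf : ∀ n i, Op (f n i)) (S : Set (Set ℕ))
    (HB : ∀ n, ∀ H : Set (Set ℕ), H.Finite → H ⊆ S → ∀ a : ℕ, ∀ J : Set ℕ, J.Infinite →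
      ∃ i, (∀ y ∈ H, y ∈ f n i) ∧ ∀ t ⊆ Finset.range a, (↑t ∪ sp X.z J : Set ℕ) ∈ f n i)
    (A : Set (Finset ℕ)) (hA : ∀ᶠ s in (𝓅 : Filter (Finset ℕ)), s ∈ A)
    (n : ℕ) (H : Set (Set ℕ)) (hH : H.Finite) (hHS : H ⊆ S) (a : ℕ) :
    ∃ i, (∀ y ∈ H, y ∈ f n i) ∧ ∃ s ∈ A, ∀ t ⊆ Finset.range a,
      (↑t ∪ ↑s : Set ℕ) ∈ f n i := by
  classical
  obtain ⟨R, hRA, hR⟩ := star_sub hid A hA
  have hnext : ∀ (u : {u // u ∈ R}) (l : ℕ), ∃ v : {u // u ∈ R}, ∃ s, Blk X l s ∧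
      v.1 = u.1 ∪ s := by
    intro u l
    obtain ⟨s, hs1, hs2⟩ := ((hblk l).and (hR.2 u.1 u.2)).exists
    exact ⟨⟨u.1 ∪ s, hs2⟩, s, hs1, rfl⟩
  choose nx s hs1 hs2 using hnext
  obtain ⟨u0, hu0, hu0R⟩ := ((hblk 0).and hR.1).exists
  let u : ℕ → {u // u ∈ R} := fun l => Nat.rec ⟨u0, hu0R⟩ (fun l v => nx v (l + 1)) l
  have hus : ∀ l, (u (l + 1)).1 = (u l).1 ∪ s (u l) (l + 1) := fun l => hs2 (u l) (l + 1)
  have hsb : ∀ l, Blk X (l + 1) (s (u l) (l + 1)) := fun l => hs1 (u l) (l + 1)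
  have hmono : ∀ l l', l ≤ l' → (u l).1 ⊆ (u l').1 := by
    intro l l' h
    induction l', h using Nat.le_induction with
    | base => exact subset_rfl
    | succ l' _ ih => rw [hus]; exact ih.trans Finset.subset_union_left
  let y : Set ℕ := {x | ∃ l, x ∈ (u l).1}
  have hlow : ∀ b l x, x ∈ (u l).1 → x < b → x ∈ (u b).1 := by
    intro b l
    induction l with
    | zero => intro x hx _; exact hmono 0 b (Nat.zero_le _) hx
    | succ l ih =>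
      intro x hx hxb
      rw [hus, Finset.mem_union] at hx
      rcases hx with hx | hx
      · exact ih x hx hxb
      · have h1 := (hsb l).2.1 x hx
        refine hmono (l + 1) b (by omega) ?_
        rw [hus, Finset.mem_union]; exact Or.inr hx
  have hblocks : ∀ l, ∀ x ∈ (u l).1, ∃ j, x ∈ X.z j ∧ X.z j ⊆ (u l).1 := by
    intro l
    induction l with
    | zero =>
      intro x hx
      obtain ⟨_, _, K, hK⟩ := hu0
      have hx' : x ∈ u0 := hx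
      rw [hK, Finset.mem_biUnion] at hx'
      obtain ⟨j, hj, hxj⟩ := hx'
      refine ⟨j, hxj, ?_⟩
      show X.z j ⊆ u0
      rw [hK]
      exact Finset.subset_biUnion_of_mem X.z hj
    | succ l ih =>
      intro x hx
      rw [hus, Finset.mem_union] at hx
      rcases hx with hx | hx
      · obtain ⟨j, h1, h2⟩ := ih x hx
        exact ⟨j, h1, h2.trans (hmono l (l + 1) (Nat.le_succ l))⟩
      · obtain ⟨_, _, K, hK⟩ := hsb l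
        rw [hK, Finset.mem_biUnion] at hx
        obtain ⟨j, hj, hxj⟩ := hx
        refine ⟨j, hxj, ?_⟩
        rw [hus]
        refine Finset.Subset.trans ?_ Finset.subset_union_right
        rw [hK]
        exact Finset.subset_biUnion_of_mem X.z hj
  let J : Set ℕ := {j | (X.z j : Set ℕ) ⊆ y}
  have hyJ : y = sp X.z J := by
    ext x
    constructor
    · rintro ⟨l, hl⟩
      obtain ⟨j, h1, h2⟩ := hblocks l x hl
      exact ⟨j, fun w hw => ⟨l, h2 hw⟩, h1⟩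
    · rintro ⟨j, hj, hx⟩
      exact hj hx
  have hyinf : y.Infinite := by
    intro hfin
    obtain ⟨M, hM⟩ := hfin.bddAbove
    obtain ⟨x, hx⟩ := (hsb M).1
    have h1 := (hsb M).2.1 x hx
    have h2 : x ∈ y := ⟨M + 1, by rw [hus, Finset.mem_union]; exact Or.inr hx⟩
    have := hM h2
    omega
  have hJ : J.Infinite := by
    intro hfin
    apply hyinf
    rw [hyJ]
    refine (hfin.biUnion (fun j _ => (X.z j).finite_toSet)).subset ?_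
    rintro x ⟨j, hj, hx⟩
    simp only [mem_iUnion]
    exact ⟨j, hj, hx⟩
  obtain ⟨i, hi1, hi2⟩ := HB n H hH hHS a J hJ
  refine ⟨i, hi1, ?_⟩
  have hb : ∀ t : Finset ℕ, ∃ b : ℕ, t ⊆ Finset.range a → ∀ y' : Set ℕ,
      (∀ x < b, (x ∈ y' ↔ x ∈ (↑t ∪ sp X.z J : Set ℕ))) → y' ∈ f n i := by
    intro t
    by_cases ht : t ⊆ Finset.range a
    · obtain ⟨b, hb⟩ := hf n i _ (hi2 t ht)
      exact ⟨b, fun _ => hb⟩
    · exact ⟨0, fun h => absurd h ht⟩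
  choose b hb using hb
  let B := (Finset.range a).powerset.sup b
  refine ⟨(u B).1, hRA (u B).2, ?_⟩
  intro t ht
  apply hb t ht
  intro x hx
  have hxB : x < B := lt_of_lt_of_le hx (Finset.le_sup (f := b) (Finset.mem_powerset.2 ht))
  rw [← hyJ]
  simp only [mem_union, Finset.mem_coe]
  constructor
  · rintro (h | h)
    · exact Or.inl h
    · exact Or.inr ⟨B, h⟩
  · rintro (h | ⟨l, hl⟩)
    · exact Or.inl h
    · exact Or.inr (hlow B l x hl hxB)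

lemma exists_q (X : BS) (hblk : ∀ b, ∀ᶠ s in (𝓅 : Filter (Finset ℕ)), Blk X b s)
    (hid : ∀ P : Finset ℕ → Prop, (∀ᶠ s in (𝓅 : Filter (Finset ℕ)), P s) ↔
      ∀ᶠ s in (𝓅 : Filter (Finset ℕ)), ∀ᶠ s' in (𝓅 : Filter (Finset ℕ)), P (s ∪ s'))
    (f : ℕ → ℕ → Set (Set ℕ)) (hf : ∀ n i, Op (f n i)) (S : Set (Set ℕ))
    (HB : ∀ n, ∀ H : Set (Set ℕ), H.Finite → H ⊆ S → ∀ a : ℕ, ∀ J : Set ℕ, J.Infinite →
      ∃ i, (∀ y ∈ H, y ∈ f n i) ∧ ∀ t ⊆ Finset.range a, (↑t ∪ sp X.z J : Set ℕ) ∈ f n i) :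
    ∃ 𝓆 : Ultrafilter (ℕ × ℕ), ∀ A : Set (Finset ℕ),
      (∀ᶠ s in (𝓅 : Filter (Finset ℕ)), s ∈ A) → ∀ H : Set (Set ℕ), H.Finite → H ⊆ S →
      ∀ a n₀ : ℕ, ∀ᶠ c in (𝓆 : Filter (ℕ × ℕ)), n₀ ≤ c.1 ∧ (∀ y ∈ H, y ∈ f c.1 c.2) ∧
        ∃ s ∈ A, ∀ t ⊆ Finset.range a, (↑t ∪ ↑s : Set ℕ) ∈ f c.1 c.2 := by
  let Q : Set (Finset ℕ) → Set (Set ℕ) → ℕ → ℕ → Set (ℕ × ℕ) := fun A H a n₀ =>
    {c | n₀ ≤ c.1 ∧ (∀ y ∈ H, y ∈ f c.1 c.2) ∧
        ∃ s ∈ A, ∀ t ⊆ Finset.range a, (↑t ∪ ↑s : Set ℕ) ∈ f c.1 c.2}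
  let ℱ : Filter (ℕ × ℕ) :=
    { sets := {Z | ∃ (A : Set (Finset ℕ)) (H : Set (Set ℕ)) (a n₀ : ℕ),
        (∀ᶠ s in (𝓅 : Filter (Finset ℕ)), s ∈ A) ∧ H.Finite ∧ H ⊆ S ∧ Q A H a n₀ ⊆ Z}
      univ_sets := ⟨univ, ∅, 0, 0, Filter.Eventually.of_forall (fun _ => trivial),
        Set.finite_empty, Set.empty_subset _, Set.subset_univ _⟩
      sets_of_superset := by
        rintro Z Z' ⟨A, H, a, n₀, h1, h2, h3, h4⟩ h
        exact ⟨A, H, a, n₀, h1, h2, h3, h4.trans h⟩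
      inter_sets := by
        rintro Z Z' ⟨A, H, a, n₀, h1, h2, h3, h4⟩ ⟨A', H', a', n₀', h1', h2', h3', h4'⟩
        refine ⟨A ∩ A', H ∪ H', max a a', max n₀ n₀', h1.and h1', h2.union h2',
          Set.union_subset h3 h3', ?_⟩
        rintro c ⟨hc1, hc2, s, hs, hc3⟩
        refine ⟨h4 ⟨le_trans (le_max_left _ _) hc1, fun y hy => hc2 y (Or.inl hy), s, hs.1,
          fun t ht => hc3 t (ht.trans ?_)⟩, h4' ⟨le_trans (le_max_right _ _) hc1,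
          fun y hy => hc2 y (Or.inr hy), s, hs.2, fun t ht => hc3 t (ht.trans ?_)⟩⟩
        · exact Finset.range_mono (le_max_left _ _)
        · exact Finset.range_mono (le_max_right _ _) }
  have hne : ℱ.NeBot := by
    refine ⟨fun hbot => ?_⟩
    obtain ⟨A, H, a, n₀, h1, h2, h3, h4⟩ := Filter.empty_mem_iff_bot.2 hbot
    obtain ⟨i, hi1, s, hs, hi2⟩ := key X hblk hid f hf S HB A h1 n₀ H h2 h3 a
    exact h4 (⟨le_refl _, hi1, s, hs, hi2⟩ : (n₀, i) ∈ Q A H a n₀)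
  refine ⟨Ultrafilter.of ℱ, ?_⟩
  intro A hA H hH hHS a n₀
  have h : Q A H a n₀ ∈ ℱ := ⟨A, H, a, n₀, hA, hH, hHS, subset_rfl⟩
  exact Ultrafilter.of_le ℱ h

lemma bound (f : ℕ → ℕ → Set (Set ℕ)) (hf : ∀ n i, Op (f n i)) (N a : ℕ) (s : Finset ℕ) :
    ∃ B : ℕ, ∀ n' < N, ∀ i' < N, ∀ t ⊆ Finset.range a, (↑t ∪ ↑s : Set ℕ) ∈ f n' i' →
      ∀ B' ≥ B, ∀ y' : Set ℕ, (∀ x < B', (x ∈ y' ↔ x ∈ t ∨ x ∈ s)) → y' ∈ f n' i' := by
  classical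
  have hex : ∀ c : ℕ × ℕ × Finset ℕ, ∃ B : ℕ, (↑c.2.2 ∪ ↑s : Set ℕ) ∈ f c.1 c.2.1 →
      ∀ y' : Set ℕ, (∀ x < B, (x ∈ y' ↔ x ∈ c.2.2 ∨ x ∈ s)) → y' ∈ f c.1 c.2.1 := by
    intro c
    by_cases h : (↑c.2.2 ∪ ↑s : Set ℕ) ∈ f c.1 c.2.1
    · obtain ⟨b, hb⟩ := hf _ _ _ h
      refine ⟨b, fun _ y' hy' => hb y' (fun i hi => ?_)⟩
      rw [hy' i hi]; simp
    · exact ⟨0, fun h' => absurd h' h⟩
  choose B hB using hex
  refine ⟨(Finset.range N ×ˢ Finset.range N ×ˢ (Finset.range a).powerset).sup B, ?_⟩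
  intro n' hn' i' hi' t ht hmem B' hB' y' hy'
  apply hB (n', i', t) hmem y'
  intro x hx
  apply hy' x
  refine lt_of_lt_of_le hx (le_trans ?_ hB')
  apply Finset.le_sup (f := B)
  simp only [Finset.mem_product, Finset.mem_range, Finset.mem_powerset]
  exact ⟨hn', hi', ht⟩

/-- limiting colour -/
def cG (𝓅 : Ultrafilter (Finset ℕ)) (G : Set (Set ℕ)) (t : Finset ℕ) : Prop :=
  ∀ᶠ s : Finset ℕ in (𝓅 : Filter (Finset ℕ)), (↑t ∪ ↑s : Set ℕ) ∈ G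

lemma ult_iff (P : Finset ℕ → Prop) :
    ∀ᶠ s in (𝓅 : Filter (Finset ℕ)), (P s ↔ ∀ᶠ s' in (𝓅 : Filter (Finset ℕ)), P s') := by
  by_cases h : ∀ᶠ s' in (𝓅 : Filter (Finset ℕ)), P s'
  · filter_upwards [h] with s hs
    exact ⟨fun _ => h, fun _ => hs⟩
  · have h2 := Ultrafilter.eventually_not.2 h
    filter_upwards [h2] with s hs
    exact ⟨fun h3 => absurd h3 hs, fun h3 => absurd h3 h⟩

lemma ult_iff' {𝓆 : Ultrafilter (ℕ × ℕ)} (P : ℕ × ℕ → Prop) :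
    ∀ᶠ s in (𝓆 : Filter (ℕ × ℕ)), (P s ↔ ∀ᶠ s' in (𝓆 : Filter (ℕ × ℕ)), P s') := by
  by_cases h : ∀ᶠ s' in (𝓆 : Filter (ℕ × ℕ)), P s'
  · filter_upwards [h] with s hs
    exact ⟨fun _ => h, fun _ => hs⟩
  · have h2 := Ultrafilter.eventually_not.2 h
    filter_upwards [h2] with s hs
    exact ⟨fun h3 => absurd h3 hs, fun h3 => absurd h3 h⟩

/-- states of the recursion -/
structure St (𝓅 : Ultrafilter (Finset ℕ)) (S : Set (Set ℕ)) (ε c0 : Finset ℕ → Prop) where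
  a : ℕ
  R : Set (Finset ℕ)
  n : ℕ
  H : Set (Set ℕ)
  star : IsStar 𝓅 R
  fin : H.Finite
  sub : H ⊆ S
  eps : ∀ t ⊆ Finset.range a, ∀ s ∈ R, (ε (t ∪ s) ↔ c0 t)

structure Step (X : BS) (f : ℕ → ℕ → Set (Set ℕ)) (w : ℕ → ℕ → Set ℕ) (e : ℕ → Set ℕ)
    {𝓅 : Ultrafilter (Finset ℕ)} {S : Set (Set ℕ)} {ε c0 : Finset ℕ → Prop}
    (st st' : St 𝓅 S ε c0) (s : Finset ℕ) (m i : ℕ) : Prop where
  p1 : s ∈ st.R
  p1' : Blk X st.a s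
  p2 : st.n ≤ m
  p2' : m < st'.n
  p3 : ∀ y ∈ st.H, y ∈ f m i
  p4 : ∀ t ⊆ Finset.range st.a, ∀ y' : Set ℕ,
    (∀ x < st'.a, (x ∈ y' ↔ x ∈ t ∨ x ∈ s)) → y' ∈ f m i
  p5 : ∀ t ⊆ Finset.range st.a, (cG 𝓅 (f m i) t ↔ ε t)
  p6 : st.a ≤ st'.a
  p6' : ∀ x ∈ s, x < st'.a
  p6m : m < st'.a
  p6i : i < st'.a
  p7 : st'.R ⊆ st.R
  p7' : ∀ s' ∈ st'.R, s ∪ s' ∈ st.R
  p7t : ∀ t ⊆ Finset.range st'.a, ∀ s' ∈ st'.R,
    ((↑t ∪ ↑s' : Set ℕ) ∈ f m i ↔ cG 𝓅 (f m i) t)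
  p8 : st.H ⊆ st'.H
  p8w : w m i ∈ st'.H
  p8e : ∀ k < st'.n, e k ∈ st'.H
  p9 : ∀ n' < st.a, ∀ i' < st.a, ∀ t ⊆ Finset.range st.a, (↑t ∪ ↑s : Set ℕ) ∈ f n' i' →
    ∀ y' : Set ℕ, (∀ x < st'.a, (x ∈ y' ↔ x ∈ t ∨ x ∈ s)) → y' ∈ f n' i'

lemma exists_step (X : BS) (hblk : ∀ b, ∀ᶠ s in (𝓅 : Filter (Finset ℕ)), Blk X b s)
    (hid : ∀ P : Finset ℕ → Prop, (∀ᶠ s in (𝓅 : Filter (Finset ℕ)), P s) ↔
      ∀ᶠ s in (𝓅 : Filter (Finset ℕ)), ∀ᶠ s' in (𝓅 : Filter (Finset ℕ)), P (s ∪ s'))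
    (f : ℕ → ℕ → Set (Set ℕ)) (hf : ∀ n i, Op (f n i)) (S : Set (Set ℕ))
    {𝓆 : Ultrafilter (ℕ × ℕ)} (hq : ∀ A : Set (Finset ℕ),
      (∀ᶠ s in (𝓅 : Filter (Finset ℕ)), s ∈ A) → ∀ H : Set (Set ℕ), H.Finite → H ⊆ S →
      ∀ a n₀ : ℕ, ∀ᶠ c in (𝓆 : Filter (ℕ × ℕ)), n₀ ≤ c.1 ∧ (∀ y ∈ H, y ∈ f c.1 c.2) ∧
        ∃ s ∈ A, ∀ t ⊆ Finset.range a, (↑t ∪ ↑s : Set ℕ) ∈ f c.1 c.2)
    (w : ℕ → ℕ → Set ℕ) (hw : ∀ n i, w n i ∈ S) (e : ℕ → Set ℕ) (he : ∀ k, e k ∈ S)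
    (ε c0 : Finset ℕ → Prop)
    (hε : ∀ t, ∀ᶠ c in (𝓆 : Filter (ℕ × ℕ)), (cG 𝓅 (f c.1 c.2) t ↔ ε t))
    (hc0 : ∀ t, ∀ᶠ s in (𝓅 : Filter (Finset ℕ)), (ε (t ∪ s) ↔ c0 t))
    (st : St 𝓅 S ε c0) : ∃ (st' : St 𝓅 S ε c0) (s : Finset ℕ) (m i : ℕ),
      Step X f w e st st' s m i := by
  classical
  have hA : ∀ᶠ s in (𝓅 : Filter (Finset ℕ)), s ∈ {s | s ∈ st.R ∧ Blk X st.a s} :=
    st.star.1.and (hblk st.a)
  have h1 := hq _ hA st.H st.fin st.sub st.a st.n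
  have h2 : ∀ᶠ c in (𝓆 : Filter (ℕ × ℕ)), ∀ t ∈ (Finset.range st.a).powerset,
      (cG 𝓅 (f c.1 c.2) t ↔ ε t) := by
    rw [Filter.eventually_all_finset]
    intro t _
    exact hε t
  obtain ⟨⟨m, i⟩, ⟨hm, hH, s, ⟨hsR, hsB⟩, hts⟩, hce⟩ := (h1.and h2).exists
  simp only at hm hH hts hce
  let N := max st.a (max m i) + 1
  obtain ⟨B, hB⟩ := bound f hf N st.a s
  let a' := max (max N B) (s.sup id + 1)
  have haN : N ≤ a' := le_trans (le_max_left _ _) (le_max_left _ _)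
  have haB : B ≤ a' := le_trans (le_max_right _ _) (le_max_left _ _)
  have has : s.sup id + 1 ≤ a' := le_max_right _ _
  have hNa : st.a < N := Nat.lt_succ_of_le (le_max_left _ _)
  have hNm : m < N := Nat.lt_succ_of_le (le_trans (le_max_left _ _) (le_max_right _ _))
  have hNi : i < N := Nat.lt_succ_of_le (le_trans (le_max_right _ _) (le_max_right _ _))
  have hcon : ∀ᶠ s' : Finset ℕ in (𝓅 : Filter (Finset ℕ)), s' ∈ {s' : Finset ℕ | ∀ t ∈ (Finset.range a').powerset,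
      (((↑t ∪ ↑s' : Set ℕ) ∈ f m i ↔ cG 𝓅 (f m i) t) ∧ (ε (t ∪ s') ↔ c0 t))} := by
    simp only [mem_ofPred_eq]
    rw [Filter.eventually_all_finset]
    intro t _
    exact (ult_iff (fun s' => (↑t ∪ ↑s' : Set ℕ) ∈ f m i)).and (hc0 t)
  obtain ⟨R₁, hR₁, hR₁s⟩ := star_sub hid _ hcon
  refine ⟨⟨a', {s' | s' ∈ st.R ∧ s ∪ s' ∈ st.R} ∩ R₁, m + 1,
    st.H ∪ {w m i} ∪ e '' (Set.Iio (m + 1)), (st.star.shift hsR).inter hR₁s, ?_, ?_, ?_⟩,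
    s, m, i, ?_⟩
  · exact (st.fin.union (Set.finite_singleton _)).union ((Set.finite_Iio _).image e)
  · rintro y ((hy | hy) | ⟨k, _, rfl⟩)
    · exact st.sub hy
    · rw [hy]; exact hw m i
    · exact he k
  · intro t ht s' hs'
    exact ((hR₁ hs'.2) t (Finset.mem_powerset.2 ht)).2
  · refine ⟨hsR, hsB, hm, Nat.lt_succ_self m, hH, ?_, ?_, ?_, ?_, ?_, ?_, ?_, ?_, ?_, ?_, ?_, ?_, ?_⟩
    · intro t ht y' hy'
      exact hB m hNm i hNi t ht (hts t ht) a' haB y' hy'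
    · intro t ht
      exact hce t (Finset.mem_powerset.2 ht)
    · exact hNa.le.trans haN
    · intro x hx
      have := Finset.le_sup (f := id) hx
      simp only [id] at this
      show x < a'
      have h5 : s.sup id + 1 ≤ a' := has
      have h6 : x ≤ s.sup id := this
      omega
    · exact lt_of_lt_of_le hNm haN
    · exact lt_of_lt_of_le hNi haN
    · exact fun s' hs' => hs'.1.1
    · exact fun s' hs' => hs'.1.2
    · intro t ht s' hs'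
      exact ((hR₁ hs'.2) t (Finset.mem_powerset.2 ht)).1
    · exact fun y hy => Or.inl (Or.inl hy)
    · exact Or.inl (Or.inr rfl)
    · exact fun k hk => Or.inr ⟨k, hk, rfl⟩
    · intro n' hn' i' hi' t ht hmem y' hy'
      exact hB n' (hn'.trans hNa) i' (hi'.trans hNa) t ht hmem a' haB y' hy'

end

end TauPow
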