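import Pool.Agent.Helper82.Tau3

/-!
Second density lemma.
-/

namespace TauPow

open Set Filter

/-- Alternatives for a sequence of families -/
def Alt (f : ℕ → ℕ → Set (Set ℕ)) (q : Cond) : Prop :=
  (∃ n i, ∀ y ∈ q.S, y ∈ f n i) ∨
  (∃ n, ∃ F : Set (Set ℕ), F.Finite ∧ F ⊆ q.S ∧ ∀ i, ¬ F ⊆ f n i) ∨
  (∃ (N I : ℕ → ℕ), StrictMono N ∧
    (∀ y ∈ q.S, ∃ j₀, ∀ j ≥ j₀, y ∈ f (N j) (I j)) ∧
    (∀ y, Al q.X y → (∃ j₀, ∀ j ≥ j₀, y ∈ f (N j) (I j)) ∨
        (∃ j₀, ∀ j ≥ j₀, (y ∈ f (N j) (I j) ↔ (q.X.z j : Set ℕ) ⊆ y))) ∧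
    ∀ j j', j < j' → ∃ y ∈ q.S, y ∉ f (N j) (I j) ∧ y ∈ f (N j') (I j'))

/-- initial part of an allowed set -/
noncomputable def Tp (X : BS) (t : Finset ℕ) (J : Set ℕ) (j : ℕ) : Finset ℕ :=
  by classical exact t ∪ ((Finset.range j).filter (· ∈ J)).biUnion X.z

lemma mem_Tp {X : BS} {t : Finset ℕ} {J : Set ℕ} {j x : ℕ} :
    x ∈ Tp X t J j ↔ x ∈ t ∨ ∃ i ∈ J, i < j ∧ x ∈ X.z i := by
  classical
  simp only [Tp, Finset.mem_union, Finset.mem_biUnion, Finset.mem_filter, Finset.mem_range]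
  constructor
  · rintro (h | ⟨i, ⟨h1, h2⟩, h3⟩)
    · exact Or.inl h
    · exact Or.inr ⟨i, h2, h1, h3⟩
  · rintro (h | ⟨i, h2, h1, h3⟩)
    · exact Or.inl h
    · exact Or.inr ⟨i, ⟨h1, h2⟩, h3⟩

lemma caseB (f : ℕ → ℕ → Set (Set ℕ)) (hf : ∀ n i, Op (f n i)) (p : Cond)
    (hw : ∀ n i, ∃ y ∈ p.S, y ∉ f n i)
    (HB : ∀ n, ∀ H : Set (Set ℕ), H.Finite → H ⊆ p.S → ∀ a : ℕ, ∀ J : Set ℕ, J.Infinite →
      ∃ i, (∀ y ∈ H, y ∈ f n i) ∧ ∀ t ⊆ Finset.range a, (↑t ∪ sp p.X.z J : Set ℕ) ∈ f n i) :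
    ∃ q : Cond, Ext q p ∧ ∃ (N I : ℕ → ℕ), StrictMono N ∧
    (∀ y ∈ q.S, ∃ j₀, ∀ j ≥ j₀, y ∈ f (N j) (I j)) ∧
    (∀ y, Al q.X y → (∃ j₀, ∀ j ≥ j₀, y ∈ f (N j) (I j)) ∨
        (∃ j₀, ∀ j ≥ j₀, (y ∈ f (N j) (I j) ↔ (q.X.z j : Set ℕ) ⊆ y))) ∧
    ∀ j j', j < j' → ∃ y ∈ q.S, y ∉ f (N j) (I j) ∧ y ∈ f (N j') (I j') := by
  classical
  choose w hwS hwf using hw
  obtain ⟨e, he⟩ := p.cS.exists_eq_range ⟨_, hwS 0 0⟩
  have heS : ∀ k, e k ∈ p.S := fun k => by rw [he]; exact ⟨k, rfl⟩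
  obtain ⟨𝓅, hblk, hid⟩ := exists_idem p.X
  obtain ⟨𝓆, hq⟩ := exists_q p.X hblk hid f hf p.S HB
  obtain ⟨ε, hε⟩ : ∃ ε : Finset ℕ → Prop,
      ∀ t, ∀ᶠ c in (𝓆 : Filter (ℕ × ℕ)), (cG 𝓅 (f c.1 c.2) t ↔ ε t) :=
    ⟨fun t => ∀ᶠ c in (𝓆 : Filter (ℕ × ℕ)), cG 𝓅 (f c.1 c.2) t,
      fun t => ult_iff' (fun c => cG 𝓅 (f c.1 c.2) t)⟩
  obtain ⟨c0, hc0⟩ : ∃ c0 : Finset ℕ → Prop,
      ∀ t, ∀ᶠ s in (𝓅 : Filter (Finset ℕ)), (ε (t ∪ s) ↔ c0 t) :=
    ⟨fun t => ∀ᶠ s in (𝓅 : Filter (Finset ℕ)), ε (t ∪ s),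
      fun t => ult_iff (fun s => ε (t ∪ s))⟩
  obtain ⟨R₀, hR₀, hR₀s⟩ := star_sub hid {s | ε (∅ ∪ s) ↔ c0 ∅} (hc0 ∅)
  let st0 : St 𝓅 p.S ε c0 := ⟨0, R₀, 0, ∅, hR₀s, Set.finite_empty, Set.empty_subset _, by
    intro t ht s hs
    have : t = ∅ := by simpa using ht
    rw [this]
    exact hR₀ hs⟩
  have hstep := exists_step p.X hblk hid f hf p.S hq w hwS e heS ε c0 hε hc0
  choose nx ss mm ii hstp using hstep
  let st : ℕ → St 𝓅 p.S ε c0 := fun j => Nat.rec st0 (fun _ s => nx s) j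
  have hst : ∀ j, Step p.X f w e (st j) (st (j + 1)) (ss (st j)) (mm (st j)) (ii (st j)) :=
    fun j => hstp (st j)
  -- abbreviations
  obtain ⟨z, hz⟩ : ∃ z : ℕ → Finset ℕ, z = fun j => ss (st j) := ⟨_, rfl⟩
  obtain ⟨N, hN⟩ : ∃ N : ℕ → ℕ, N = fun j => mm (st j) := ⟨_, rfl⟩
  obtain ⟨I, hI⟩ : ∃ I : ℕ → ℕ, I = fun j => ii (st j) := ⟨_, rfl⟩
  have hS : ∀ j, Step p.X f w e (st j) (st (j + 1)) (z j) (N j) (I j) := by
    intro j; rw [hz, hN, hI]; exact hst j
  clear_value st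
  have amono : ∀ i j, i ≤ j → (st i).a ≤ (st j).a := by
    intro i j h
    induction j, h using Nat.le_induction with
    | base => exact le_rfl
    | succ j _ ih => exact ih.trans (hS j).p6
  have hzlow : ∀ j, ∀ x ∈ z j, (st j).a ≤ x := fun j => (hS j).p1'.2.1
  have hzup : ∀ j, ∀ x ∈ z j, x < (st (j + 1)).a := fun j => (hS j).p6'
  have astrict : ∀ j, (st j).a < (st (j + 1)).a := by
    intro j
    obtain ⟨x, hx⟩ := (hS j).p1'.1
    exact lt_of_le_of_lt (hzlow j x hx) (hzup j x hx)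
  have aid : ∀ j, j ≤ (st j).a := by
    intro j
    induction j with
    | zero => exact Nat.zero_le _
    | succ j ih => have := astrict j; omega
  let X : BS := ⟨z, fun j => (hS j).p1'.1, fun i j hij x hx y hy =>
    lt_of_lt_of_le (hzup i x hx) ((amono (i + 1) j hij).trans (hzlow j y hy))⟩
  have hXz : X.z = z := rfl
  have hRf : Rf X p.X := ⟨0, fun j _ => (hS j).p1'.2.2⟩
  let q : Cond := ⟨p.S, X, p.cS, p.ch, by
    intro y hy
    obtain ⟨j₁, hj₁⟩ := p.bl y hy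
    obtain ⟨j₂, hj₂⟩ := hRf.strong j₁
    refine ⟨j₂, fun j hj => ?_⟩
    obtain ⟨K, hK1, hK2⟩ := hj₂ j hj
    intro x hx
    have hx' : x ∈ X.z j := hx
    rw [hK2, Finset.mem_biUnion] at hx'
    obtain ⟨i, hi, hxi⟩ := hx'
    exact hj₁ i (hK1 i hi) hxi⟩
  have nmono : ∀ j, (st j).n ≤ N j ∧ N j < (st (j + 1)).n := fun j => ⟨(hS j).p2, (hS j).p2'⟩
  have hNm : StrictMono N := strictMono_nat_of_lt_succ (fun j => by
    have h1 := (nmono j).2
    have h2 := (nmono (j + 1)).1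
    omega)
  have nid : ∀ j, j ≤ (st j).n := by
    intro j
    induction j with
    | zero => exact Nat.zero_le _
    | succ j ih => have := nmono j; omega
  have Hmono : ∀ i j, i ≤ j → (st i).H ⊆ (st j).H := by
    intro i j h
    induction j, h using Nat.le_induction with
    | base => exact subset_rfl
    | succ j _ ih => exact ih.trans (hS j).p8
  have Rmono : ∀ i j, i ≤ j → (st j).R ⊆ (st i).R := by
    intro i j h
    induction j, h using Nat.le_induction with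
    | base => exact subset_rfl
    | succ j _ ih => exact (hS j).p7.trans ih
  -- unions
  have hun : ∀ (c : ℕ) (K : Finset ℕ), K.card = c → K.Nonempty → ∀ i, (∀ k ∈ K, i ≤ k) →
      K.biUnion z ∈ (st i).R := by
    intro c
    induction c with
    | zero =>
      intro K hK hne
      rw [Finset.card_eq_zero] at hK
      rw [hK] at hne
      exact absurd hne (by simp)
    | succ c ih =>
      intro K hK hne i hi
      let k := K.min' hne
      have hk : k ∈ K := Finset.min'_mem K hne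
      have hik : i ≤ k := hi k hk
      by_cases hK' : (K.erase k).Nonempty
      · have h1 : (K.erase k).card = c := by
          rw [Finset.card_erase_of_mem hk, hK]; rfl
        have h2 := ih (K.erase k) h1 hK' (k + 1) (by
          intro l hl
          have h3 := Finset.min'_le K l (Finset.mem_of_mem_erase hl)
          have h4 := Finset.ne_of_mem_erase hl
          have h5 : k ≤ l := h3
          omega)
        have h3 := (hS k).p7' _ h2
        have h4 : K.biUnion z = z k ∪ (K.erase k).biUnion z := by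
          conv_lhs => rw [← Finset.insert_erase hk]
          rw [Finset.biUnion_insert]
        rw [h4]
        exact Rmono i k hik h3
      · rw [Finset.not_nonempty_iff_eq_empty] at hK'
        have h4 : K = {k} := by
          rw [← Finset.insert_erase hk, hK']; rfl
        rw [h4, Finset.singleton_biUnion]
        exact Rmono i k hik (hS k).p1
  have hun' : ∀ (K : Finset ℕ), K.Nonempty → ∀ i, (∀ k ∈ K, i ≤ k) →
      K.biUnion z ∈ (st i).R := fun K => hun K.card K rfl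
  refine ⟨q, ⟨subset_rfl, hRf, fun y hy hy' => absurd hy hy'⟩, N, I, hNm, ?_, ?_, ?_⟩
  · -- (a)
    intro y hy
    have hy' : y ∈ p.S := hy
    rw [he] at hy'
    obtain ⟨k, rfl⟩ := hy'
    refine ⟨k + 1, fun j hj => (hS j).p3 _ ?_⟩
    refine Hmono (k + 1) j hj ((hS k).p8e k ?_)
    have := nid (k + 1)
    omega
  · -- (b)
    rintro y ⟨t, J, hJ, rfl⟩
    obtain ⟨i₀, hi₀⟩ : ∃ i₀, t ⊆ Finset.range (st i₀).a := by
      refine ⟨t.sup id + 1, fun x hx => ?_⟩
      have h1 : x ≤ t.sup id := Finset.le_sup (f := id) hx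
      have h2 := aid (t.sup id + 1)
      rw [Finset.mem_range]; omega
    let T : ℕ → Finset ℕ := Tp X t J
    have hT : ∀ j x, x ∈ T j ↔ x ∈ t ∨ ∃ i ∈ J, i < j ∧ x ∈ z i := fun j x => mem_Tp
    have hTr : ∀ j, i₀ ≤ j → T j ⊆ Finset.range (st j).a := by
      intro j hj x hx
      rw [hT] at hx
      rw [Finset.mem_range]
      rcases hx with hx | ⟨i, _, hij, hx⟩
      · have := Finset.mem_range.1 (hi₀ hx)
        exact lt_of_lt_of_le this (amono _ _ hj)
      · exact lt_of_lt_of_le (hzup i x hx) (amono _ _ hij)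
    have hyT : ∀ j, i₀ ≤ j → ∀ x < (st j).a,
        (x ∈ (↑t ∪ sp X.z J : Set ℕ) ↔ x ∈ T j) := by
      intro j hj x hx
      rw [hT]
      simp only [mem_union, Finset.mem_coe, sp, mem_ofPred_eq]
      constructor
      · rintro (h | ⟨i, hi, hxi⟩)
        · exact Or.inl h
        · refine Or.inr ⟨i, hi, ?_, hxi⟩
          by_contra hij
          push Not at hij
          have h1 := hzlow i x hxi
          have h2 := amono j i hij
          omega
      · rintro (h | ⟨i, hi, _, hxi⟩)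
        · exact Or.inl h
        · exact Or.inr ⟨i, hi, hxi⟩
    have hTs : ∀ j ∈ J, ∀ x, (x ∈ T (j + 1) ↔ x ∈ T j ∨ x ∈ z j) := by
      intro j hj x
      rw [hT, hT]
      constructor
      · rintro (h | ⟨i, hi, hij, hxi⟩)
        · exact Or.inl (Or.inl h)
        · rcases (Nat.lt_succ_iff.1 hij).lt_or_eq with h | h
          · exact Or.inl (Or.inr ⟨i, hi, h, hxi⟩)
          · subst h; exact Or.inr hxi
      · rintro ((h | ⟨i, hi, hij, hxi⟩) | h)
        · exact Or.inl h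
        · exact Or.inr ⟨i, hi, by omega, hxi⟩
        · exact Or.inr ⟨j, hj, by omega, h⟩
    -- j ∈ J
    have hin : ∀ j, i₀ ≤ j → j ∈ J → (↑t ∪ sp X.z J : Set ℕ) ∈ f (N j) (I j) := by
      intro j hj hjJ
      refine (hS j).p4 (T j) (hTr j hj) _ (fun x hx => ?_)
      rw [hyT (j + 1) (by omega) x hx, hTs j hjJ]
    -- general union
    have hTu : ∀ j j', j ≤ j' → T j' = T j ∪ ((Finset.Ico j j').filter (· ∈ J)).biUnion z := by
      intro j j' hjj'
      ext x
      rw [Finset.mem_union, hT, hT, Finset.mem_biUnion]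
      simp only [Finset.mem_filter, Finset.mem_Ico]
      constructor
      · rintro (h | ⟨i, hi, hij, hxi⟩)
        · exact Or.inl (Or.inl h)
        · by_cases hc : i < j
          · exact Or.inl (Or.inr ⟨i, hi, hc, hxi⟩)
          · exact Or.inr ⟨i, ⟨⟨by omega, hij⟩, hi⟩, hxi⟩
      · rintro ((h | ⟨i, hi, hij, hxi⟩) | ⟨i, ⟨⟨_, hij⟩, hi⟩, hxi⟩)
        · exact Or.inl h
        · exact Or.inr ⟨i, hi, by omega, hxi⟩
        · exact Or.inr ⟨i, hi, hij, hxi⟩
    -- j ∉ J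
    have hout : ∀ j, i₀ ≤ j → j ∉ J →
        ((↑t ∪ sp X.z J : Set ℕ) ∈ f (N j) (I j) ↔ cG 𝓅 (f (N j) (I j)) (T j)) := by
      intro j hj hjJ
      have hTr' : T j ⊆ Finset.range (st (j + 1)).a :=
        (hTr j hj).trans (Finset.range_mono (hS j).p6)
      constructor
      · intro hy
        obtain ⟨b, hb⟩ := hf _ _ _ hy
        obtain ⟨i, hiJ, hi⟩ := hJ.exists_gt (max j b)
        have hji : j < i := lt_of_le_of_lt (le_max_left _ _) hi
        have hbi : b < i := lt_of_le_of_lt (le_max_right _ _) hi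
        have hK : (((Finset.Ico j (i + 1)).filter (· ∈ J))).Nonempty :=
          ⟨i, by simp only [Finset.mem_filter, Finset.mem_Ico]; exact ⟨⟨by omega, by omega⟩, hiJ⟩⟩
        have hs' := hun' _ hK (j + 1) (by
          intro k hk
          simp only [Finset.mem_filter, Finset.mem_Ico] at hk
          have : k ≠ j := fun h => hjJ (h ▸ hk.2)
          omega)
        rw [← (hS j).p7t (T j) hTr' _ hs']
        apply hb
        intro x hx
        have hxa : x < (st (i + 1)).a := by have := aid (i + 1); omega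
        rw [hyT (i + 1) (by omega) x hxa, hTu j (i + 1) (by omega)]
        simp
      · intro hc
        have hex : ∃ i, i ∈ J ∧ j < i := by
          obtain ⟨i, hi, hi'⟩ := hJ.exists_gt j
          exact ⟨i, hi, hi'⟩
        let i := Nat.find hex
        have hiJ : i ∈ J := (Nat.find_spec hex).1
        have hji : j < i := (Nat.find_spec hex).2
        have hmin : ∀ k, k ∈ J → j < k → i ≤ k := fun k h1 h2 => Nat.find_min' hex ⟨h1, h2⟩
        have hs' : z i ∈ (st (j + 1)).R := Rmono (j + 1) i hji (hS i).p1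
        have hmem := ((hS j).p7t (T j) hTr' _ hs').2 hc
        have hN1 : N j < (st i).a := lt_of_lt_of_le (hS j).p6m (amono _ _ hji)
        have hI1 : I j < (st i).a := lt_of_lt_of_le (hS j).p6i (amono _ _ hji)
        refine (hS i).p9 (N j) hN1 (I j) hI1 (T j)
          ((hTr j hj).trans (Finset.range_mono (amono j i hji.le))) hmem _ ?_
        intro x hx
        rw [hyT (i + 1) (by omega) x hx, hTs i hiJ]
        have hTij : T i = T j := by
          rw [hTu j i hji.le]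
          have : (Finset.Ico j i).filter (· ∈ J) = ∅ := by
            rw [Finset.filter_eq_empty_iff]
            intro k hk hkJ
            rw [Finset.mem_Ico] at hk
            have h1 : k ≠ j := fun h => hjJ (h ▸ hkJ)
            have h2 := hmin k hkJ (by omega)
            omega
          rw [this]; simp
        rw [hTij]
    -- least element of J above i₀
    obtain ⟨js, hjsJ, hjs⟩ : ∃ js ∈ J, i₀ ≤ js := by
      obtain ⟨i, hi, hi'⟩ := hJ.exists_gt i₀
      exact ⟨i, hi, hi'.le⟩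
    have hcol : ∀ j, js < j → (ε (T j) ↔ c0 (T js)) := by
      intro j hj
      rw [hTu js j hj.le]
      apply (st js).eps (T js) (hTr js hjs)
      apply hun'
      · exact ⟨js, by simp only [Finset.mem_filter, Finset.mem_Ico]; exact ⟨⟨le_rfl, hj⟩, hjsJ⟩⟩
      · intro k hk
        simp only [Finset.mem_filter, Finset.mem_Ico] at hk
        exact hk.1.1
    have hout' : ∀ j, js < j → j ∉ J →
        ((↑t ∪ sp X.z J : Set ℕ) ∈ f (N j) (I j) ↔ c0 (T js)) := by
      intro j hj hjJ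
      rw [hout j (by omega) hjJ, (hS j).p5 (T j) (hTr j (by omega)), hcol j hj]
    by_cases hc : c0 (T js)
    · left
      refine ⟨js + 1, fun j hj => ?_⟩
      by_cases hjJ : j ∈ J
      · exact hin j (by omega) hjJ
      · exact (hout' j (by omega) hjJ).2 hc
    · right
      refine ⟨js + 1, fun j hj => ?_⟩
      by_cases hjJ : j ∈ J
      · refine ⟨fun _ x hx => Or.inr ⟨j, hjJ, hx⟩, fun _ => hin j (by omega) hjJ⟩
      · refine ⟨fun h => absurd ((hout' j (by omega) hjJ).1 h) hc, fun h => ?_⟩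
        exfalso
        obtain ⟨x, hx⟩ := (hS j).p1'.1
        have h1 : x ∈ (↑t ∪ sp X.z J : Set ℕ) := h hx
        rw [hyT (j + 1) (by omega) x (hzup j x hx), hT] at h1
        rcases h1 with h1 | ⟨i, hi, hij, hxi⟩
        · have h2 := Finset.mem_range.1 (hi₀ h1)
          have h3 := hzlow j x hx
          have h4 := amono i₀ j (by omega)
          omega
        · have := X.eq_of_mem hxi hx
          rw [this] at hi
          exact hjJ hi
  · -- (c)
    intro j j' hjj'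
    refine ⟨w (N j) (I j), hwS _ _, hwf _ _, ?_⟩
    exact (hS j').p3 _ (Hmono (j + 1) j' hjj' (hS j).p8w)

/-- Second density lemma. -/
lemma dense_family (f : ℕ → ℕ → Set (Set ℕ)) (hf : ∀ n i, Op (f n i)) (p : Cond) :
    ∃ q : Cond, Ext q p ∧ Alt f q := by
  classical
  by_cases h1 : ∃ n i, ∀ y ∈ p.S, y ∈ f n i
  · exact ⟨p, Ext.refl p, Or.inl h1⟩
  push Not at h1
  by_cases HB : ∀ n, ∀ H : Set (Set ℕ), H.Finite → H ⊆ p.S → ∀ a : ℕ, ∀ J : Set ℕ, J.Infinite →
      ∃ i, (∀ y ∈ H, y ∈ f n i) ∧ ∀ t ⊆ Finset.range a, (↑t ∪ sp p.X.z J : Set ℕ) ∈ f n i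
  · obtain ⟨q, hq, hq'⟩ := caseB f hf p h1 HB
    exact ⟨q, hq, Or.inr (Or.inr hq')⟩
  · push Not at HB
    obtain ⟨n, H, hH, hHS, a, J, hJ, hno⟩ := HB
    haveI : Infinite J := hJ.to_subtype
    let g := Nat.orderEmbeddingOfSet J
    let F : Set (Set ℕ) := (fun t : Finset ℕ => (↑t ∪ sp p.X.z J : Set ℕ)) ''
      ((Finset.range a).powerset : Set (Finset ℕ))
    have hF : F.Finite := (Finset.finite_toSet _).image _
    obtain ⟨q, hq, hqS⟩ := add_sets p g g.strictMono F hF (by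
      rintro _ ⟨t, _, rfl⟩ _ ⟨t', _, rfl⟩
      left
      refine t.finite_toSet.subset ?_
      rintro x ⟨hx | hx, hx'⟩
      · exact hx
      · exact absurd (Or.inr hx) hx') (by
      rintro _ ⟨t, _, rfl⟩
      exact ⟨t, J, hJ, rfl, fun n => Nat.orderEmbeddingOfSet_range J ▸ ⟨n, rfl⟩⟩)
    refine ⟨q, hq, Or.inr (Or.inl ⟨n, H ∪ F, hH.union hF, ?_, ?_⟩)⟩
    · rw [hqS]
      exact Set.union_subset_union_left F hHS
    · intro i hi
      obtain ⟨t, ht, ht'⟩ := hno i (fun y hy => hi (Or.inl hy))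
      exact ht' (hi (Or.inr ⟨t, Finset.mem_coe.2 (Finset.mem_powerset.2 ht), rfl⟩))

end TauPow
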