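import Pool.Agent.Helper82.Tau4

/-!
Transfinite construction under CH.
-/

namespace TauPow

open Set Filter Cardinal

lemma exists_chain {P : Type*} (R : P → P → Prop) (hrefl : ∀ p, R p p)
    (htrans : ∀ p q r, R r q → R q p → R r p)
    (hσ : ∀ p : ℕ → P, (∀ m n, m ≤ n → R (p n) (p m)) → ∃ q, ∀ n, R q (p n))
    {I : Type*} [LinearOrder I] [WellFoundedLT I] (hI : ∀ i : I, (Iio i).Countable)
    (D : I → P → Prop) (hD : ∀ i p, ∃ q, R q p ∧ D i q) (p0 : P) :
    ∃ g : I → P, (∀ i j, i ≤ j → R (g j) (g i)) ∧ ∀ i, D i (g i) := by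
  classical
  let F : (i : I) → ((j : I) → j < i → P) → P := fun i rec =>
    if h : ∃ q, ∀ j (hj : j < i), R q (rec j hj) then Classical.choose (hD i (Classical.choose h))
    else p0
  let g : I → P := WellFounded.fix (wellFounded_lt (α := I)) F
  have hg : ∀ i, g i = F i (fun j _ => g j) := fun i =>
    WellFounded.fix_eq (wellFounded_lt (α := I)) F i
  have hspec : ∀ i, (∃ q, ∀ j < i, R q (g j)) → (∀ j < i, R (g i) (g j)) ∧ D i (g i) := by
    intro i h
    have h1 : g i = Classical.choose (hD i (Classical.choose h)) := by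
      rw [hg i]
      simp only [F]
      rw [dif_pos h]
    have h2 := Classical.choose_spec (hD i (Classical.choose h))
    rw [← h1] at h2
    refine ⟨fun j hj => htrans _ _ _ h2.1 (Classical.choose_spec h j hj), h2.2⟩
  have hall : ∀ i, ∃ q, ∀ j < i, R q (g j) := by
    intro i
    induction i using WellFoundedLT.induction with
    | ind i ih =>
      have hch : ∀ j k, j < i → k < j → R (g j) (g k) := fun j k hj hk =>
        (hspec j (ih j hj)).1 k hk
      have hch' : ∀ j k, j < i → k ≤ j → R (g j) (g k) := by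
        intro j k hj hk
        rcases hk.lt_or_eq with h | h
        · exact hch j k hj h
        · rw [h]; exact hrefl _
      by_cases hne : (Iio i).Nonempty
      · obtain ⟨f, hf⟩ := (hI i).exists_eq_range hne
        have hfi : ∀ n, f n < i := fun n => by
          have : f n ∈ Iio i := by rw [hf]; exact ⟨n, rfl⟩
          exact this
        let m : ℕ → I := fun n => Nat.rec (f 0) (fun n x => max x (f (n + 1))) n
        have hm0 : m 0 = f 0 := rfl
        have hms : ∀ n, m (n + 1) = max (m n) (f (n + 1)) := fun n => rfl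
        have hmi : ∀ n, m n < i := by
          intro n
          induction n with
          | zero => rw [hm0]; exact hfi 0
          | succ n ih => rw [hms]; exact max_lt ih (hfi _)
        have hfm : ∀ n, f n ≤ m n := by
          intro n
          cases n with
          | zero => rw [hm0]
          | succ n => rw [hms]; exact le_max_right _ _
        have hmm : Monotone m := monotone_nat_of_le_succ (fun n => by
          rw [hms]; exact le_max_left _ _)
        obtain ⟨q, hq⟩ := hσ (fun n => g (m n)) (fun a b hab => hch' _ _ (hmi b) (hmm hab))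
        refine ⟨q, fun j hj => ?_⟩
        have : j ∈ range f := by rw [← hf]; exact hj
        obtain ⟨n, rfl⟩ := this
        exact htrans _ _ _ (hq n) (hch' _ _ (hmi n) (hfm n))
      · refine ⟨p0, fun j hj => absurd ⟨j, hj⟩ hne⟩
  refine ⟨g, ?_, fun i => (hspec i (hall i)).2⟩
  intro i j hij
  rcases hij.lt_or_eq with h | h
  · exact (hspec j (hall j)).1 i h
  · rw [h]; exact hrefl _

/-- tasks -/
abbrev Task := Set (ℕ × ℕ × ℕ × Finset ℕ) ⊕ Set ℕ

lemma mk_task : #Task = 𝔠 := by
  have h1 : #(Set (ℕ × ℕ × ℕ × Finset ℕ)) = 𝔠 := by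
    rw [Cardinal.mk_set]
    have : #(ℕ × ℕ × ℕ × Finset ℕ) = ℵ₀ := Cardinal.mk_eq_aleph0 _
    rw [this, Cardinal.two_power_aleph0]
  have h2 : #(Set ℕ) = 𝔠 := by
    rw [Cardinal.mk_set, Cardinal.mk_nat, Cardinal.two_power_aleph0]
  rw [Cardinal.mk_sum, Cardinal.lift_id, Cardinal.lift_id, h1, h2, Cardinal.continuum_add_self]

lemma exists_index (hCH : (𝔠 : Cardinal.{0}) = ℵ₁) :
    ∃ (I : Type) (_ : LinearOrder I) (_ : WellFoundedLT I) (e : I → Task),
      (∀ i : I, (Iio i).Countable) ∧ ∀ t, ¬ (e ⁻¹' {t}).Countable := by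
  let I := (ℵ₁ : Cardinal.{0}).ord.ToType
  have hI : #I = ℵ₁ := Cardinal.mk_ord_toType _
  have h1 : #I = #(Task × I) := by
    rw [Cardinal.mk_prod, Cardinal.lift_id, Cardinal.lift_id, mk_task, hI, ← hCH,
      Cardinal.continuum_mul_self]
  obtain ⟨φ⟩ := Cardinal.eq.1 h1
  refine ⟨I, inferInstance, inferInstance, fun i => (φ i).1, ?_, ?_⟩
  · intro i
    rw [← Cardinal.le_aleph0_iff_set_countable, ← Cardinal.lt_aleph_one_iff]
    exact Cardinal.mk_Iio_toType_ord_lt i
  · intro t hc
    have h2 : (range (fun i : I => φ.symm (t, i))).Countable := by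
      refine hc.mono ?_
      rintro _ ⟨i, rfl⟩
      simp
    have hinj : Function.Injective (fun i : I => φ.symm (t, i)) := by
      intro a b h
      have := φ.symm.injective h
      exact (Prod.mk.inj this).2
    have h3 : (univ : Set I).Countable := by
      have := Set.countable_univ_iff (α := I)
      rw [this]
      have h4 : Countable (range (fun i : I => φ.symm (t, i))) := h2.to_subtype
      exact (Equiv.ofInjective _ hinj).countable_iff.2 h4
    rw [Set.countable_univ_iff, ← Cardinal.mk_le_aleph0_iff, hI] at h3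
    exact absurd (Cardinal.aleph0_lt_aleph_one) (not_lt.2 h3)

/-- decode -/
def dec (C : Set (ℕ × ℕ × ℕ × Finset ℕ)) (n i : ℕ) : Set (Set ℕ) :=
  {y | ∃ b s, (n, i, b, s) ∈ C ∧ ∀ x < b, (x ∈ y ↔ x ∈ s)}

lemma Op_dec (C : Set (ℕ × ℕ × ℕ × Finset ℕ)) (n i : ℕ) : Op (dec C n i) := by
  rintro y ⟨b, s, h, hy⟩
  refine ⟨b, fun y' hy' => ⟨b, s, h, fun x hx => ?_⟩⟩
  rw [hy' x hx, hy x hx]

lemma exists_code (f : ℕ → ℕ → Set (Set ℕ)) (hf : ∀ n i, Op (f n i)) :
    ∃ C, ∀ n i, dec C n i = f n i := by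
  classical
  refine ⟨{c | ∀ y : Set ℕ, (∀ x < c.2.2.1, (x ∈ y ↔ x ∈ c.2.2.2)) → y ∈ f c.1 c.2.1}, ?_⟩
  intro n i
  ext y
  constructor
  · rintro ⟨b, s, h, hy⟩
    exact h y hy
  · intro hy
    obtain ⟨b, hb⟩ := hf n i y hy
    refine ⟨b, (Finset.range b).filter (· ∈ y), ?_, ?_⟩
    · intro y' hy'
      apply hb
      intro x hx
      rw [hy' x hx]
      simp only [Finset.mem_filter, Finset.mem_range]
      exact ⟨fun h => h.2, fun h => ⟨hx, h⟩⟩
    · intro x hx
      simp only [Finset.mem_filter, Finset.mem_range]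
      exact ⟨fun h => ⟨hx, h⟩, fun h => h.2⟩

def Split (A : Set ℕ) (q : Cond) : Prop :=
  ∃ x ∈ q.S, ∃ y ∈ q.S, ∃ z ∈ q.S,
      {i | i ∈ A ∧ Wm i x y ∧ ¬ Wm i y z}.Infinite ∧
      {i | i ∈ A ∧ Wm i y z ∧ ¬ Wm i x y}.Infinite

lemma exists_base : ∃ _ : Cond, True :=
  ⟨⟨∅, ⟨fun n => {n}, fun n => by simp, fun i j h x hx y hy => by
    simp only [Finset.mem_singleton] at hx hy; omega⟩, Set.countable_empty,
    fun x hx => absurd hx (Set.notMem_empty x), fun x hx => absurd hx (Set.notMem_empty x)⟩,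
    trivial⟩

/-- The generic sequence of conditions. -/
theorem exists_generic (hCH : (𝔠 : Cardinal.{0}) = ℵ₁) :
    ∃ (I : Type) (_ : LinearOrder I) (g : I → Cond),
      (∀ i j, i ≤ j → Ext (g j) (g i)) ∧
      (∀ f : ℕ → ℕ → Set (Set ℕ), (∀ n i, Op (f n i)) → ∀ β : ℕ → I,
        ∃ α, (∀ k, β k ≤ α) ∧ Alt f (g α)) ∧
      (∀ A : Set ℕ, A.Infinite → ∃ α, Split A (g α)) := by
  obtain ⟨I, _, _, e, hI, he⟩ := exists_index hCH
  obtain ⟨p0, _⟩ := exists_base
  let D : I → Cond → Prop := fun i q => Sum.elim (fun C => Alt (dec C) q)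
    (fun A => A.Infinite → Split A q) (e i)
  obtain ⟨g, hg1, hg2⟩ := exists_chain (P := Cond) Ext Ext.refl (fun p q r h h' => h.trans h')
    sigma_closed hI D (by
      intro i p
      rcases hei : e i with C | A
      · obtain ⟨q, hq, hq'⟩ := dense_family (dec C) (Op_dec C) p
        refine ⟨q, hq, ?_⟩
        show Sum.elim _ _ (e i)
        rw [hei]; exact hq'
      · by_cases hA : A.Infinite
        · obtain ⟨q, hq, hq'⟩ := dense_split A hA p
          refine ⟨q, hq, ?_⟩
          show Sum.elim _ _ (e i)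
          rw [hei]; exact fun _ => hq'
        · refine ⟨p, Ext.refl p, ?_⟩
          show Sum.elim _ _ (e i)
          rw [hei]; exact fun h => absurd h hA) p0
  have hsurj : ∀ t : Task, ∀ β : ℕ → I, ∃ α, (∀ k, β k ≤ α) ∧ e α = t := by
    intro t β
    have hc : (⋃ k, Iio (β k)).Countable := Set.countable_iUnion (fun k => hI (β k))
    have : ∃ α, α ∈ e ⁻¹' {t} ∧ α ∉ ⋃ k, Iio (β k) := by
      by_contra h
      push Not at h
      exact he t (hc.mono h)
    obtain ⟨α, h1, h2⟩ := this
    refine ⟨α, fun k => ?_, h1⟩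
    by_contra h
    push Not at h
    exact h2 (mem_iUnion.2 ⟨k, h⟩)
  have hIne : Nonempty I := by
    by_contra h
    rw [not_nonempty_iff] at h
    apply he (Sum.inr ∅)
    exact Set.to_countable _
  obtain ⟨i0⟩ := hIne
  refine ⟨I, inferInstance, g, hg1, ?_, ?_⟩
  · intro f hf β
    obtain ⟨C, hC⟩ := exists_code f hf
    obtain ⟨α, h1, h2⟩ := hsurj (Sum.inl C) β
    refine ⟨α, h1, ?_⟩
    have h3 := hg2 α
    simp only [D] at h3
    rw [h2] at h3
    have h4 : dec C = f := by
      funext n i; exact hC n i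
    rw [← h4]; exact h3
  · intro A hA
    obtain ⟨α, _, h2⟩ := hsurj (Sum.inr A) (fun _ => i0)
    refine ⟨α, ?_⟩
    have h3 := hg2 α
    simp only [D] at h3
    rw [h2] at h3
    exact h3 hA

end TauPow
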