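import Pool.Agent.Helper82.Tau5
import Pool.Agent.Helper82.Tau1

/-!
From the generic sequence to a set of reals.
-/

namespace TauPow

open Set Filter Cardinal

section abs

variable {I : Type} [LinearOrder I] {g : I → Cond}

lemma J_le_of_ext {p q : Cond} (h : Ext q p) : p.S ⊆ q.S := h.1

lemma finite_stage (hg : ∀ i j, i ≤ j → Ext (g j) (g i)) [Nonempty I] (F : Set (Set ℕ))
    (hF : F.Finite) (hFT : F ⊆ ⋃ i, (g i).S) : ∃ i, F ⊆ (g i).S := by
  induction F, hF using Set.Finite.induction_on with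
  | empty => exact ⟨Classical.arbitrary I, Set.empty_subset _⟩
  | @insert a s _ _ ih =>
    obtain ⟨i, hi⟩ := ih (fun x hx => hFT (Or.inr hx))
    obtain ⟨j, hj⟩ := mem_iUnion.1 (hFT (Or.inl rfl))
    refine ⟨max i j, ?_⟩
    rintro x (rfl | hx)
    · exact (hg j _ (le_max_right _ _)).1 hj
    · exact (hg i _ (le_max_left _ _)).1 (hi hx)

lemma finite_inter (p : Cond) (F : Set (Set ℕ)) (hF : F.Finite) (hFS : F ⊆ p.S) :
    ∃ j₀, ∀ j ≥ j₀, ∀ y ∈ F, (p.X.z j : Set ℕ) ⊆ y := by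
  induction F, hF using Set.Finite.induction_on with
  | empty => exact ⟨0, fun _ _ y hy => absurd hy (Set.notMem_empty y)⟩
  | @insert a s _ _ ih =>
    obtain ⟨j₀, hj₀⟩ := ih (fun x hx => hFS (Or.inr hx))
    obtain ⟨j₁, hj₁⟩ := p.bl a (hFS (Or.inl rfl))
    refine ⟨max j₀ j₁, fun j hj => ?_⟩
    rintro y (rfl | hy)
    · exact hj₁ j (le_trans (le_max_right _ _) hj)
    · exact hj₀ j (le_trans (le_max_left _ _) hj) y hy

variable {Y : Type} [TopologicalSpace Y] {Φ : Y → Set ℕ}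

/-- The space `Y` coded by the generic family satisfies `S_fin(Ω,T)`. -/
lemma sfin_Y (hg : ∀ i j, i ≤ j → Ext (g j) (g i)) [Nonempty I]
    (hg2 : ∀ f : ℕ → ℕ → Set (Set ℕ), (∀ n i, Op (f n i)) → ∀ β : ℕ → I,
        ∃ α, (∀ k, β k ≤ α) ∧ Alt f (g α))
    (hΦT : range Φ = ⋃ i, (g i).S)
    (hop : ∀ u : Set Y, IsOpen u → ∃ G : Set (Set ℕ), Op G ∧ u = Φ ⁻¹' G) :
    Sfin (Omega Y) (Tau Y) := by
  classical
  intro U hU
  -- countable codes
  obtain ⟨cd, hcd⟩ := exists_surjective_nat (ℕ × Finset (Finset ℕ))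
  let Bs : ℕ × Finset (Finset ℕ) → Set Y := fun c =>
    {y | ∃ s ∈ c.2, ∀ x < c.1, (x ∈ Φ y ↔ x ∈ s)}
  have hsel : ∀ n, ∀ c, ∃ u ∈ U n, (∃ v ∈ U n, Bs c ⊆ v) → Bs c ⊆ u := by
    intro n c
    by_cases h : ∃ v ∈ U n, Bs c ⊆ v
    · obtain ⟨v, hv, hc⟩ := h
      exact ⟨v, hv, fun _ => hc⟩
    · obtain ⟨u, hu, _⟩ := (hU n).2 ∅ Set.finite_empty
      exact ⟨u, hu, fun h' => absurd h' h⟩
  choose u huU huB using hsel
  have hG : ∀ n c, ∃ G : Set (Set ℕ), Op G ∧ u n c = Φ ⁻¹' G := fun n c =>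
    hop _ ((hU n).1.1 _ (huU n c))
  choose G hGo hGu using hG
  have homega : ∀ n, ∀ F : Set Y, F.Finite → ∃ c, F ⊆ u n c := by
    intro n F hF
    obtain ⟨v, hv, hFv⟩ := (hU n).2 F hF
    obtain ⟨G', hG'o, hG'⟩ := hop v ((hU n).1.1 _ hv)
    -- bound
    have hb : ∃ b : ℕ, ∀ y ∈ F, ∀ y' : Set ℕ, (∀ x < b, (x ∈ y' ↔ x ∈ Φ y)) → y' ∈ G' := by
      clear huB hGu
      induction F, hF using Set.Finite.induction_on with
      | empty => exact ⟨0, fun y hy => absurd hy (Set.notMem_empty y)⟩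
      | @insert a s _ _ ih =>
        obtain ⟨b, hb⟩ := ih (fun x hx => hFv (Or.inr hx))
        have ha : Φ a ∈ G' := by
          have : a ∈ v := hFv (Or.inl rfl)
          rw [hG'] at this; exact this
        obtain ⟨b', hb'⟩ := hG'o _ ha
        refine ⟨max b b', ?_⟩
        rintro y (rfl | hy) y' hy'
        · exact hb' y' (fun x hx => hy' x (lt_of_lt_of_le hx (le_max_right _ _)))
        · exact hb y hy y' (fun x hx => hy' x (lt_of_lt_of_le hx (le_max_left _ _)))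
    obtain ⟨b, hb⟩ := hb
    let c : ℕ × Finset (Finset ℕ) :=
      (b, hF.toFinset.image (fun y => (Finset.range b).filter (· ∈ Φ y)))
    have hBv : Bs c ⊆ v := by
      rintro y ⟨s, hs, hys⟩
      simp only [c, Finset.mem_image, Set.Finite.mem_toFinset] at hs
      obtain ⟨w, hwF, rfl⟩ := hs
      rw [hG']
      refine hb w hwF _ (fun x hx => ?_)
      rw [hys x hx]
      simp only [Finset.mem_filter, Finset.mem_range]
      exact ⟨fun h => h.2, fun h => ⟨hx, h⟩⟩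
    have hFB : F ⊆ Bs c := by
      intro y hy
      refine ⟨(Finset.range b).filter (· ∈ Φ y), ?_, fun x hx => ?_⟩
      · simp only [c, Finset.mem_image, Set.Finite.mem_toFinset]
        exact ⟨y, hy, rfl⟩
      · simp only [Finset.mem_filter, Finset.mem_range]
        exact ⟨fun h => ⟨hx, h⟩, fun h => h.2⟩
    exact ⟨c, hFB.trans (huB n c ⟨v, hv, hBv⟩)⟩
  -- the family
  let f : ℕ → ℕ → Set (Set ℕ) := fun n i => G n (cd i)
  have hfu : ∀ n i, u n (cd i) = Φ ⁻¹' (f n i) := fun n i => hGu n (cd i)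
  -- witnesses
  have hwit : ∀ n i, ∃ y : Y, y ∉ u n (cd i) := by
    intro n i
    have : u n (cd i) ≠ Set.univ := fun h => (hU n).1.2.2 (h ▸ huU n (cd i))
    exact (Set.ne_univ_iff_exists_notMem _).1 this
  choose w hw using hwit
  have hst : ∀ y : Y, ∃ i, Φ y ∈ (g i).S := by
    intro y
    have : Φ y ∈ ⋃ i, (g i).S := by rw [← hΦT]; exact ⟨y, rfl⟩
    exact mem_iUnion.1 this
  choose sg hsg using hst
  obtain ⟨α, hα, hAlt⟩ := hg2 f (fun n i => hGo n (cd i))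
    (fun k => sg (w (Nat.unpair k).1 (Nat.unpair k).2))
  have hSsub : ∀ y ∈ (g α).S, ∃ x : Y, Φ x = y := by
    intro y hy
    have : y ∈ range Φ := by rw [hΦT]; exact mem_iUnion.2 ⟨α, hy⟩
    exact this
  rcases hAlt with ⟨n, i, h⟩ | ⟨n, F, hF, hFS, hno⟩ | ⟨N, J, hN, ha, hb, hc⟩
  · exfalso
    have h1 := hα (Nat.pair n i)
    simp only [Nat.unpair_pair] at h1
    have h2 := h _ ((hg _ _ h1).1 (hsg (w n i)))
    apply hw n i
    rw [hfu]; exact h2
  · exfalso
    have hF' : ∃ F' : Set Y, F'.Finite ∧ Φ '' F' = F := by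
      have hch : ∀ y, ∃ x : Y, y ∈ F → Φ x = y := by
        intro y
        by_cases hy : y ∈ F
        · obtain ⟨x, hx⟩ := hSsub y (hFS hy)
          exact ⟨x, fun _ => hx⟩
        · exact ⟨w 0 0, fun h => absurd h hy⟩
      choose r hr using hch
      refine ⟨r '' F, hF.image r, ?_⟩
      ext y
      constructor
      · rintro ⟨_, ⟨y', hy', rfl⟩, rfl⟩
        rw [hr y' hy']; exact hy'
      · intro hy
        exact ⟨r y, ⟨y, hy, rfl⟩, hr y hy⟩
    obtain ⟨F', hF'f, hF'F⟩ := hF'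
    obtain ⟨c, hc⟩ := homega n F' hF'f
    obtain ⟨i, rfl⟩ := hcd c
    apply hno i
    rw [← hF'F]
    rintro _ ⟨y, hy, rfl⟩
    have := hc hy
    rw [hfu] at this
    exact this
  · -- the main case
    let v : ℕ → Set Y := fun j => u (N j) (cd (J j))
    have hvf : ∀ j y, y ∈ v j ↔ Φ y ∈ f (N j) (J j) := by
      intro j y
      show y ∈ u (N j) (cd (J j)) ↔ _
      rw [hfu]; rfl
    have hvU : ∀ j, v j ∈ U (N j) := fun j => huU _ _
    have hvinj : Function.Injective v := by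
      have key : ∀ j j', j < j' → v j ≠ v j' := by
        intro j j' hjj' heq
        obtain ⟨y, hy, h1, h2⟩ := hc j j' hjj'
        obtain ⟨x, rfl⟩ := hSsub y hy
        apply h1
        rw [← hvf, heq, hvf]; exact h2
      intro a b hab
      rcases lt_trichotomy a b with h | h | h
      · exact absurd hab (key a b h)
      · exact h
      · exact absurd hab.symm (key b a h)
    -- dichotomy for points
    have hdich : ∀ y : Y, (∃ j₀, ∀ j ≥ j₀, y ∈ v j) ∨
        ((∃ j₀, ∀ j ≥ j₀, (y ∈ v j ↔ ((g α).X.z j : Set ℕ) ⊆ Φ y)) ∧ Al (g α).X (Φ y)) := by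
      intro y
      by_cases hy : Φ y ∈ (g α).S
      · left
        obtain ⟨j₀, hj₀⟩ := ha _ hy
        exact ⟨j₀, fun j hj => (hvf j y).2 (hj₀ j hj)⟩
      · have hAl : Al (g α).X (Φ y) := by
          rcases le_total (sg y) α with h | h
          · exact absurd ((hg _ _ h).1 (hsg y)) hy
          · exact (hg _ _ h).2.2 _ (hsg y) hy
        rcases hb _ hAl with ⟨j₀, hj₀⟩ | ⟨j₀, hj₀⟩
        · left
          exact ⟨j₀, fun j hj => (hvf j y).2 (hj₀ j hj)⟩
        · right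
          exact ⟨⟨j₀, fun j hj => (hvf j y).trans (hj₀ j hj)⟩, hAl⟩
    have hlarge : ∀ y : Y, {j | y ∈ v j}.Infinite := by
      intro y
      rcases hdich y with ⟨j₀, hj₀⟩ | ⟨⟨j₀, hj₀⟩, t, K, hK, hyK⟩
      · exact (Set.Ici_infinite j₀).mono (fun j hj => hj₀ j hj)
      · refine (hK.sdiff (Set.finite_Iio j₀)).mono ?_
        rintro j ⟨hj, hj'⟩
        simp only [Set.mem_Iio, not_lt] at hj'
        refine (hj₀ j hj').2 ?_
        rw [hyK]
        intro x hx
        exact Or.inr ⟨j, hj, hx⟩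
    -- chain
    have hchain : ∀ y y' : Y, (Φ y \ Φ y').Finite ∨ (Φ y' \ Φ y).Finite := by
      intro y y'
      have h1 := (hg _ _ (le_max_left (sg y) (sg y'))).1 (hsg y)
      have h2 := (hg _ _ (le_max_right (sg y) (sg y'))).1 (hsg y')
      exact (g _).ch _ h1 _ h2
    have hJfin : ∀ y y' : Y, (Φ y \ Φ y').Finite →
        ∃ j₁, ∀ j ≥ j₁, ((g α).X.z j : Set ℕ) ⊆ Φ y → ((g α).X.z j : Set ℕ) ⊆ Φ y' := by
      intro y y' hfin
      obtain ⟨M, hM⟩ := hfin.bddAbove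
      refine ⟨M + 1, fun j hj hsub x hx => ?_⟩
      by_contra hxy
      have h1 := hM ⟨hsub hx, hxy⟩
      have h2 := (g α).X.le_of_mem (Finset.mem_coe.1 hx)
      omega
    have htot : ∀ y y' : Y, {j | y ∈ v j ∧ y' ∉ v j}.Finite ∨ {j | y' ∈ v j ∧ y ∉ v j}.Finite := by
      intro y y'
      have fin_of : ∀ (P : ℕ → Prop) (j₀ : ℕ), (∀ j ≥ j₀, ¬ P j) → {j | P j}.Finite := by
        intro P j₀ h
        refine (Set.finite_Iio j₀).subset ?_
        intro j hj
        by_contra h'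
        simp only [Set.mem_Iio, not_lt] at h'
        exact h j h' hj
      rcases hdich y' with ⟨j₀, hj₀⟩ | ⟨⟨j₀, hj₀⟩, _⟩
      · left
        exact fin_of _ j₀ (fun j hj h => h.2 (hj₀ j hj))
      · rcases hdich y with ⟨j₁, hj₁⟩ | ⟨⟨j₁, hj₁⟩, _⟩
        · right
          exact fin_of _ j₁ (fun j hj h => h.2 (hj₁ j hj))
        · rcases hchain y y' with h | h
          · left
            obtain ⟨j₂, hj₂⟩ := hJfin y y' h
            refine fin_of _ (max j₀ (max j₁ j₂)) (fun j hj h => h.2 ?_)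
            have e0 : j₀ ≤ j := le_trans (le_max_left _ _) hj
            have e1 : j₁ ≤ j := le_trans (le_trans (le_max_left _ _) (le_max_right _ _)) hj
            have e2 : j₂ ≤ j := le_trans (le_trans (le_max_right _ _) (le_max_right _ _)) hj
            exact (hj₀ j e0).2 (hj₂ j e2 ((hj₁ j e1).1 h.1))
          · right
            obtain ⟨j₂, hj₂⟩ := hJfin y' y h
            refine fin_of _ (max j₀ (max j₁ j₂)) (fun j hj h => h.2 ?_)
            have e0 : j₀ ≤ j := le_trans (le_max_left _ _) hj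
            have e1 : j₁ ≤ j := le_trans (le_trans (le_max_left _ _) (le_max_right _ _)) hj
            have e2 : j₂ ≤ j := le_trans (le_trans (le_max_right _ _) (le_max_right _ _)) hj
            exact (hj₁ j e1).2 (hj₂ j e2 ((hj₀ j e0).1 h.1))
    refine ⟨fun n => {s | ∃ j, N j = n ∧ s = v j}, ?_, ?_⟩
    · intro n
      refine ⟨?_, ?_⟩
      · by_cases hex : ∃ j, N j = n
        · obtain ⟨j, rfl⟩ := hex
          refine (Set.finite_singleton (v j)).subset ?_
          rintro s ⟨j', hj', rfl⟩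
          rw [hN.injective hj']; rfl
        · convert Set.finite_empty
          ext s
          simp only [mem_ofPred_eq, mem_empty_iff_false, iff_false]
          rintro ⟨j, hj, _⟩
          exact hex ⟨j, hj⟩
      · rintro s ⟨j, rfl, rfl⟩
        exact hvU j
    · have hUn : (⋃ n, {s | ∃ j, N j = n ∧ s = v j}) = range v := by
        ext s
        simp only [mem_iUnion, mem_ofPred_eq, mem_range]
        constructor
        · rintro ⟨n, j, _, rfl⟩; exact ⟨j, rfl⟩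
        · rintro ⟨j, rfl⟩; exact ⟨N j, j, rfl, rfl⟩
      rw [hUn]
      refine ⟨⟨?_, ?_, ?_⟩, ?_, ?_⟩
      · rintro _ ⟨j, rfl⟩
        exact (hU (N j)).1.1 _ (hvU j)
      · rw [Set.eq_univ_iff_forall]
        intro y
        obtain ⟨j, hj⟩ := (hlarge y).nonempty
        exact ⟨v j, ⟨j, rfl⟩, hj⟩
      · rintro ⟨j, hj⟩
        apply (hU (N j)).1.2.2
        rw [← hj]; exact hvU j
      · intro y
        refine ((hlarge y).image hvinj.injOn).mono ?_
        rintro _ ⟨j, hj, rfl⟩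
        exact ⟨⟨j, rfl⟩, hj⟩
      · intro y y'
        rcases htot y y' with h | h
        · left
          refine (h.image v).subset ?_
          rintro _ ⟨⟨j, rfl⟩, h1, h2⟩
          exact ⟨j, ⟨h1, h2⟩, rfl⟩
        · right
          refine (h.image v).subset ?_
          rintro _ ⟨⟨j, rfl⟩, h1, h2⟩
          exact ⟨j, ⟨h1, h2⟩, rfl⟩

/-- The square of `Y` has an omega-cover without tau-subcover. -/
lemma not_sfin_sq (hg : ∀ i j, i ≤ j → Ext (g j) (g i)) [Nonempty I]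
    (hg3 : ∀ A : Set ℕ, A.Infinite → ∃ α, Split A (g α))
    (hΦT : range Φ = ⋃ i, (g i).S)
    (hcl : ∀ n, IsClopen {y | n ∈ Φ y}) :
    ¬ Sfin (Omega (Fin 2 → Y)) (Tau (Fin 2 → Y)) := by
  classical
  let W : ℕ → Set (Fin 2 → Y) := fun i => {p | Wm i (Φ (p 0)) (Φ (p 1))}
  have hclo : ∀ (a : Fin 2) (n : ℕ), IsClopen {p : Fin 2 → Y | n ∈ Φ (p a)} := fun a n =>
    (hcl n).preimage (continuous_apply a)
  have hWo : ∀ i, IsOpen (W i) := by
    intro i
    have : W i = ⋃ m ∈ Iic i, (({p : Fin 2 → Y | m ∈ Φ (p 0)} ∩ {p : Fin 2 → Y | m ∈ Φ (p 1)}) ∩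
        ⋂ m' ∈ Ioc m i, ({p : Fin 2 → Y | m' ∈ Φ (p 0)}ᶜ ∩ {p : Fin 2 → Y | m' ∈ Φ (p 1)}ᶜ)) := by
      ext p
      simp only [W, Wm, mem_ofPred_eq, mem_iUnion, mem_inter_iff, mem_iInter, mem_compl_iff,
        mem_Iic, mem_Ioc, exists_prop]
      constructor
      · rintro ⟨m, h1, h2, h3, h4⟩
        exact ⟨m, h1, ⟨h2, h3⟩, fun m' hm' => h4 m' hm'.2 hm'.1⟩
      · rintro ⟨m, h1, ⟨h2, h3⟩, h4⟩
        exact ⟨m, h1, h2, h3, fun m' h5 h6 => h4 m' ⟨h6, h5⟩⟩
    rw [this]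
    refine isOpen_biUnion (fun m _ => ?_)
    refine ((hclo 0 m).isOpen.inter (hclo 1 m).isOpen).inter ?_
    refine (Set.finite_Ioc m i).isOpen_biInter (fun m' _ => ?_)
    exact (hclo 0 m').compl.isOpen.inter (hclo 1 m').compl.isOpen
  have hS : ∀ α, ∀ y ∈ (g α).S, ∃ x : Y, Φ x = y := by
    intro α y hy
    have : y ∈ range Φ := by rw [hΦT]; exact mem_iUnion.2 ⟨α, hy⟩
    exact this
  -- splitting points
  have hsplit : ∀ A : Set ℕ, A.Infinite → ∃ p q : Fin 2 → Y,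
      {i | i ∈ A ∧ p ∈ W i ∧ q ∉ W i}.Infinite ∧ {i | i ∈ A ∧ q ∈ W i ∧ p ∉ W i}.Infinite := by
    intro A hA
    obtain ⟨α, x, hx, y, hy, z, hz, h1, h2⟩ := hg3 A hA
    obtain ⟨x', rfl⟩ := hS α x hx
    obtain ⟨y', rfl⟩ := hS α y hy
    obtain ⟨z', rfl⟩ := hS α z hz
    exact ⟨![x', y'], ![y', z'], h1, h2⟩
  have hfinuniv : {i | W i = Set.univ}.Finite := by
    by_contra h
    obtain ⟨p, q, h1, _⟩ := hsplit _ h
    obtain ⟨i, hi, _, hq⟩ := h1.nonempty
    apply hq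
    have : W i = Set.univ := hi
    rw [this]; trivial
  -- the omega cover
  let 𝒲 : Set (Set (Fin 2 → Y)) := {w | ∃ i, w = W i ∧ W i ≠ Set.univ}
  have hcov : ∀ F : Set (Fin 2 → Y), F.Finite → ∃ w ∈ 𝒲, F ⊆ w := by
    intro F hF
    let F' : Set (Set ℕ) := (fun p : Fin 2 → Y => Φ (p 0)) '' F ∪ (fun p => Φ (p 1)) '' F
    have hF' : F'.Finite := (hF.image _).union (hF.image _)
    obtain ⟨α, hα⟩ := finite_stage hg F' hF' (by
      rintro y (⟨p, _, rfl⟩ | ⟨p, _, rfl⟩)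
      · rw [← hΦT]; exact ⟨_, rfl⟩
      · rw [← hΦT]; exact ⟨_, rfl⟩)
    obtain ⟨j₀, hj₀⟩ := finite_inter (g α) F' hF' hα
    obtain ⟨M, hM⟩ := hfinuniv.bddAbove
    obtain ⟨x, hx⟩ := (g α).X.ne (max j₀ (M + 1))
    have hxM := (g α).X.le_of_mem hx
    have hne : W x ≠ Set.univ := by
      intro h
      have h1 := hM (show x ∈ {i | W i = Set.univ} from h)
      have h2 := le_max_right j₀ (M + 1)
      omega
    refine ⟨W x, ⟨x, rfl, hne⟩, ?_⟩
    intro p hp
    have h0 : x ∈ Φ (p 0) := hj₀ _ (le_max_left _ _) _ (Or.inl ⟨p, hp, rfl⟩) hx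
    have h1 : x ∈ Φ (p 1) := hj₀ _ (le_max_left _ _) _ (Or.inr ⟨p, hp, rfl⟩) hx
    exact ⟨x, le_rfl, h0, h1, fun m' h2 h3 => by omega⟩
  have hΩ : 𝒲 ∈ Omega (Fin 2 → Y) := by
    refine ⟨⟨?_, ?_, ?_⟩, hcov⟩
    · rintro _ ⟨i, rfl, _⟩; exact hWo i
    · rw [Set.eq_univ_iff_forall]
      intro p
      obtain ⟨w, hw, hp⟩ := hcov {p} (Set.finite_singleton p)
      exact ⟨w, hw, hp rfl⟩
    · rintro ⟨i, h1, h2⟩; exact h2 h1.symm
  intro hSf
  obtain ⟨F, hF, hT⟩ := hSf (fun _ => 𝒲) (fun _ => hΩ)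
  let V := ⋃ n, F n
  have hVW : V ⊆ 𝒲 := Set.iUnion_subset (fun n => (hF n).2)
  -- a point of the square
  obtain ⟨p₀, _, _, _⟩ := hsplit Set.univ Set.infinite_univ
  have hVinf : V.Infinite := (hT.2.1 p₀).mono (fun u hu => hu.1)
  have hch : ∀ w : Set (Fin 2 → Y), ∃ i, w ∈ V → w = W i := by
    intro w
    by_cases hw : w ∈ V
    · obtain ⟨i, hi, _⟩ := hVW hw
      exact ⟨i, fun _ => hi⟩
    · exact ⟨0, fun h => absurd h hw⟩
  choose idx hidx using hch
  have hinj : Set.InjOn idx V := by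
    intro a ha b hb hab
    rw [hidx a ha, hidx b hb, hab]
  have hA : (idx '' V).Infinite := hVinf.image hinj
  obtain ⟨p, q, h1, h2⟩ := hsplit _ hA
  have hmemV : ∀ i ∈ idx '' V, W i ∈ V := by
    rintro _ ⟨w, hw, rfl⟩
    rw [← hidx w hw]; exact hw
  have hinjW : Set.InjOn W (idx '' V) := by
    rintro _ ⟨w, hw, rfl⟩ _ ⟨w', hw', rfl⟩ h
    rw [← hidx w hw, ← hidx w' hw'] at h
    rw [h]
  rcases hT.2.2 p q with h | h
  · apply h1
    refine Set.Finite.of_finite_image (f := W) (h.subset ?_) (hinjW.mono (fun i hi => hi.1))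
    rintro _ ⟨i, ⟨hi, hi1, hi2⟩, rfl⟩
    exact ⟨hmemV i hi, hi1, hi2⟩
  · apply h2
    refine Set.Finite.of_finite_image (f := W) (h.subset ?_) (hinjW.mono (fun i hi => hi.1))
    rintro _ ⟨i, ⟨hi, hi1, hi2⟩, rfl⟩
    exact ⟨hmemV i hi, hi1, hi2⟩

end abs

/-- The negative part. -/
theorem negative_part (hCH : (𝔠 : Cardinal.{0}) = ℵ₁) :
    ∃ X : Set ℝ, Sfin (Omega X) (Tau X) ∧ ¬ Sfin (Omega (Fin 2 → X)) (Tau (Fin 2 → X)) := by
  classical
  obtain ⟨I, _, g, hg, hg2, hg3⟩ := exists_generic hCH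
  obtain ⟨i0, _⟩ := hg3 Set.univ Set.infinite_univ
  haveI : Nonempty I := ⟨i0⟩
  let h := cantorSetHomeomorphNatToBool
  let θ : (ℕ → Bool) → Set ℕ := fun y => {n | y n = true}
  let T : Set (Set ℕ) := ⋃ i, (g i).S
  let X : Set ℝ := {x | ∃ hx : x ∈ cantorSet, θ (h ⟨x, hx⟩) ∈ T}
  have hXc : X ⊆ cantorSet := fun x hx => hx.1
  let φ : X → (ℕ → Bool) := fun x => h (Set.inclusion hXc x)
  have hφ : Topology.IsInducing φ :=
    h.isInducing.comp (Topology.IsEmbedding.inclusion hXc).isInducing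
  let Φ : X → Set ℕ := fun x => θ (φ x)
  have hΦT : range Φ = T := by
    ext y
    constructor
    · rintro ⟨⟨x, hx, hxT⟩, rfl⟩
      exact hxT
    · intro hy
      let b : ℕ → Bool := fun n => decide (n ∈ y)
      have hb : θ b = y := by ext n; simp [θ, b]
      have hx : ((h.symm b : cantorSet) : ℝ) ∈ X := by
        refine ⟨(h.symm b).2, ?_⟩
        have : h ⟨((h.symm b : cantorSet) : ℝ), (h.symm b).2⟩ = b := by
          exact h.apply_symm_apply b
        rw [this, hb]; exact hy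
      refine ⟨⟨_, hx⟩, ?_⟩
      show θ (h _) = y
      have : h (Set.inclusion hXc ⟨((h.symm b : cantorSet) : ℝ), hx⟩) = b :=
        h.apply_symm_apply b
      rw [this, hb]
  have hop : ∀ u : Set X, IsOpen u → ∃ G : Set (Set ℕ), Op G ∧ u = Φ ⁻¹' G := by
    intro u hu
    obtain ⟨O, hO, rfl⟩ := hφ.isOpen_iff.1 hu
    refine ⟨{y | ∃ b ∈ O, ∀ n, (b n = true ↔ n ∈ y)}, ?_, ?_⟩
    · rintro y ⟨b, hbO, hby⟩
      obtain ⟨K, uu, h1, h2⟩ := isOpen_pi_iff.1 hO _ hbO
      refine ⟨K.sup id + 1, fun y' hy' => ⟨fun n => decide (n ∈ y'), h2 ?_, fun n => by simp⟩⟩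
      intro a ha
      have hle : a ≤ K.sup id := Finset.le_sup (f := id) ha
      have h3 : (decide (a ∈ y')) = b a := by
        rw [Bool.eq_iff_iff, hby a, ← hy' a (by omega)]
        simp
      show decide (a ∈ y') ∈ uu a
      rw [h3]
      exact (h1 a ha).2
    · ext x
      constructor
      · intro hx
        exact ⟨φ x, hx, fun n => Iff.rfl⟩
      · rintro ⟨b, hbO, hb⟩
        have : b = φ x := by
          funext n
          rw [Bool.eq_iff_iff, hb n]
          exact Iff.rfl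
        rw [this] at hbO
        exact hbO
  have hcl : ∀ n, IsClopen {x | n ∈ Φ x} := by
    intro n
    have h1 : {x | n ∈ Φ x} = φ ⁻¹' ((fun y : ℕ → Bool => y n) ⁻¹' {true}) := by
      ext x; simp [Φ, θ]
    rw [h1]
    exact ((isClopen_discrete ({true} : Set Bool)).preimage (continuous_apply n)).preimage
      hφ.continuous
  exact ⟨X, sfin_Y hg hg2 hΦT hop, not_sfin_sq hg hg3 hΦT hcl⟩

end TauPow
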