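import Mathlib

/-!
Selection principles involving tau-covers: definitions.
-/

namespace TauPow

/-- A cover of the space `X`: a family of open sets with union `X` that does not contain `X`. -/
def IsCover (X : Type*) [TopologicalSpace X] (U : Set (Set X)) : Prop :=
  (∀ u ∈ U, IsOpen u) ∧ ⋃₀ U = Set.univ ∧ Set.univ ∉ U

/-- The collection `Ω` of open omega-covers of `X`: every finite subset of `X` is contained in some
member of the cover. -/
def Omega (X : Type*) [TopologicalSpace X] : Set (Set (Set X)) :=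
  {U | IsCover X U ∧ ∀ F : Set X, F.Finite → ∃ u ∈ U, F ⊆ u}

/-- The collection `T` of open tau-covers of `X`: every point is in infinitely many members
(the cover is large), and for all `x, y` at least one of `{u ∈ U : x ∈ u, y ∉ u}` and
`{u ∈ U : y ∈ u, x ∉ u}` is finite. -/
def Tau (X : Type*) [TopologicalSpace X] : Set (Set (Set X)) :=
  {U | IsCover X U ∧ (∀ x, {u | u ∈ U ∧ x ∈ u}.Infinite) ∧
    ∀ x y, {u | u ∈ U ∧ x ∈ u ∧ y ∉ u}.Finite ∨ {u | u ∈ U ∧ y ∈ u ∧ x ∉ u}.Finite}

/-- The collection `Γ` of open gamma-covers of `X`: infinite covers such that every point belongs to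
all but finitely many members. -/
def Gamma (X : Type*) [TopologicalSpace X] : Set (Set (Set X)) :=
  {U | IsCover X U ∧ U.Infinite ∧ ∀ x, {u | u ∈ U ∧ x ∉ u}.Finite}

/-- `S₁(A, B)`: for every sequence `U n` of members of `A` there are `u n ∈ U n` with
`{u n : n} ∈ B`. -/
def S1 {X : Type*} (A B : Set (Set (Set X))) : Prop :=
  ∀ U : ℕ → Set (Set X), (∀ n, U n ∈ A) →
    ∃ u : ℕ → Set X, (∀ n, u n ∈ U n) ∧ Set.range u ∈ B

/-- `S_fin(A, B)`: for every sequence `U n` of members of `A` there are finite (possibly empty)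
`F n ⊆ U n` with `⋃ n, F n ∈ B`. -/
def Sfin {X : Type*} (A B : Set (Set (Set X))) : Prop :=
  ∀ U : ℕ → Set (Set X), (∀ n, U n ∈ A) →
    ∃ F : ℕ → Set (Set X), (∀ n, (F n).Finite ∧ F n ⊆ U n) ∧ (⋃ n, F n) ∈ B

end TauPow
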